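import Pool.Agent.Helper43K9.LN.Stm2
set_option autoImplicit false
namespace Pool.Agent.Helper43K9.LN

/-- a basis adapted to a saturated subgroup, by the Smith normal form -/
theorem bas' (n : ℕ) (Λ : Submodule ℤ (Fin n → ℤ))
    (hs : ∀ (k : ℤ) (m : Fin n → ℤ), k ≠ 0 → k • m ∈ Λ → m ∈ Λ) :
    ∃ (C : Matrix (Fin n) (Fin n) ℤ) (I : Finset (Fin n)), IsUnit C.det ∧
      I.card = Module.finrank ℤ Λ ∧ (∀ i ∈ I, C i ∈ Λ) ∧
      ∀ m ∈ Λ, ∃ a : Fin n → ℤ, (∀ i, i ∉ I → a i = 0) ∧ m = ∑ i, a i • C i := by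
  classical
  obtain ⟨r, S⟩ := Λ.smithNormalForm (Pi.basisFun ℤ (Fin n))
  have ha : ∀ i, S.a i ≠ 0 := by
    intro i h
    have h1 := S.snf i
    rw [h, zero_smul] at h1
    exact S.bN.ne_zero i (Subtype.ext h1)
  have hmem : ∀ i, S.bM (S.f i) ∈ Λ := fun i =>
    hs (S.a i) _ (ha i) (by rw [← S.snf i]; exact (S.bN i).2)
  refine ⟨fun i => S.bM i, Finset.univ.map S.f, ?_, ?_, ?_, ?_⟩
  · have h := (Pi.basisFun ℤ (Fin n)).isUnit_det S.bM
    rw [Module.Basis.det_apply] at h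
    have h2 : (Pi.basisFun ℤ (Fin n)).toMatrix S.bM = (Matrix.of fun i => S.bM i).transpose := by
      ext i j
      simp [Module.Basis.toMatrix_apply]
    rw [h2, Matrix.det_transpose] at h
    exact h
  · rw [Finset.card_map, Finset.card_univ, Fintype.card_fin]
    exact ((Module.finrank_eq_card_basis S.bN).trans (Fintype.card_fin r)).symm
  · intro i hi
    obtain ⟨j, _, rfl⟩ := Finset.mem_map.1 hi
    exact hmem j
  · intro m hm
    refine ⟨fun i => S.bM.repr m i, ?_, (S.bM.sum_repr m).symm⟩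
    intro i hi
    exact S.repr_eq_zero_of_notMem_range ⟨m, hm⟩ (by simpa using hi)

theorem bas : S_BAS := bas'

end Pool.Agent.Helper43K9.LN
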