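import Pool.Agent.Helper43K9.LN.Stm2

/-! # The upper bound of the canonical order in the new coordinates (leaf CANY, helper45) -/

set_option autoImplicit false
set_option linter.unusedSectionVars false

namespace Pool.Agent.Helper43K9.LN

open Pool.Agent.H436R3.Fol Pool.Agent.H436R3.KT Pool.Agent.W497.Mld MvPolynomial Matrix
open Pool.Agent.TH165.ACC (pr ex Prim Cn Hs ToricGerm tv tor ym)
open Pool.Agent.Helper43K9.NH (ch AA wt)

namespace CanyL

section gen

variable {n : ℕ} {K : Type} [Field K] [Algebra ℂ K]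

theorem ch_der {y : Fin n → K} (hy : ∀ i, y i ≠ 0) (D : Derivation ℂ K K) (c : Fin n → K)
    (h : ∀ k, D (y k) = c k * y k) (m : Fin n → ℤ) :
    D (ch y m) = (∑ k, (m k : K) * c k) * ch y m := by
  have key : ∀ s : Finset (Fin n), D (∏ j ∈ s, y j ^ m j) =
      (∑ k ∈ s, (m k : K) * c k) * ∏ j ∈ s, y j ^ m j := by
    intro s
    induction s using Finset.induction_on with
    | empty => simp
    | insert a s ha ih =>
      rw [Finset.prod_insert ha, Finset.sum_insert ha, Derivation.leibniz, ih]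
      have h1 := logDer_zpow (D := D) (hy a) (m a)
      rw [div_eq_iff (zpow_ne_zero _ (hy a)), h a, mul_div_assoc, div_self (hy a), mul_one] at h1
      rw [h1]
      simp only [smul_eq_mul]
      ring
  exact key Finset.univ

theorem der_AA {y : Fin n → K} {C : Set (Fin n → ℤ)} {v : DVal K} {D : Derivation ℂ K K}
    (h1 : ∀ f ∈ AA y C, v.Reg f) (h2 : ∀ m ∈ C, v.Reg (D (ch y m))) {f : K}
    (hf : f ∈ AA y C) : v.Reg (D f) := by
  induction hf using Algebra.adjoin_induction with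
  | mem x hx =>
    obtain ⟨m, hm, rfl⟩ := hx
    exact h2 m hm
  | algebraMap r => rw [Derivation.map_algebraMap]; exact v.reg_zero
  | add x y _ _ hx hy => rw [map_add]; exact v.reg_add hx hy
  | mul x y hx' hy' hx hy =>
    rw [Derivation.leibniz, smul_eq_mul, smul_eq_mul]
    exact v.reg_add (v.reg_mul (h1 x hx') hy) (v.reg_mul (h1 y hy') hx)

theorem ord_one_add {v : DVal K} {s : K} (hs : s ≠ 0) (h1 : v.ord s = 1) (h2 : 1 + s ≠ 0) :
    v.ord (1 + s) = 0 := by
  have a1 := v.map_add 1 s one_ne_zero hs h2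
  rw [v.ord_one, h1] at a1
  have a2 := v.map_add (1 + s) (-s) h2 (neg_ne_zero.2 hs) (by rw [add_neg_cancel_right]; exact one_ne_zero)
  rw [add_neg_cancel_right, v.ord_one, v.ord_neg hs, h1] at a2
  omega

end gen

section main

variable {n : ℕ} {K : Type} [Field K] [Algebra ℂ K]
  [Algebra (MvPolynomial (Fin n) ℂ) K] [IsFractionRing (MvPolynomial (Fin n) ℂ) K]
  [IsScalarTower ℂ (MvPolynomial (Fin n) ℂ) K]

/-- the factor of the derivation number `i` -/
noncomputable def rr (K : Type) [Field K] [Algebra ℂ K]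
    [Algebra (MvPolynomial (Fin n) ℂ) K] [IsFractionRing (MvPolynomial (Fin n) ℂ) K]
    [IsScalarTower ℂ (MvPolynomial (Fin n) ℂ) K]
    (C : Matrix (Fin n) (Fin n) ℤ) (ξ : Fin n → ℂ) (I : Finset (Fin n)) (i : Fin n) : K :=
  if i ∈ I then nc (cv K) C ξ I i / (1 + nc (cv K) C ξ I i) else 1

/-- the matrix of the derivations -/
noncomputable def BB (K : Type) [Field K] [Algebra ℂ K]
    [Algebra (MvPolynomial (Fin n) ℂ) K] [IsFractionRing (MvPolynomial (Fin n) ℂ) K]
    [IsScalarTower ℂ (MvPolynomial (Fin n) ℂ) K]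
    (C : Matrix (Fin n) (Fin n) ℤ) (ξ : Fin n → ℂ) (I : Finset (Fin n)) :
    Matrix (Fin n) (Fin n) K :=
  diagonal (rr K C ξ I) * ((C⁻¹).map (Int.cast : ℤ → K))ᵀ

theorem BB_apply (C : Matrix (Fin n) (Fin n) ℤ) (ξ : Fin n → ℂ) (I : Finset (Fin n))
    (i j : Fin n) : BB K C ξ I i j = rr K C ξ I i * ((C⁻¹ j i : ℤ) : K) := by
  rw [BB, diagonal_mul, transpose_apply, map_apply]

/-- the derivation of a row -/
noncomputable def row (a : Fin n → K) : Derivation ℂ K K := ∑ j, a j • tor K j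

theorem row_apply (a : Fin n → K) (f : K) : row a f = ∑ j, a j * tor K j f := by
  rw [row, der_sum_apply]

theorem row_ch (C : Matrix (Fin n) (Fin n) ℤ) (hC : IsUnit C.det) (ξ : Fin n → ℂ)
    (I : Finset (Fin n)) (i k : Fin n) :
    row (BB K C ξ I i) (ch (cv K) (C k)) =
      (if k = i then rr K C ξ I i else 0) * ch (cv K) (C k) := by
  have h1 : ∀ j, tor K j (ch (cv K) (C k)) = (C k j : K) * ch (cv K) (C k) := fun j =>
    Pool.Agent.TH165.ACC.tor_ym j (C k)
  have h2 : ∑ j, (C k j : K) * ((C⁻¹ j i : ℤ) : K) = if k = i then 1 else 0 := by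
    have h3 := congrFun (congrFun (Matrix.mul_nonsing_inv C hC) k) i
    rw [Matrix.mul_apply, Matrix.one_apply] at h3
    have h4 := congrArg (Int.cast : ℤ → K) h3
    push_cast at h4
    exact h4
  rw [row_apply]
  have h5 : ∀ j, BB K C ξ I i j * tor K j (ch (cv K) (C k)) =
      rr K C ξ I i * ((C k j : K) * ((C⁻¹ j i : ℤ) : K)) * ch (cv K) (C k) := by
    intro j
    rw [BB_apply, h1]
    ring
  rw [Finset.sum_congr rfl fun j _ => h5 j, ← Finset.sum_mul, ← Finset.mul_sum, h2]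
  by_cases h : k = i
  · rw [if_pos h, if_pos h, mul_one]
  · rw [if_neg h, if_neg h, mul_zero]

theorem cst_ne {c : ℂ} (hc : c ≠ 0) : algebraMap ℂ K c ≠ 0 :=
  (map_ne_zero_iff _ (algebraMap ℂ K).injective).2 hc

theorem one_add_nc (C : Matrix (Fin n) (Fin n) ℤ) (ξ : Fin n → ℂ) (I : Finset (Fin n))
    {i : Fin n} (hi : i ∈ I) :
    1 + nc (cv K) C ξ I i = ch (cv K) (C i) * algebraMap ℂ K (ξ i)⁻¹ := by
  rw [nc, if_pos hi]
  ring

theorem chc_ne (C : Matrix (Fin n) (Fin n) ℤ) (i : Fin n) : ch (cv K) (C i) ≠ 0 :=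
  Pool.Agent.Helper43K9.NH.ch_ne (fun j => cv_ne j) _

theorem one_add_ne (C : Matrix (Fin n) (Fin n) ℤ) (ξ : Fin n → ℂ) (hξ : ∀ i, ξ i ≠ 0)
    (I : Finset (Fin n)) {i : Fin n} (hi : i ∈ I) : 1 + nc (cv K) C ξ I i ≠ 0 := by
  rw [one_add_nc C ξ I hi]
  exact mul_ne_zero (chc_ne C i) (cst_ne (inv_ne_zero (hξ i)))

/-- the derivation with the integer coefficients -/
theorem tt_ch (C : Matrix (Fin n) (Fin n) ℤ) (hC : IsUnit C.det) (i : Fin n) :
    row (fun j => ((C⁻¹ j i : ℤ) : K)) (ch (cv K) (C i)) = ch (cv K) (C i) := by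
  have h := row_ch (K := K) C hC (fun _ => 1) ∅ i i
  have h2 : BB K C (fun _ => 1) ∅ i = fun j => ((C⁻¹ j i : ℤ) : K) := by
    funext j
    rw [BB_apply, rr, if_neg (Finset.notMem_empty _), one_mul]
  rw [h2, if_pos rfl, rr, if_neg (Finset.notMem_empty _), one_mul] at h
  exact h

theorem nc_ne (C : Matrix (Fin n) (Fin n) ℤ) (hC : IsUnit C.det) (ξ : Fin n → ℂ)
    (hξ : ∀ i, ξ i ≠ 0) (I : Finset (Fin n)) (i : Fin n) : nc (cv K) C ξ I i ≠ 0 := by
  by_cases hi : i ∈ I
  · intro h0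
    have h1 := one_add_nc (K := K) C ξ I hi
    rw [h0, add_zero] at h1
    have h2 := congrArg (row (fun j => ((C⁻¹ j i : ℤ) : K))) h1
    rw [Derivation.map_one_eq_zero, Derivation.leibniz, Derivation.map_algebraMap, smul_zero,
      zero_add, tt_ch C hC, smul_eq_mul, mul_comm, ← h1] at h2
    exact zero_ne_one h2
  · rw [nc, if_neg hi]
    exact chc_ne C i

theorem row_nc (C : Matrix (Fin n) (Fin n) ℤ) (hC : IsUnit C.det) (ξ : Fin n → ℂ)
    (hξ : ∀ i, ξ i ≠ 0) (I : Finset (Fin n)) (i k : Fin n) :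
    row (BB K C ξ I i) (nc (cv K) C ξ I k) =
      (if k = i then 1 else 0) * nc (cv K) C ξ I k := by
  by_cases hk : k ∈ I
  · have h1 : nc (cv K) C ξ I k = ch (cv K) (C k) * algebraMap ℂ K (ξ k)⁻¹ - 1 := by
      rw [nc, if_pos hk]
    have h2 : row (BB K C ξ I i) (nc (cv K) C ξ I k) =
        (if k = i then rr K C ξ I i else 0) * (1 + nc (cv K) C ξ I k) := by
      rw [one_add_nc C ξ I hk, h1, map_sub, Derivation.map_one_eq_zero, sub_zero,
        Derivation.leibniz, Derivation.map_algebraMap, smul_zero, zero_add, row_ch C hC,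
        smul_eq_mul]
      ring
    rw [h2]
    by_cases h : k = i
    · subst h
      rw [if_pos rfl, if_pos rfl, rr, if_pos hk, div_mul_cancel₀ _ (one_add_ne C ξ hξ I hk), one_mul]
    · rw [if_neg h, if_neg h, zero_mul, zero_mul]
  · have h1 : nc (cv K) C ξ I k = ch (cv K) (C k) := by
      rw [nc, if_neg hk]
    rw [h1, row_ch C hC]
    by_cases h : k = i
    · subst h
      rw [if_pos rfl, if_pos rfl, rr, if_neg hk]
    · rw [if_neg h, if_neg h]

theorem row_chnc (C : Matrix (Fin n) (Fin n) ℤ) (hC : IsUnit C.det) (ξ : Fin n → ℂ)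
    (hξ : ∀ i, ξ i ≠ 0) (I : Finset (Fin n)) (i : Fin n) (m : Fin n → ℤ) :
    row (BB K C ξ I i) (ch (nc (cv K) C ξ I) m) = (m i : K) * ch (nc (cv K) C ξ I) m := by
  rw [ch_der (nc_ne C hC ξ hξ I) (row (BB K C ξ I i)) (fun k => if k = i then 1 else 0)
    (fun k => row_nc C hC ξ hξ I i k) m]
  congr 1
  rw [Finset.sum_eq_single i]
  · rw [if_pos rfl, mul_one]
  · intro k _ hk
    rw [if_neg hk, mul_zero]
  · intro h
    exact absurd (Finset.mem_univ _) h

theorem row_mul (P B : Matrix (Fin n) (Fin n) K) (i : Fin n) :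
    row ((P * B) i) = ∑ k, P i k • row (B k) := by
  ext f
  rw [row_apply, der_sum_apply]
  simp only [row_apply, Matrix.mul_apply, Finset.sum_mul, Finset.mul_sum]
  rw [Finset.sum_comm]
  exact Finset.sum_congr rfl fun k _ => Finset.sum_congr rfl fun j _ => by ring

theorem ord_rr (C : Matrix (Fin n) (Fin n) ℤ) (hC : IsUnit C.det) (ξ : Fin n → ℂ)
    (hξ : ∀ i, ξ i ≠ 0) (I : Finset (Fin n)) {v : DVal K} {u : Fin n → ℤ}
    (hu : ∀ i ∈ I, u i = 1) (hw : wt (nc (cv K) C ξ I) v = u) (i : Fin n) :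
    rr K C ξ I i ≠ 0 ∧ v.ord (rr K C ξ I i) = if i ∈ I then 1 else 0 := by
  by_cases hi : i ∈ I
  · have h1 : v.ord (nc (cv K) C ξ I i) = 1 := by
      rw [← hu i hi, ← hw]
      rfl
    have h2 := nc_ne (K := K) C hC ξ hξ I i
    have h3 := one_add_ne (K := K) C ξ hξ I hi
    rw [rr, if_pos hi, if_pos hi]
    refine ⟨div_ne_zero h2 h3, ?_⟩
    rw [v.ord_div h2 h3, h1, ord_one_add h2 h1 h3]
    norm_num
  · rw [rr, if_neg hi, if_neg hi]
    exact ⟨one_ne_zero, v.ord_one⟩

theorem det_BB (C : Matrix (Fin n) (Fin n) ℤ) (hC : IsUnit C.det) (ξ : Fin n → ℂ)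
    (hξ : ∀ i, ξ i ≠ 0) (I : Finset (Fin n)) {v : DVal K} {u : Fin n → ℤ}
    (hu : ∀ i ∈ I, u i = 1) (hw : wt (nc (cv K) C ξ I) v = u) :
    (BB K C ξ I).det ≠ 0 ∧ v.ord (BB K C ξ I).det = I.card := by
  have h1 : (BB K C ξ I).det = (∏ i, rr K C ξ I i) * ((C⁻¹.det : ℤ) : K) := by
    rw [BB, det_mul, det_diagonal, det_transpose]
    congr 1
    exact (Int.cast_det (R := K) C⁻¹).symm
  have h2 : (C⁻¹.det : ℤ) ≠ 0 := by
    have h3 := congrArg Matrix.det (Matrix.mul_nonsing_inv C hC)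
    rw [det_mul, det_one] at h3
    intro h4
    rw [h4, mul_zero] at h3
    exact zero_ne_one h3
  have h5 : ((C⁻¹.det : ℤ) : K) ≠ 0 := by
    rw [← map_intCast (algebraMap ℂ K)]
    exact cst_ne (by exact_mod_cast h2)
  have h6 : v.ord ((C⁻¹.det : ℤ) : K) = 0 := by
    rw [← map_intCast (algebraMap ℂ K)]
    exact v.const _ (by exact_mod_cast h2)
  have h7 : ∏ i, rr K C ξ I i ≠ 0 :=
    Finset.prod_ne_zero_iff.2 fun i _ => (ord_rr C hC ξ hξ I hu hw i).1
  rw [h1]
  refine ⟨mul_ne_zero h7 h5, ?_⟩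
  rw [v.map_mul _ _ h7 h5, h6, add_zero, v.ord_prod _ _ fun i _ => (ord_rr C hC ξ hξ I hu hw i).1,
    Finset.sum_congr rfl fun i _ => (ord_rr C hC ξ hξ I hu hw i).2]
  rw [Finset.sum_ite_mem, Finset.univ_inter, Finset.sum_const, nsmul_eq_mul, mul_one]

end main

end CanyL

open CanyL

theorem cany : S_CANY := by
  intro n K _ _ _ _ _ C ξ I hC hξ v u hu hI hw hloc d T e hT
  obtain ⟨m1, hm1⟩ := hu
  obtain ⟨i0, hi0⟩ : ∃ i, u i ≠ 0 := by
    by_contra h
    push Not at h
    have : pr m1 u = 0 := Finset.sum_eq_zero fun i _ => by rw [h i, mul_zero]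
    omega
  have hy : ∀ i, nc (cv K) C ξ I i ≠ 0 := nc_ne C hC ξ hξ I
  let c : Fin n → K := fun j => ch (nc (cv K) C ξ I) (-m1) * (u j : K)
  let P : Matrix (Fin n) (Fin n) K := (1 : Matrix (Fin n) (Fin n) K).updateRow i0 c
  have hui : (u i0 : K) ≠ 0 := by
    rw [← map_intCast (algebraMap ℂ K)]
    exact cst_ne (by exact_mod_cast hi0)
  have hdetP : P.det = c i0 := by
    have h1 := Matrix.det_updateRow_sum (1 : Matrix (Fin n) (Fin n) K) i0 c
    have h2 : (∑ k, c k • (1 : Matrix (Fin n) (Fin n) K) k) = c := by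
      funext j
      rw [Finset.sum_apply, Finset.sum_eq_single j]
      · simp
      · intro k _ hk
        simp [Matrix.one_apply_ne hk]
      · intro h; exact absurd (Finset.mem_univ _) h
    rw [h2, det_one, smul_eq_mul, mul_one] at h1
    exact h1
  have hcm : ch (nc (cv K) C ξ I) (-m1) ≠ 0 := Pool.Agent.Helper43K9.NH.ch_ne hy _
  have hci : c i0 ≠ 0 := mul_ne_zero hcm hui
  have hP0 : ∀ j, P i0 j = c j := fun j => by simp [P]
  have hP1 : ∀ i j, i ≠ i0 → P i j = (1 : Matrix (Fin n) (Fin n) K) i j := fun i j h => by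
    simp [P, updateRow_ne h]
  obtain ⟨hB0, hB1⟩ := det_BB C hC ξ hξ I hI hw
  have hdet : (P * BB K C ξ I).det = c i0 * (BB K C ξ I).det := by rw [det_mul, hdetP]
  refine ⟨(P * BB K C ξ I).submatrix e e, ?_, fun i => ?_, ?_⟩
  · rw [det_submatrix_equiv_self, hdet]
    exact mul_ne_zero hci hB0
  · rw [Pool.Agent.TH165.ACC.sum_row e hT]
    change Preserves v (row ((P * BB K C ξ I) (e i)))
    rw [row_mul]
    by_cases h : e i = i0
    · refine preserves_of v hloc fun f hf => der_AA hloc.1 (fun m hm => ?_) hf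
      have h2 : (∑ k, P (e i) k • row (BB K C ξ I k)) (ch (nc (cv K) C ξ I) m) =
          (pr m u : K) * ch (nc (cv K) C ξ I) (m - m1) := by
        rw [der_sum_apply, sub_eq_add_neg, Pool.Agent.Helper43K9.NH.ch_add hy]
        have : ∀ k, P (e i) k * row (BB K C ξ I k) (ch (nc (cv K) C ξ I) m) =
            ((m k : K) * (u k : K)) *
              (ch (nc (cv K) C ξ I) m * ch (nc (cv K) C ξ I) (-m1)) := by
          intro k
          rw [row_chnc C hC ξ hξ I k m, h, hP0]
          simp only [c]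
          ring
        rw [Finset.sum_congr rfl fun k _ => this k, ← Finset.sum_mul]
        congr 1
        rw [pr]
        push_cast
        rfl
      rw [h2]
      by_cases h3 : pr m u = 0
      · rw [h3, Int.cast_zero, zero_mul]
        exact v.reg_zero
      · refine v.reg_mul (v.reg_intCast _) (Or.inr ?_)
        rw [Pool.Agent.Helper43K9.NH.ord_ch hy, Pool.Agent.TH165.ACC.pr_sub, hw, hm1]
        have : 0 ≤ pr m u := hm
        omega
    · have h1 : (∑ k, P (e i) k • row (BB K C ξ I k)) = row (BB K C ξ I (e i)) := by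
        rw [Finset.sum_eq_single (e i)]
        · rw [hP1 _ _ h, Matrix.one_apply_eq, one_smul]
        · intro j _ hj
          rw [hP1 _ _ h, Matrix.one_apply_ne hj.symm, zero_smul]
        · intro h
          exact absurd (Finset.mem_univ _) h
      rw [h1]
      refine preserves_of v hloc fun f hf => der_AA hloc.1 (fun m hm => ?_) hf
      rw [row_chnc C hC ξ hξ I (e i) m]
      exact v.reg_mul (v.reg_intCast _) (hloc.1 _ (Pool.Agent.Helper43K9.NH.ch_mem_AA hm))
  · rw [det_submatrix_equiv_self, hdet, v.map_mul _ _ hci hB0, hB1,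
      v.map_mul _ _ hcm hui, Pool.Agent.Helper43K9.NH.ord_ch hy, Pool.Agent.TH165.ACC.pr_neg, hw,
      hm1]
    have h4 : v.ord (u i0 : K) = 0 := by
      rw [← map_intCast (algebraMap ℂ K)]
      exact v.const _ (by exact_mod_cast hi0)
    rw [h4]
    ring

end Pool.Agent.Helper43K9.LN
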