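import Pool.Agent.Helper43K9.LN.Stm2

set_option autoImplicit false
set_option linter.unusedSectionVars false
set_option linter.unusedVariables false

namespace Pool.Agent.Helper43K9.LN

open Pool.Agent.H436R3.Fol Pool.Agent.H436R3.KT Pool.Agent.W497.Mld MvPolynomial
open Pool.Agent.TH165.ACC (pr ex Prim Cn Hs ToricGerm tv tor ym ex_add ex_inj exists_nat_ex)
open Pool.Agent.Helper43K9.NH (ch AA wt ch_ne ch_add ch_zero ch_smul ch_ex aeval_mon aeval_eq_sum)

namespace CrdL

variable {n : ℕ} {L : Type} [Field L] [Algebra ℂ L] {y : Fin n → L}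

theorem ch_sum (hy : ∀ i, y i ≠ 0) {ι : Type} (S : Finset ι) (m : ι → Fin n → ℤ) :
    ch y (∑ i ∈ S, m i) = ∏ i ∈ S, ch y (m i) := by
  classical
  induction S using Finset.induction_on with
  | empty => rw [Finset.sum_empty, Finset.prod_empty, ch_zero]
  | insert a S ha ih => rw [Finset.sum_insert ha, Finset.prod_insert ha, ch_add hy, ih]

theorem ch_ch (hy : ∀ i, y i ≠ 0) (C : Matrix (Fin n) (Fin n) ℤ) (s : Fin n → ℤ) :
    ch (fun i => ch y (C i)) s = ch y (Matrix.vecMul s C) := by
  rw [Matrix.vecMul_eq_sum, ch_sum hy]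
  simp only [ch_smul hy]
  rfl

theorem ch_single (j : Fin n) : ch y (Pi.single j 1) = y j := by
  classical
  unfold ch
  rw [Finset.prod_eq_single j]
  · rw [Pi.single_eq_same, zpow_one]
  · intro b _ hb
    rw [Pi.single_eq_of_ne hb, zpow_zero]
  · intro h
    exact absurd (Finset.mem_univ _) h

theorem ex_sum {ι : Type} (S : Finset ι) (m : ι → Fin n →₀ ℕ) :
    ex (∑ i ∈ S, m i) = ∑ i ∈ S, ex (m i) := by
  classical
  induction S using Finset.induction_on with
  | empty => funext i; simp [Pool.Agent.TH165.ACC.ex]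
  | insert a S ha ih => rw [Finset.sum_insert ha, Finset.sum_insert ha, ex_add, ih]

end CrdL

open CrdL

theorem crd : S_CRD := by
  intro n K _ _ _ _ _ C ξ I hC hξ
  classical
  have hy : ∀ i : Fin n, cv K i ≠ 0 := fun i => cv_ne i
  set y : Fin n → K := cv K with hydef
  set z : Fin n → K := fun i => ch y (C i) with hz
  have hCD : C * C⁻¹ = 1 := Matrix.mul_nonsing_inv C hC
  have hDC : C⁻¹ * C = 1 := Matrix.nonsing_inv_mul C hC
  -- independence of the monomials `z`
  have hind : ∀ p : MvPolynomial (Fin n) ℂ, aeval z p = 0 → p = 0 := by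
    intro p hp
    choose a b hab using fun s : Fin n →₀ ℕ => exists_nat_ex (Matrix.vecMul (ex s) C)
    set M : Fin n →₀ ℕ := ∑ t ∈ p.support, b t with hM
    set e : (Fin n →₀ ℕ) → (Fin n →₀ ℕ) := fun s => a s + ∑ t ∈ p.support.erase s, b t with he
    have hexe : ∀ s ∈ p.support, ex (e s) = ex M + Matrix.vecMul (ex s) C := by
      intro s hs
      have h1 : M = b s + ∑ t ∈ p.support.erase s, b t := by
        rw [hM, Finset.add_sum_erase _ _ hs]
      rw [he, hab s, h1]
      simp only [ex_add]
      abel
    have hsum : aeval y (∑ s ∈ p.support, monomial (e s) (p.coeff s)) =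
        ch y (ex M) * aeval z p := by
      rw [map_sum, aeval_eq_sum, Finset.mul_sum]
      refine Finset.sum_congr rfl fun s hs => ?_
      rw [aeval_mon, hexe s hs, ch_add hy, hz, ch_ch hy]
      ring
    rw [hp, mul_zero, hydef, aeval_cv] at hsum
    have h0 : (∑ s ∈ p.support, monomial (e s) (p.coeff s)) = 0 :=
      jo_inj (K := K) (by rw [hsum, map_zero])
    have hinj : ∀ s ∈ p.support, ∀ t ∈ p.support, e s = e t → s = t := by
      intro s hs t ht hst
      have h1 := hexe s hs
      rw [hst, hexe t ht] at h1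
      have h2 : Matrix.vecMul (ex t) C = Matrix.vecMul (ex s) C := add_left_cancel h1
      have h3 := congrArg (fun w => Matrix.vecMul w C⁻¹) h2
      simp only [Matrix.vecMul_vecMul, hCD, Matrix.vecMul_one] at h3
      exact (ex_inj h3).symm
    by_contra hne
    obtain ⟨s, hs⟩ := Finset.nonempty_iff_ne_empty.2 (fun h => hne (MvPolynomial.support_eq_empty.1 h))
    have h1 := congrArg (MvPolynomial.coeff (e s)) h0
    rw [MvPolynomial.coeff_sum, Finset.sum_eq_single s] at h1
    · rw [MvPolynomial.coeff_monomial, if_pos rfl, MvPolynomial.coeff_zero] at h1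
      exact (MvPolynomial.mem_support_iff.1 hs) h1
    · intro t ht hts
      rw [MvPolynomial.coeff_monomial, if_neg]
      intro h
      exact hts (hinj t ht s hs h)
    · intro h
      exact absurd hs h
  constructor
  · intro p hp
    set σ : Fin n → MvPolynomial (Fin n) ℂ := fun i =>
      if i ∈ I then X i * MvPolynomial.C (ξ i)⁻¹ - 1 else X i with hσ
    set τ : Fin n → MvPolynomial (Fin n) ℂ := fun i =>
      if i ∈ I then (X i + 1) * MvPolynomial.C (ξ i) else X i with hτ
    have h1 : aeval z (bind₁ σ p) = aeval (nc y C ξ I) p := by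
      rw [aeval_bind₁]
      congr 2
      funext i
      simp only [hσ, nc]
      by_cases hi : i ∈ I
      · rw [if_pos hi, if_pos hi, map_sub, map_mul, map_one, aeval_X, aeval_C]
      · rw [if_neg hi, if_neg hi, aeval_X]
    have h2 : bind₁ σ p = 0 := hind _ (by rw [h1, hp])
    have h3 : bind₁ τ (bind₁ σ p) = p := by
      rw [bind₁_bind₁]
      have : (fun i => bind₁ τ (σ i)) = X := by
        funext i
        simp only [hσ, hτ]
        by_cases hi : i ∈ I
        · rw [if_pos hi, map_sub, map_mul, map_one, bind₁_X_right, bind₁_C_right, if_pos hi,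
            mul_assoc, ← MvPolynomial.C_mul, mul_inv_cancel₀ (hξ i), MvPolynomial.C_1]
          ring
        · rw [if_neg hi, bind₁_X_right, if_neg hi]
      rw [this, bind₁_X_left]
      rfl
    rw [← h3, h2, map_zero]
  · intro f
    set A : IntermediateField ℂ K := IntermediateField.adjoin ℂ (Set.range (nc y C ξ I)) with hA
    have hnc : ∀ i, nc y C ξ I i ∈ A := fun i =>
      IntermediateField.subset_adjoin _ _ ⟨i, rfl⟩
    have hzA : ∀ i, z i ∈ A := by
      intro i
      have h := hnc i
      unfold nc at h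
      by_cases hi : i ∈ I
      · rw [if_pos hi] at h
        have h1 : z i = (ch y (C i) * algebraMap ℂ K (ξ i)⁻¹ - 1 + 1) * algebraMap ℂ K (ξ i) := by
          rw [sub_add_cancel, mul_assoc, ← map_mul, inv_mul_cancel₀ (hξ i), map_one, mul_one]
        rw [h1]
        exact A.mul_mem (A.add_mem h A.one_mem) (A.algebraMap_mem _)
      · rw [if_neg hi] at h
        exact h
    have hchA : ∀ s : Fin n → ℤ, ch z s ∈ A := by
      intro s
      unfold ch
      exact A.prod_mem fun i _ => zpow_mem (hzA i) _
    have hyA : ∀ j, y j ∈ A := by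
      intro j
      have h1 := hchA (C⁻¹ j)
      rw [hz, ch_ch hy] at h1
      have h2 : Matrix.vecMul (C⁻¹ j) C = Pi.single j 1 := by
        have : Matrix.vecMul (C⁻¹ j) C = (C⁻¹ * C) j := by
          funext k
          rfl
        rw [this, hDC]
        funext k
        rw [Matrix.one_apply, Pi.single_apply]
        by_cases h : j = k
        · rw [if_pos h, if_pos h.symm]
        · rw [if_neg h, if_neg (fun h' => h h'.symm)]
      rw [h2, ch_single] at h1
      exact h1
    have haA : ∀ P : MvPolynomial (Fin n) ℂ, aeval y P ∈ A := by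
      intro P
      induction P using MvPolynomial.induction_on with
      | C a => rw [aeval_C]; exact A.algebraMap_mem _
      | add p q hp hq => rw [map_add]; exact A.add_mem hp hq
      | mul_X p j hp => rw [map_mul, aeval_X]; exact A.mul_mem hp (hyA j)
    have hfA : f ∈ A := by
      obtain ⟨P, Q, hQ, rfl⟩ := IsFractionRing.div_surjective (A := MvPolynomial (Fin n) ℂ) f
      have e1 : ∀ P : MvPolynomial (Fin n) ℂ, algebraMap (MvPolynomial (Fin n) ℂ) K P =
          aeval y P := by
        intro P
        rw [hydef, aeval_cv]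
        rfl
      rw [e1, e1]
      exact A.div_mem (haA P) (haA Q)
    rw [hA, IntermediateField.mem_adjoin_range_iff] at hfA
    obtain ⟨r, s, hrs⟩ := hfA
    by_cases hs : aeval (nc y C ξ I) s = 0
    · refine ⟨0, 1, ?_, ?_⟩
      · rw [map_one]; exact one_ne_zero
      · rw [hrs, hs, div_zero, zero_mul, map_zero]
    · exact ⟨r, s, hs, by rw [hrs, div_mul_cancel₀ _ hs]⟩

end Pool.Agent.Helper43K9.LN
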