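import Pool.Agent.Helper43K9.LN.Stm2
import Pool.Agent.TH165.ACC.Exis

/-!
# Monomial valuations in any coordinates
-/

set_option autoImplicit false

namespace Pool.Agent.Helper43K9.LN

open Pool.Agent.H436R3.Fol Pool.Agent.H436R3.KT Pool.Agent.W497.Mld MvPolynomial
open Pool.Agent.TH165.ACC
open Pool.Agent.Helper43K9.NH (ch AA wt)

theorem mony : S_MONY := by
  intro n K _ _ y hy hf u hu
  letI A : Algebra (MvPolynomial (Fin n) ℂ) K :=
    ((aeval y : MvPolynomial (Fin n) ℂ →ₐ[ℂ] K) : MvPolynomial (Fin n) ℂ →+* K).toAlgebra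
  have hal : ∀ p, algebraMap (MvPolynomial (Fin n) ℂ) K p = aeval y p := fun p => rfl
  haveI : IsScalarTower ℂ (MvPolynomial (Fin n) ℂ) K := IsScalarTower.of_algebraMap_eq fun c => by
    rw [hal, MvPolynomial.algebraMap_eq, aeval_C]
  haveI : IsFractionRing (MvPolynomial (Fin n) ℂ) K := by
    refine (isLocalization_iff _ _).2 ⟨?_, ?_, ?_⟩
    · rintro ⟨q, hq⟩
      refine isUnit_iff_ne_zero.2 fun h => nonZeroDivisors.ne_zero hq (hy q ?_)
      rw [← hal]
      exact h
    · intro f
      obtain ⟨p, q, hq, hpq⟩ := hf f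
      have hq0 : q ≠ 0 := by
        rintro rfl
        exact hq (map_zero _)
      refine ⟨(p, ⟨q, mem_nonZeroDivisors_of_ne_zero hq0⟩), ?_⟩
      rw [hal, hal]
      exact hpq
    · intro a b hab
      refine ⟨1, ?_⟩
      have h1 : a - b = 0 := hy _ (by
        rw [map_sub, ← hal, ← hal, hab, sub_self])
      rw [sub_eq_zero.1 h1]
  have hcv : ∀ i, (cv K i : K) = y i := fun i => by
    rw [cv, jo_apply, hal, aeval_X]
  obtain ⟨v, hv, htv⟩ := exists_mon (K := K) hu
  refine ⟨v, ?_, ?_⟩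
  · rw [← htv]
    funext i
    rw [wt, tv, hcv]
  · have h1 := local_Hs hv
    rw [htv] at h1
    have h2 : LA K (Hs u) = AA y (Hs u) := by
      have h3 : (ym K : (Fin n → ℤ) → K) = ch y := by
        funext m
        rw [ym, ch]
        exact Finset.prod_congr rfl fun i _ => by rw [hcv]
      rw [LA, AA, h3]
    rw [← h2]
    exact h1

end Pool.Agent.Helper43K9.LN
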