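import Pool.Agent.Helper43K9.LN.Stm2

set_option autoImplicit false
set_option linter.unusedSectionVars false

/-!
Leaf [OVR] of `Pool.Agent.Helper43K9.LN.Stm2` (helper42).
-/

namespace Pool.Agent.Helper43K9.LN

open Pool.Agent.H436R3.Fol Pool.Agent.H436R3.KT Pool.Agent.W497.Mld MvPolynomial
open Pool.Agent.TH165.ACC (pr ex Prim Cn Hs ToricGerm tv tor ym)
open Pool.Agent.Helper43K9.NH (ch AA wt ch_ne ch_add ch_zero ch_neg ch_smul ord_ch ch_mem_AA fg_Hs')

namespace OvrL

variable {n : ℕ} {K : Type} [Field K] [Algebra ℂ K]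

/-- the regular elements -/
def RO (v : DVal K) : Subalgebra ℂ K where
  carrier := {f | v.Reg f}
  mul_mem' := v.reg_mul
  add_mem' := v.reg_add
  algebraMap_mem' := v.reg_const

theorem ord_one_add {v : DVal K} {x : K} (hx : x ≠ 0) (h1 : v.ord x = 1) (h : 1 + x ≠ 0) :
    v.ord (1 + x) = 0 := by
  have a1 := v.map_add 1 x one_ne_zero hx h
  rw [v.ord_one, h1] at a1
  have a3 : 1 + x + -x = 1 := by ring
  have a2 := v.map_add (1 + x) (-x) h (neg_ne_zero.2 hx) (by rw [a3]; exact one_ne_zero)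
  rw [v.ord_neg hx, h1, a3, v.ord_one] at a2
  omega

theorem row_ne {C : Matrix (Fin n) (Fin n) ℤ} (hC : IsUnit C.det) (i : Fin n) : C i ≠ 0 := by
  intro h
  have h1 : C.det = 0 := Matrix.det_eq_zero_of_row_eq_zero i (fun j => congrFun h j)
  rw [h1] at hC
  exact not_isUnit_zero hC

theorem ch_sum {y : Fin n → K} (hy : ∀ i, y i ≠ 0) (s : Finset (Fin n)) (a : Fin n → ℤ)
    (c : Fin n → Fin n → ℤ) : ch y (∑ i ∈ s, a i • c i) = ∏ i ∈ s, ch y (c i) ^ a i := by
  classical
  induction s using Finset.induction_on with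
  | empty => rw [Finset.sum_empty, Finset.prod_empty, ch_zero]
  | insert i s hi ih =>
    rw [Finset.sum_insert hi, Finset.prod_insert hi, ch_add hy, ch_smul hy, ih]

theorem ch_single {y : Fin n → K} (i : Fin n) : ch y (Pi.single i (1 : ℤ)) = y i := by
  unfold ch
  rw [Finset.prod_eq_single i]
  · rw [Pi.single_eq_same, zpow_one]
  · intro j _ hj
    rw [Pi.single_eq_of_ne hj, zpow_zero]
  · intro h
    exact absurd (Finset.mem_univ i) h

theorem pr_single (u : Fin n → ℤ) (i : Fin n) : pr (Pi.single i (1 : ℤ)) u = u i := by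
  unfold Pool.Agent.TH165.ACC.pr
  rw [Finset.sum_eq_single i]
  · rw [Pi.single_eq_same, one_mul]
  · intro j _ hj
    rw [Pi.single_eq_of_ne hj, zero_mul]
  · intro h
    exact absurd (Finset.mem_univ i) h

theorem zpow_mem' {S : Subalgebra ℂ K} {z : K} (h1 : z ∈ S) (h2 : z⁻¹ ∈ S) (k : ℤ) :
    z ^ k ∈ S := by
  obtain ⟨N, rfl | rfl⟩ := k.eq_nat_or_neg
  · rw [zpow_natCast]
    exact pow_mem h1 _
  · rw [zpow_neg, zpow_natCast, ← inv_pow]
    exact pow_mem h2 _

variable [Algebra (MvPolynomial (Fin n) ℂ) K] [IsFractionRing (MvPolynomial (Fin n) ℂ) K]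
  [IsScalarTower ℂ (MvPolynomial (Fin n) ℂ) K]

/-- a monomial is not constant -/
theorem ch_ne_const {m : Fin n → ℤ} (hm : m ≠ 0) (c : ℂ) :
    ch (cv K) m ≠ algebraMap ℂ K c := by
  intro h
  apply hm
  funext j
  have h1 : tor K j (ym K m) = (m j : K) * ym K m := Pool.Agent.TH165.ACC.tor_ym j m
  have h2 : ym K m = algebraMap ℂ K c := h
  have h3 : (algebraMap ℂ K c) ≠ 0 := by rw [← h2]; exact Pool.Agent.TH165.ACC.ym_ne m
  rw [h2, Derivation.map_algebraMap] at h1
  have h4 : (m j : K) = 0 := (mul_eq_zero.1 h1.symm).resolve_right h3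
  have : CharZero K := charZero_of_injective_algebraMap (algebraMap ℂ K).injective
  exact_mod_cast h4

theorem nc_ne {C : Matrix (Fin n) (Fin n) ℤ} {ξ : Fin n → ℂ} (I : Finset (Fin n))
    (hC : IsUnit C.det) (hξ : ∀ i, ξ i ≠ 0) (i : Fin n) : nc (cv K) C ξ I i ≠ 0 := by
  unfold nc
  split_ifs with hi
  · rw [sub_ne_zero]
    intro h
    apply ch_ne_const (K := K) (row_ne hC i) (ξ i)
    have h3 : algebraMap ℂ K (ξ i)⁻¹ * algebraMap ℂ K (ξ i) = 1 := by
      rw [← map_mul, inv_mul_cancel₀ (hξ i), map_one]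
    calc ch (cv K) (C i)
        = ch (cv K) (C i) * (algebraMap ℂ K (ξ i)⁻¹ * algebraMap ℂ K (ξ i)) := by
          rw [h3, mul_one]
      _ = algebraMap ℂ K (ξ i) := by rw [← mul_assoc, h, one_mul]
  · exact ch_ne (fun i => cv_ne i) _

end OvrL

open OvrL

theorem ovr : S_OVR := by
  classical
  intro n K _ _ _ _ _ C ξ I hC hξ v u w hu huI hoff hon hwt hloc
  have hcv : ∀ i : Fin n, cv K i ≠ 0 := fun i => cv_ne i
  have hx : ∀ i, nc (cv K) C ξ I i ≠ 0 := nc_ne I hC hξ
  have hxoff : ∀ i, i ∉ I → nc (cv K) C ξ I i = ch (cv K) (C i) := by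
    intro i hi
    simp only [nc, if_neg hi]
  have hxon : ∀ i, i ∈ I →
      ch (cv K) (C i) = algebraMap ℂ K (ξ i) * (1 + nc (cv K) C ξ I i) := by
    intro i hi
    simp only [nc, if_pos hi]
    have h3 : algebraMap ℂ K (ξ i) * algebraMap ℂ K (ξ i)⁻¹ = 1 := by
      rw [← map_mul, mul_inv_cancel₀ (hξ i), map_one]
    linear_combination (-(ch (cv K) (C i))) * h3
  generalize nc (cv K) C ξ I = x at hwt hloc hx hxoff hxon
  have h1ne : ∀ i, i ∈ I → 1 + x i ≠ 0 := by
    intro i hi h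
    have h2 := hxon i hi
    rw [h, mul_zero] at h2
    exact ch_ne hcv _ h2
  have hordx : ∀ i, v.ord (x i) = u i := fun i => congrFun hwt i
  have h1ord : ∀ i, i ∈ I → v.ord (1 + x i) = 0 := fun i hi =>
    ord_one_add (hx i) (by rw [hordx, huI i hi]) (h1ne i hi)
  have hξK : ∀ i, algebraMap ℂ K (ξ i) ≠ 0 := fun i => (map_ne_zero _).2 (hξ i)
  have hordC : ∀ i, v.ord (ch (cv K) (C i)) = pr (C i) w := by
    intro i
    by_cases hi : i ∈ I
    · rw [hxon i hi, v.map_mul _ _ (hξK i) (h1ne i hi), v.const _ (hξ i), h1ord i hi, hon i hi,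
        add_zero]
    · rw [← hxoff i hi, hordx, hoff i hi]
  have htv : (tv v : Fin n → ℤ) = w := by
    have h1 : C.mulVec (wt (cv K) v) = C.mulVec w := by
      funext i
      have h2 := hordC i
      rw [ord_ch hcv] at h2
      exact h2
    have h2 : wt (cv K) v = w := by
      have h3 := congrArg (C⁻¹.mulVec) h1
      rwa [Matrix.mulVec_mulVec, Matrix.mulVec_mulVec, Matrix.nonsing_inv_mul C hC,
        Matrix.one_mulVec, Matrix.one_mulVec] at h3
    exact h2
  refine ⟨htv, fun M hM => ?_⟩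
  refine ⟨AA x (Hs u) ⊔ Algebra.adjoin ℂ ((I.image fun i => (1 + x i)⁻¹ : Finset K) : Set K),
    (fg_Hs' hx hu).sup (Subalgebra.fg_adjoin_finset _), ?_, ?_, ?_⟩
  · apply Algebra.adjoin_le
    rintro _ ⟨m, hm, rfl⟩
    have hleft : ∀ z ∈ AA x (Hs u), z ∈ AA x (Hs u) ⊔
        Algebra.adjoin ℂ ((I.image fun i => (1 + x i)⁻¹ : Finset K) : Set K) :=
      fun z hz => (le_sup_left : AA x (Hs u) ≤ _) hz
    have hinv : ∀ i ∈ I, (1 + x i)⁻¹ ∈ AA x (Hs u) ⊔
        Algebra.adjoin ℂ ((I.image fun i => (1 + x i)⁻¹ : Finset K) : Set K) := by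
      intro i hi
      apply (le_sup_right : Algebra.adjoin ℂ _ ≤ _)
      apply Algebra.subset_adjoin
      rw [Finset.mem_coe, Finset.mem_image]
      exact ⟨i, hi, rfl⟩
    have hxi : ∀ i ∈ I, x i ∈ AA x (Hs u) := by
      intro i hi
      have h2 : ch x (Pi.single i (1 : ℤ)) ∈ AA x (Hs u) := by
        apply ch_mem_AA
        change 0 ≤ pr _ _
        rw [pr_single, huI i hi]
        exact zero_le_one
      rwa [ch_single] at h2
    generalize AA x (Hs u) ⊔
        Algebra.adjoin ℂ ((I.image fun i => (1 + x i)⁻¹ : Finset K) : Set K) = S at hleft hinv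
    have hm1 : m = ∑ i, (Matrix.vecMul m C⁻¹) i • C i := by
      rw [← Matrix.vecMul_eq_sum, Matrix.vecMul_vecMul, Matrix.nonsing_inv_mul C hC,
        Matrix.vecMul_one]
    generalize Matrix.vecMul m C⁻¹ = a at hm1
    have hpr : pr m w = ∑ i, a i * pr (C i) w := by
      rw [hm1]
      simp only [Pool.Agent.TH165.ACC.pr, Finset.sum_apply, Pi.smul_apply, smul_eq_mul,
        Finset.sum_mul, Finset.mul_sum]
      rw [Finset.sum_comm]
      exact Finset.sum_congr rfl fun i _ => Finset.sum_congr rfl fun j _ => by ring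
    have hch : ch (cv K) m = ch x (fun i => if i ∈ I then 0 else a i) *
        ∏ i, (if i ∈ I then (algebraMap ℂ K (ξ i) * (1 + x i)) ^ a i else 1) := by
      have e0 : ch (cv K) (∑ i, a i • C i) = ∏ i, ch (cv K) (C i) ^ a i :=
        ch_sum hcv Finset.univ a fun i => C i
      rw [hm1, e0]
      have e1 : ch x (fun i => if i ∈ I then 0 else a i) =
        ∏ i, x i ^ (if i ∈ I then 0 else a i) := rfl
      rw [e1, ← Finset.prod_mul_distrib]
      refine Finset.prod_congr rfl fun i _ => ?_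
      by_cases hi : i ∈ I
      · rw [if_pos hi, if_pos hi, zpow_zero, one_mul, hxon i hi]
      · rw [if_neg hi, if_neg hi, mul_one, hxoff i hi]
    rw [hch]
    refine mul_mem (hleft _ (ch_mem_AA ?_)) (prod_mem fun i _ => ?_)
    · change 0 ≤ pr _ _
      have e2 : pr (fun i => if i ∈ I then 0 else a i) u = pr m w := by
        rw [hpr]
        refine Finset.sum_congr rfl fun i _ => ?_
        change (if i ∈ I then 0 else a i) * u i = a i * pr (C i) w
        by_cases hi : i ∈ I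
        · rw [if_pos hi, hon i hi, zero_mul, mul_zero]
        · rw [if_neg hi, hoff i hi]
      rw [e2]
      exact hM m hm
    · by_cases hi : i ∈ I
      · rw [if_pos hi]
        apply zpow_mem'
        · exact mul_mem (Subalgebra.algebraMap_mem _ _)
            (add_mem (one_mem _) (hleft _ (hxi i hi)))
        · rw [mul_inv, ← map_inv₀]
          exact mul_mem (Subalgebra.algebraMap_mem _ _) (hinv i hi)
      · rw [if_neg hi]
        exact one_mem _
  · have h1 : AA x (Hs u) ≤ RO v := fun f hf => hloc.1 f hf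
    have h2 : Algebra.adjoin ℂ ((I.image fun i => (1 + x i)⁻¹ : Finset K) : Set K) ≤ RO v := by
      apply Algebra.adjoin_le
      intro z hz
      rw [Finset.mem_coe, Finset.mem_image] at hz
      obtain ⟨i, hi, rfl⟩ := hz
      exact Or.inr (by rw [v.ord_inv (h1ne i hi), h1ord i hi, neg_zero])
    intro f hf
    exact (sup_le h1 h2) hf
  · intro f hf
    obtain ⟨a, b, ha, hb, h1, h2, h3⟩ := hloc.2 f hf
    exact ⟨a, b, (le_sup_left : AA x (Hs u) ≤ _) ha, (le_sup_left : AA x (Hs u) ≤ _) hb, h1, h2,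
      h3⟩

end Pool.Agent.Helper43K9.LN
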