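import Pool.Agent.Helper43K9.LN.Semi

/-!
# Divisors over arbitrary closed points of a toric variety: statements of the leaves

Deliver leaf [NAME] in its own file `Pool/Agent/Helper43K9/LN/<Name>.lean`, namespace
`Pool.Agent.Helper43K9.LN`, as `theorem <name> : S_NAME` (lower case), importing this file.
Notation: `cv K i` coordinates, `ch y m = ∏ y_i^(m_i)`, `pr m w` the pairing, `wt y v` the weights
`v.ord (y i)`, `tv v = wt (cv K) v`, `AA y C` the algebra generated by `ch y m`, `m ∈ C`,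
`Hs u = {m | 0 ≤ pr m u}`, `tor K i` the derivation `y_i ∂/∂y_i`.
-/

set_option autoImplicit false
set_option linter.unusedSectionVars false

namespace Pool.Agent.Helper43K9.LN

open Pool.Agent.H436R3.Fol Pool.Agent.H436R3.KT Pool.Agent.W497.Mld MvPolynomial
open Pool.Agent.TH165.ACC (pr ex Prim Cn Hs ToricGerm tv tor ym)
open Pool.Agent.Helper43K9.NH (ch AA wt)

/-- the new coordinates: the monomials `y^(C i)`, and `y^(C i) / ξ i - 1` for `i ∈ I` -/
noncomputable def nc {n : ℕ} {K : Type} [Field K] [Algebra ℂ K] (y : Fin n → K)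
    (C : Matrix (Fin n) (Fin n) ℤ) (ξ : Fin n → ℂ) (I : Finset (Fin n)) (i : Fin n) : K :=
  if i ∈ I then ch y (C i) * algebraMap ℂ K (ξ i)⁻¹ - 1 else ch y (C i)

/-- [BAS] A basis of `ℤ^n` adapted to a saturated subgroup. (The quotient is torsion free, hence free;
the sequence splits; join the bases and reindex.) -/
def S_BAS : Prop := ∀ (n : ℕ) (Λ : Submodule ℤ (Fin n → ℤ)),
    (∀ (k : ℤ) (m : Fin n → ℤ), k ≠ 0 → k • m ∈ Λ → m ∈ Λ) →
    ∃ (C : Matrix (Fin n) (Fin n) ℤ) (I : Finset (Fin n)), IsUnit C.det ∧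
      I.card = Module.finrank ℤ Λ ∧ (∀ i ∈ I, C i ∈ Λ) ∧
      ∀ m ∈ Λ, ∃ a : Fin n → ℤ, (∀ i, i ∉ I → a i = 0) ∧ m = ∑ i, a i • C i

/-- [CRD] The new coordinates are algebraically independent and generate the field. (Second part: the
field generated contains all `ch y (C i)`, so, as `C` is unimodular, all `cv K i`. First part: e.g. by
the transcendence degree, or the substitution `X_i ↦ ξ_i (1 + X_i)`, `i ∈ I`, is an automorphism of the
polynomial ring and the monomials `ch y m` are linearly independent, `C` being unimodular.) -/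
def S_CRD : Prop := ∀ (n : ℕ) (K : Type) [Field K] [Algebra ℂ K]
    [Algebra (MvPolynomial (Fin n) ℂ) K] [IsFractionRing (MvPolynomial (Fin n) ℂ) K]
    [IsScalarTower ℂ (MvPolynomial (Fin n) ℂ) K]
    (C : Matrix (Fin n) (Fin n) ℤ) (ξ : Fin n → ℂ) (I : Finset (Fin n)), IsUnit C.det →
    (∀ i, ξ i ≠ 0) →
    (∀ p : MvPolynomial (Fin n) ℂ, aeval (nc (cv K) C ξ I) p = 0 → p = 0) ∧
    ∀ f : K, ∃ p q : MvPolynomial (Fin n) ℂ, aeval (nc (cv K) C ξ I) q ≠ 0 ∧
      f * aeval (nc (cv K) C ξ I) q = aeval (nc (cv K) C ξ I) p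

/-- [MONY] Monomial valuations in any coordinates. (Make `K` an algebra over the polynomial ring with
`aeval y`; it is a fraction ring; apply `TH165.ACC.exists_mon`, `local_Hs`; then `cv K i = y i`.) -/
def S_MONY : Prop := ∀ (n : ℕ) (K : Type) [Field K] [Algebra ℂ K] (y : Fin n → K),
    (∀ p : MvPolynomial (Fin n) ℂ, aeval y p = 0 → p = 0) →
    (∀ f : K, ∃ p q : MvPolynomial (Fin n) ℂ, aeval y q ≠ 0 ∧ f * aeval y q = aeval y p) →
    ∀ u : Fin n → ℤ, Prim u → ∃ v : DVal K, wt y v = u ∧ IsLocalRing' (AA y (Hs u)) v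

/-- [CANY] The upper bound of the canonical order. (Let `D = C⁻¹` and `t_i = ∑_j D_ji tor_j`, so that
`t_i (ch y (C k)) = δ_ik ch y (C k)`; then `T_i = t_i` for `i ∉ I` and `T_i = (s_i / (1 + s_i)) t_i` for
`i ∈ I`, `s_i` the new coordinate, satisfy `T_i (x_k) = δ_ik x_k` for the new coordinates `x_k`. Take
`m1` with `pr m1 u = 1` and `i0` with `u i0 ≠ 0` and replace `T_(i0)` by
`x^(-m1) ∑_j u_j T_j`; all these derivations preserve `v` since `AA x (Hs u)` is the local ring, compare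
`TH165.ACC.can_mon` (file Cano.lean) and `preserves_of`. The determinant has the order
`-1 + ∑_(i ∈ I) u_i`.) -/
def S_CANY : Prop := ∀ (n : ℕ) (K : Type) [Field K] [Algebra ℂ K]
    [Algebra (MvPolynomial (Fin n) ℂ) K] [IsFractionRing (MvPolynomial (Fin n) ℂ) K]
    [IsScalarTower ℂ (MvPolynomial (Fin n) ℂ) K]
    (C : Matrix (Fin n) (Fin n) ℤ) (ξ : Fin n → ℂ) (I : Finset (Fin n)), IsUnit C.det →
    (∀ i, ξ i ≠ 0) → ∀ (v : DVal K) (u : Fin n → ℤ), Prim u → (∀ i ∈ I, u i = 1) →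
    wt (nc (cv K) C ξ I) v = u → IsLocalRing' (AA (nc (cv K) C ξ I) (Hs u)) v →
    ∀ (d : ℕ) (T : Foliation K d) (e : Fin d ≃ Fin n), (∀ i, T.D i = tor K (e i)) →
    ∃ A : Matrix (Fin d) (Fin d) K, A.det ≠ 0 ∧ (∀ i, Preserves v (∑ j, A i j • T.D j)) ∧
      v.ord A.det = (I.card : ℤ) - 1

/-- [OVR] The valuation is over the toric variety and has the weights `w`. (`S` = the algebra generated
by `AA x (Hs u)`, which is finitely generated (`NH.fg_Hs'`), and the inverses of the units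
`1 + x_i`, `i ∈ I`, `x` the new coordinates. First show that
`v.ord (ch (cv K) m) = pr m w`: true for `m = C i`, hence for all `m`.) -/
def S_OVR : Prop := ∀ (n : ℕ) (K : Type) [Field K] [Algebra ℂ K]
    [Algebra (MvPolynomial (Fin n) ℂ) K] [IsFractionRing (MvPolynomial (Fin n) ℂ) K]
    [IsScalarTower ℂ (MvPolynomial (Fin n) ℂ) K]
    (C : Matrix (Fin n) (Fin n) ℤ) (ξ : Fin n → ℂ) (I : Finset (Fin n)), IsUnit C.det →
    (∀ i, ξ i ≠ 0) → ∀ (v : DVal K) (u w : Fin n → ℤ), Prim u → (∀ i ∈ I, u i = 1) →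
    (∀ i, i ∉ I → u i = pr (C i) w) → (∀ i ∈ I, pr (C i) w = 0) →
    wt (nc (cv K) C ξ I) v = u → IsLocalRing' (AA (nc (cv K) C ξ I) (Hs u)) v →
    (tv v : Fin n → ℤ) = w ∧ ∀ M : Set (Fin n → ℤ), (∀ m ∈ M, 0 ≤ pr m w) →
      ∃ S : Subalgebra ℂ K, S.FG ∧ AA (cv K) M ≤ S ∧ IsLocalRing' S v

end Pool.Agent.Helper43K9.LN
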