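import Pool.Agent.Helper43K9.LN.Core3
import Pool.Agent.Helper43K9.LN.Stm2
import Pool.Agent.Helper58K9.LQ.Up2

/-!
# Upper bounds for the minimal log discrepancy at an arbitrary closed point
-/

set_option autoImplicit false
set_option linter.unusedSectionVars false
set_option linter.unusedVariables false

namespace Pool.Agent.Helper43K9.LN

open Pool.Agent.H436R3.Fol Pool.Agent.H436R3.KT Pool.Agent.W497.Mld
open MvPolynomial hiding X
open Pool.Agent.TH165.ACC (pr ex Prim Cn Hs lead part pr_add pr_zero pr_neg pr_sub pr_smul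
  pr_smul_right ex_add ex_inj mvI mem_mvI ToricGerm tv can_ge_neg ym)
open Pool.Agent.Helper43K9.NH
open Pool.Agent.Helper43K9.LS (Kp Red Good red cK pK pK_cK intCast_ne phi_sum red_eq_zero ge_add)
open Pool.Agent.Helper58K9.LQ (chi chi_eq chi_zero chi_add)

variable {n : ℕ} {K : Type} [Field K] [Algebra ℂ K]
  [Algebra (MvPolynomial (Fin n) ℂ) K] [IsFractionRing (MvPolynomial (Fin n) ℂ) K]
  [IsScalarTower ℂ (MvPolynomial (Fin n) ℂ) K]

/-- the order of an equation at a valuation over the closed point -/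
theorem ordF {g : ToricGerm n K} {x0 : Pt g.X} (D : FD g x0) {v : DVal K}
    (hv : IsOverGerm x0 v) {F : MvPolynomial (Fin n) ℂ} (Fne : F ≠ 0) :
    phi (expo F) (tv v) + exc D F (tv v) ≤ v.ord (jo (Fin n) K F) := by
  classical
  have yne : ∀ i, cv K i ≠ 0 := fun i => cv_ne (ι := Fin n) (K := K) i
  have hreg : ∀ f : g.X.R, v.Reg (f : K) := by
    obtain ⟨⟨S, -, h1, h2⟩, -⟩ := hv
    exact fun f => h2.1 _ (h1 f.2)
  have hjo : jo (Fin n) K F = aeval (cv K) F := by rw [aeval_cv]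
  have hFy : aeval (cv K) F ≠ 0 := by rw [← hjo]; exact jo_ne Fne
  have hwΛ : ∀ m' ∈ D.Λ, pr m' (wt (cv K) v) = 0 := fun m' hm' =>
    pr_lam D (chi_x0_a D) hv hm'
  have htv : (tv v : Fin n → ℤ) = wt (cv K) v := rfl
  rw [htv]
  set w : Fin n → ℤ := wt (n := n) (cv K) v with hwd
  have hge : phi (expo F) w ≤ v.ord (aeval (cv K) F) :=
    (ge_of_weights yne fun t ht => (phi_expo Fne w).2 t ht).resolve_left hFy
  rw [hjo]
  by_cases hcl : IsCl D F w
  swap
  · rw [exc, if_neg hcl, add_zero]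
    exact hge
  rw [exc, if_pos hcl]
  set φ := phi (expo F) w with hφ
  have hmin := (phi_expo Fne w).2
  -- the classes
  let R : Setoid (Fin n →₀ ℕ) :=
    { r := fun s t => ex s - ex t ∈ D.Λ
      iseqv := ⟨fun s => by rw [sub_self]; exact D.Λ.zero_mem,
        fun {s t} h => by rw [← neg_sub]; exact D.Λ.neg_mem h,
        fun {s t r} h h' => by
          have := D.Λ.add_mem h h'
          rwa [sub_add_sub_cancel] at this⟩ }
  have hsum : aeval (cv K) F = ∑ s ∈ F.support, aeval (cv K) (monomial s (F.coeff s)) := by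
    conv_lhs => rw [← F.support_sum_monomial_coeff]
    rw [map_sum]
  have hcase : ∀ s0 ∈ F.support,
      (∑ s ∈ F.support with R s s0, aeval (cv K) (monomial s (F.coeff s))) = 0 ∨
      φ + 1 ≤ v.ord (∑ s ∈ F.support with R s s0, aeval (cv K) (monomial s (F.coeff s))) := by
    intro s0 hs0
    rw [← map_sum]
    have hR : ∀ s, R s s0 ↔ ex s - ex s0 ∈ D.Λ := fun s => Iff.rfl
    set S := F.support.filter fun s => R s s0 with hS
    have hSm : ∀ s ∈ S, ex s - ex s0 ∈ D.Λ := fun s hs => (Finset.mem_filter.1 hs).2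
    have hs0S : s0 ∈ S := Finset.mem_filter.2 ⟨hs0, R.refl s0⟩
    obtain ⟨h, q, hq, hh, hx0⟩ := exists_h2 D F S s0 fun s hs i hi => by
      rw [(D.hΛ _).1 (hSm s hs) i hi]
    by_cases hz : aeval (cv K) (∑ s ∈ S, monomial s (F.coeff s)) = 0
    · exact Or.inl hz
    right
    have hh0 : (h : K) ≠ 0 := by
      intro h1
      rw [h1, zero_mul] at hh
      exact mul_ne_zero (ch_ne yne _) hz hh.symm
    have h5 := congrArg v.ord hh
    rw [v.map_mul _ _ hh0 (ch_ne yne _), v.map_mul _ _ (ch_ne yne _) hz, ord_ch yne,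
      ord_ch yne, ← hwd, hwΛ q hq, zero_add] at h5
    have h6 := v.ord_nonneg hh0 (hreg h)
    have h7 := hmin s0 hs0
    by_cases h8 : pr (ex s0) w = φ
    · have h9 : cls D F S s0 = 0 := by
        rw [← hcl s0 hs0 h8]
        unfold cls
        refine Finset.sum_subset (Finset.filter_subset _ _) fun s hs hsS => ?_
        rw [if_neg]
        intro h10
        exact hsS (Finset.mem_filter.2 ⟨hs, h10⟩)
      rw [h9, mul_zero] at hx0
      rcases (hv.2 h).2 hx0 with h10 | h10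
      · exact absurd h10 hh0
      · have h11 : (0 : ℤ) < v.ord (h : K) := h10
        omega
    · omega
  have hall : aeval (cv K) F = 0 ∨ φ + 1 ≤ v.ord (aeval (cv K) F) := by
    rw [hsum, Finset.sum_partition R]
    refine Finset.sum_induction _ (fun z => z = 0 ∨ φ + 1 ≤ v.ord z) (fun a b ha hb =>
      ge_add ha hb) (Or.inl rfl) fun q hq => ?_
    obtain ⟨s0, hs0, rfl⟩ := Finset.mem_image.1 hq
    have h1 := hcase s0 hs0
    have h2 : (F.support.filter fun s => R s s0) =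
        F.support.filter fun s => (Quotient.mk R s) = Quotient.mk R s0 := by
      refine Finset.filter_congr fun s _ => ?_
      rw [Quotient.eq]
    rw [h2] at h1
    exact h1
  exact hall.resolve_left hFy

/-- monomials and their values -/
theorem pos_mul' {v : DVal K} {f f' : K} {c c' : ℂ} (h : v.Pos (f - algebraMap ℂ K c))
    (h' : v.Pos (f' - algebraMap ℂ K c')) : v.Pos (f * f' - algebraMap ℂ K (c * c')) := by
  have hf : v.Reg f := by
    have h1 := v.reg_add (Pool.Agent.Helper58K9.QT.Low.pos_reg h) (v.reg_const c)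
    rwa [sub_add_cancel] at h1
  have h2 := v.pos_add (v.pos_mul_left hf h') (v.pos_mul_left (v.reg_const c') h)
  have h3 : f * (f' - algebraMap ℂ K c') + algebraMap ℂ K c' * (f - algebraMap ℂ K c) =
      f * f' - algebraMap ℂ K (c * c') := by
    rw [map_mul]; ring
  rwa [h3] at h2

theorem ord_of_pos' {v : DVal K} {f : K} (hf : f ≠ 0) {c : ℂ} (hc : c ≠ 0)
    (h : v.Pos (f - algebraMap ℂ K c)) : v.ord f = 0 := by
  have h1 : v.Reg f := by
    have h1 := v.reg_add (Pool.Agent.Helper58K9.QT.Low.pos_reg h) (v.reg_const c)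
    rwa [sub_add_cancel] at h1
  have h2 := v.ord_nonneg hf h1
  by_contra h3
  have h4 : v.Pos f := Or.inr (by omega)
  have h5 := v.pos_add h4 (Pool.Agent.Helper58K9.QT.Low.pos_neg h)
  have h6 : f + -(f - algebraMap ℂ K c) = algebraMap ℂ K c := by ring
  rw [h6] at h5
  exact hc (Pool.Agent.Helper58K9.QT.Low.pos_const h5)

theorem pos_inv' {v : DVal K} {f : K} (hf : f ≠ 0) {c : ℂ} (hc : c ≠ 0)
    (h : v.Pos (f - algebraMap ℂ K c)) : v.Pos (f⁻¹ - algebraMap ℂ K c⁻¹) := by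
  have h1 := ord_of_pos' hf hc h
  have hc' : algebraMap ℂ K c ≠ 0 := (map_ne_zero _).2 hc
  have h2 : v.Reg (f⁻¹ * algebraMap ℂ K (-c⁻¹)) := by
    right
    have hc2 : algebraMap ℂ K (-c⁻¹) ≠ 0 := (map_ne_zero _).2 (neg_ne_zero.2 (inv_ne_zero hc))
    rw [v.map_mul _ _ (inv_ne_zero hf) hc2, v.const _ (neg_ne_zero.2 (inv_ne_zero hc))]
    have h3 := v.ord_inv hf
    rw [h3, h1]
    norm_num
  have h3 := v.pos_mul_left h2 h
  have h4 : f⁻¹ * algebraMap ℂ K (-c⁻¹) * (f - algebraMap ℂ K c) =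
      f⁻¹ - algebraMap ℂ K c⁻¹ := by
    rw [map_neg, map_inv₀]
    field_simp
    ring
  rwa [h4] at h3

/-- [UPB] -/
theorem upb (hcrd : S_CRD) (hmony : S_MONY) (hcany : S_CANY) (hovr : S_OVR)
    {g : ToricGerm n K} {x0 : Pt g.X} (D : FD g x0)
    {C : Matrix (Fin n) (Fin n) ℤ} (hC : IsUnit C.det) {I : Finset (Fin n)}
    (hI : ∀ i ∈ I, C i ∈ D.Λ) (hI0 : 0 < I.card)
    (hIs : ∀ m ∈ D.Λ, ∃ a : Fin n → ℤ, (∀ i, i ∉ I → a i = 0) ∧ m = ∑ i, a i • C i)
    {s : ℕ} {F : Fin s → MvPolynomial (Fin n) ℂ}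
    (Fne : ∀ j, F j ≠ 0) (b : Bdry g F) {B : EffDiv g.X} {e : LocEq B x0}
    (hr : IsEqAt b e) {m : ℝ}
    (hm : ∀ v, IsOverGerm x0 v → ∀ a, IsLogDisc e v a → m ≤ a) (w : Fin n → ℤ)
    (hw : RInt D w) : m ≤ I.card + (lb b w - ∑ j, b.b j * (exc D (F j) w : ℝ)) := by
  classical
  have yne : ∀ i, cv K i ≠ 0 := fun i => cv_ne (ι := Fin n) (K := K) i
  let ξ : Fin n → ℂ := fun i => D.τ (C i)
  have hξ : ∀ i, ξ i ≠ 0 := fun i => D.τ0 _
  let u : Fin n → ℤ := fun i => if i ∈ I then 1 else pr (C i) w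
  have hu1 : ∀ i ∈ I, u i = 1 := fun i hi => if_pos hi
  have hu2 : ∀ i, i ∉ I → u i = pr (C i) w := fun i hi => if_neg hi
  obtain ⟨i0, hi0⟩ := Finset.card_pos.1 hI0
  have hprim : Prim u := ⟨Pi.single i0 1, by
    have h1 : pr (Pi.single i0 1) u = u i0 := by
      simp [pr, Pi.single_apply]
    rw [h1, hu1 i0 hi0]⟩
  obtain ⟨h1, h2⟩ := hcrd n K C ξ I hC hξ
  obtain ⟨v, hwt, hloc⟩ := hmony n K (nc (cv K) C ξ I) h1 h2 u hprim
  obtain ⟨htv, hS⟩ := hovr n K C ξ I hC hξ v u w hprim hu1 hu2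
    (fun i hi => hw.1 _ (hI i hi)) hwt hloc
  have hwC : ∀ m ∈ Cn g.E, 0 ≤ pr m w := fun m hm => by
    by_cases h3 : m ∈ D.Λ
    · rw [hw.1 m h3]
    · exact (hw.2 m hm h3).le
  obtain ⟨S, hSfg, hSle, hSloc⟩ := hS (Cn g.E) hwC
  have htv' : wt (n := n) (cv K) v = w := htv
  -- the values of the monomials
  have hone : ∀ i ∈ I, v.Pos (ch (cv K) (C i) - algebraMap ℂ K (D.τ (C i))) := by
    intro i hi
    have h3 : nc (cv K) C ξ I i = ch (cv K) (C i) * algebraMap ℂ K (ξ i)⁻¹ - 1 := if_pos hi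
    have h4 : v.ord (nc (cv K) C ξ I i) = 1 := by
      have := congrFun hwt i
      rw [hu1 i hi] at this
      exact this
    have h5 : v.Pos (nc (cv K) C ξ I i) := Or.inr (by rw [h4]; norm_num)
    have h6 := v.pos_mul_left (v.reg_const (ξ i)) h5
    have hc' : algebraMap ℂ K (ξ i) ≠ 0 := (map_ne_zero _).2 (hξ i)
    have h7 : algebraMap ℂ K (ξ i) * nc (cv K) C ξ I i =
        ch (cv K) (C i) - algebraMap ℂ K (D.τ (C i)) := by
      rw [h3, map_inv₀]
      change algebraMap ℂ K (ξ i) * _ = ch (cv K) (C i) - algebraMap ℂ K (ξ i)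
      field_simp
    rwa [h7] at h6
  have hτ0 : D.τ 0 = 1 := by
    have h3 := D.τa 0 0
    rw [add_zero] at h3
    exact (mul_right_cancel₀ (D.τ0 0) (by rw [one_mul]; exact h3.symm : D.τ 0 * D.τ 0 = 1 * D.τ 0))
  let H : AddSubgroup (Fin n → ℤ) :=
    { carrier := {m | v.Pos (ch (cv K) m - algebraMap ℂ K (D.τ m))}
      zero_mem' := by
        change v.Pos (ch (cv K) 0 - algebraMap ℂ K (D.τ 0))
        rw [hτ0, ch_zero, map_one, sub_self]
        exact Or.inl rfl
      add_mem' := fun {m m'} hm hm' => by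
        change v.Pos (ch (cv K) (m + m') - algebraMap ℂ K (D.τ (m + m')))
        rw [ch_add yne, D.τa]
        exact pos_mul' hm hm'
      neg_mem' := fun {m} hm => by
        change v.Pos (ch (cv K) (-m) - algebraMap ℂ K (D.τ (-m)))
        have h3 : ch (cv K) (-m) = (ch (cv K) m)⁻¹ := by
          refine eq_inv_of_mul_eq_one_left ?_
          rw [← ch_add yne, neg_add_cancel, ch_zero]
        have h4 : D.τ (-m) = (D.τ m)⁻¹ := by
          refine eq_inv_of_mul_eq_one_left ?_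
          rw [← D.τa, neg_add_cancel, hτ0]
        rw [h3, h4]
        exact pos_inv' (ch_ne yne _) (D.τ0 _) hm }
  have hH : ∀ m ∈ D.Λ, v.Pos (ch (cv K) m - algebraMap ℂ K (D.τ m)) := by
    intro m' hm'
    obtain ⟨a, ha, hma⟩ := hIs m' hm'
    have h3 : m' ∈ H := by
      rw [hma]
      refine H.sum_mem fun i _ => ?_
      by_cases hi : i ∈ I
      · exact H.zsmul_mem (hone i hi) _
      · rw [ha i hi, zero_smul]
        exact H.zero_mem
    exact h3
  have hcen : ∀ f : g.X.R, v.Pos (f : K) ↔ x0 f = 0 := by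
    refine Pool.Agent.Helper58K9.LQ.center_of fun m hm f hf => ?_
    have h3 : x0 f = chi x0 m := chi_eq f hf
    rw [h3, hf]
    by_cases hmΛ : m ∈ D.Λ
    · rw [D.chi_F m hm hmΛ]
      exact hH m hmΛ
    · rw [D.chi_0 m hm hmΛ, map_zero, sub_zero]
      right
      change 0 < v.ord (ch (cv K) m)
      rw [ord_ch yne, htv']
      exact hw.2 m hm hmΛ
  have hR : g.X.R = AA (cv K) (Cn g.E) := g.hR
  have hov : IsOverGerm x0 v := ⟨⟨S, hSfg, by rw [hR]; exact hSle, hSloc⟩, hcen⟩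
  -- the canonical order
  obtain ⟨A, hA0, hA, hAo⟩ := hcany n K C ξ I hC hξ v u hprim hu1 hwt hloc g.X.d g.X.T g.e g.hT
  obtain ⟨B0, hB0c, hB0i, hB0e⟩ := indep_joint D (v := v) hC hI (Finset.empty_subset D.I0)
    (m := fun _ => 0) (by simp) (by simp)
  have hB0g : ∀ u ∈ B0, Good (cv K) v u := by
    intro u hu
    have h3 : u ∈ (B0 : Set (Fin n → Kp v)) := hu
    rw [hB0e] at h3
    rcases h3 with ⟨j, hj, rfl⟩ | ⟨i, hi, rfl⟩
    · simp at hj
    · exact good_lam D (chi_x0_a D) hov (hI i hi)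
  rw [Finset.card_empty, zero_add] at hB0c
  have hcan : IsCanOrd g.X.T v ((I.card : ℤ) - 1) := by
    refine ⟨⟨A, hA0, hA, hAo⟩, ?_⟩
    rintro _ ⟨A', hA'0, hA', rfl⟩
    obtain ⟨u', hu'⟩ := Finset.card_pos.1 (by rw [hB0c]; exact hI0 : 0 < B0.card)
    have h3 := low g (θ := u') (t := 1) (fun h0 => by
        exact (hB0i.ne_zero hu') h0) (hB0g _ hu') hB0g hB0i (r := B0.card - 1)
      (by omega) A' hA'0 hA'
    omega
  have h3 := hm v hov _ ⟨_, hcan, rfl⟩
  rw [hr v] at h3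
  have h4 : ∑ j, b.b j * ((phi (expo (F j)) w + exc D (F j) w : ℤ) : ℝ) ≤
      ∑ j, b.b j * (v.ord (jo (Fin n) K (F j)) : ℝ) := by
    refine Finset.sum_le_sum fun j _ => mul_le_mul_of_nonneg_left ?_ (b.bnn j)
    have h5 := ordF D hov (Fne j)
    rw [htv] at h5
    exact_mod_cast h5
  have h5 : ∑ j, b.b j * ((phi (expo (F j)) w + exc D (F j) w : ℤ) : ℝ) =
      ∑ j, b.b j * (phi (expo (F j)) w : ℝ) + ∑ j, b.b j * (exc D (F j) w : ℝ) := by
    rw [← Finset.sum_add_distrib]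
    refine Finset.sum_congr rfl fun j _ => ?_
    push_cast
    ring
  rw [htv] at h3
  rw [h5] at h4
  rw [lb]
  push_cast at h3
  linarith

end Pool.Agent.Helper43K9.LN
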