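import Pool.Agent.Helper43K9.LN.Semi
import Pool.Agent.Helper43K9.LN.Upb
import Pool.Agent.Helper43K9.LN.Bas
import Pool.Agent.Helper43K9.LN.Crd
import Pool.Agent.Helper43K9.LN.Mony
import Pool.Agent.Helper43K9.LN.Cany
import Pool.Agent.Helper43K9.LN.Ovr

/-!
# Lower semicontinuity at all closed points
-/

set_option autoImplicit false
set_option linter.unusedSectionVars false
set_option linter.unusedVariables false

namespace Pool.Agent.Helper43K9.LN

open Pool.Agent.H436R3.Fol Pool.Agent.H436R3.KT Pool.Agent.W497.Mld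
open MvPolynomial hiding X
open Pool.Agent.TH165.ACC (pr ex Prim Cn ToricGerm tv pr_zero pr_smul ym)
open Pool.Agent.Helper43K9.NH
open Pool.Agent.Helper43K9.LS (mld)
open Pool.Agent.Helper58K9.LQ (chi chi_eq chi_zero chi_add)

variable {n : ℕ} {K : Type} [Field K] [Algebra ℂ K]
  [Algebra (MvPolynomial (Fin n) ℂ) K] [IsFractionRing (MvPolynomial (Fin n) ℂ) K]
  [IsScalarTower ℂ (MvPolynomial (Fin n) ℂ) K]

theorem semi2 {g : ToricGerm n K} {s : ℕ} {F : Fin s → MvPolynomial (Fin n) ℂ}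
    {b : Bdry g F} {B : EffDiv g.X} {x0 : Pt g.X} {e : LocEq B x0}
    {x : Pt g.X} {e' : LocEq B x} (hr' : IsEqAt b e')
    (Q : (Fin n → ℤ) → Prop) (L : (Fin n → ℤ) → ℝ)
    (hup : ∀ m : ℝ, 0 ≤ m → (∀ v, IsOverGerm x0 v → ∀ a, IsLogDisc e v a → m ≤ a) →
      ∀ w, Q w → m ≤ L w)
    (hx : ∀ v, IsOverGerm x v → ∀ c, IsCanOrd g.X.T v c →
      ∃ w', Q w' ∧ L w' ≤ 1 + (c : ℝ) -
        (∑ j, b.b j * (v.ord (jo (Fin n) K (F j)) : ℝ) - dot b.ψ (tv v))) :
    mld e ≤ mld e' := by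
  by_cases hneg : ∃ v a, IsOverGerm x0 v ∧ IsLogDisc e v a ∧ a < 0
  · rw [mld, if_pos hneg]
    exact bot_le
  have hI : mld e = sInf {a : EReal | ∃ v r, IsOverGerm x0 v ∧ IsLogDisc e v r ∧
    a = (r : EReal)} := by rw [mld, if_neg hneg]
  push Not at hneg
  have h0 : 0 ≤ mld e := by
    rw [hI]
    apply le_sInf
    rintro _ ⟨v, r, hv, hlr, rfl⟩
    exact_mod_cast hneg v r hv hlr
  have key : ∀ v, IsOverGerm x v → ∀ a, IsLogDisc e' v a → mld e ≤ (a : EReal) := by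
    rintro v hv a ⟨c, hc, rfl⟩
    obtain ⟨w', hw', hle⟩ := hx v hv c hc
    rw [hr' v]
    by_contra hlt
    push Not at hlt
    obtain ⟨q, hq1, hq2⟩ := EReal.lt_iff_exists_real_btwn.1 hlt
    have h1 : max q 0 ≤ L w' := by
      refine hup _ (le_max_right _ _)
        (fun v' hv' a' ha' => max_le ?_ (hneg v' a' hv' ha')) w' hw'
      have h2 : mld e ≤ (a' : EReal) := by
        rw [hI]
        exact sInf_le ⟨v', a', hv', ha', rfl⟩
      exact_mod_cast (hq2.trans_le h2).le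
    have h2 := (le_max_left q 0).trans h1
    have h3 : 1 + (c : ℝ) - (∑ j, b.b j * (v.ord (jo (Fin n) K (F j)) : ℝ) -
      dot b.ψ (tv v)) < q := by exact_mod_cast hq1
    linarith
  by_cases hneg' : ∃ v a, IsOverGerm x v ∧ IsLogDisc e' v a ∧ a < 0
  · obtain ⟨v, a, hv, ha, hlt⟩ := hneg'
    have h1 := h0.trans (key v hv a ha)
    have h2 : (0 : ℝ) ≤ a := by exact_mod_cast h1
    exact absurd hlt (not_lt.2 h2)
  · have hI' : mld e' = sInf {a : EReal | ∃ v r, IsOverGerm x v ∧ IsLogDisc e' v r ∧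
      a = (r : EReal)} := by rw [mld, if_neg hneg']
    rw [hI']
    apply le_sInf
    rintro _ ⟨v, r, hv, hlr, rfl⟩
    exact key v hv r hlr

/-- a closed point at which all monomials vanish is the fixed point -/
theorem eq_P {g : ToricGerm n K} {x0 : Pt g.X} (h : ∀ m ∈ Cn g.E, m ≠ 0 → chi x0 m = 0) :
    x0 = g.P := by
  have hR : g.X.R = AA (cv K) (Cn g.E) := g.hR
  have key : ∀ f : K, f ∈ AA (cv K) (Cn g.E) → ∀ hf : f ∈ g.X.R,
      x0 ⟨f, hf⟩ = g.P ⟨f, hf⟩ := by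
    intro f hf
    have hle : ∀ f : K, f ∈ Algebra.adjoin ℂ (ch (cv K) '' Cn g.E) → f ∈ g.X.R := fun f hf => by
      rw [hR]; exact hf
    unfold AA at hf
    induction hf using Algebra.adjoin_induction with
    | mem f hf =>
      obtain ⟨m, hm, rfl⟩ := hf
      intro hf
      by_cases hm0 : m = 0
      · subst hm0
        have h1 : (⟨ch (cv K) 0, hf⟩ : g.X.R) = 1 := Subtype.ext (ch_zero)
        rw [h1, map_one, map_one]
      · have h1 : g.P ⟨ch (cv K) m, hf⟩ = 0 := g.hP _ m hm hm0 rfl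
        have h2 : x0 ⟨ch (cv K) m, hf⟩ = chi x0 m := chi_eq _ rfl
        rw [h1, h2, h m hm hm0]
    | algebraMap r =>
      intro hf
      have h1 : (⟨algebraMap ℂ K r, hf⟩ : g.X.R) = algebraMap ℂ g.X.R r := rfl
      rw [h1, AlgHom.commutes, AlgHom.commutes]
    | add f f' hf hf' ih ih' =>
      intro hff
      have h1 : (⟨f + f', hff⟩ : g.X.R) = ⟨f, hle f hf⟩ + ⟨f', hle f' hf'⟩ := rfl
      rw [h1, map_add, map_add, ih, ih']
    | mul f f' hf hf' ih ih' =>
      intro hff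
      have h1 : (⟨f * f', hff⟩ : g.X.R) = ⟨f, hle f hf⟩ * ⟨f', hle f' hf'⟩ := rfl
      rw [h1, map_mul, map_mul, ih, ih']
  apply AlgHom.ext
  intro f
  have h1 := key (f : K) (by rw [← hR]; exact f.2) f.2
  exact h1

/-- lower semicontinuity at all closed points -/
theorem all (g : ToricGerm n K) {s : ℕ} (F : Fin s → MvPolynomial (Fin n) ℂ)
    (Fne : ∀ j, F j ≠ 0) (hnd : ∀ j, Nondeg g (F j)) (x0 : Pt g.X) :
    ∃ f : g.X.R, x0 f ≠ 0 ∧ ∀ x : Pt g.X, x f ≠ 0 →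
      ∀ b : Bdry g F, sumAt b x0 ≤ 1 → ∀ (B : EffDiv g.X) (e : LocEq B x0) (e' : LocEq B x),
        IsEqAt b e → IsEqAt b e' → mld e ≤ mld e' := by
  by_cases h0 : x0 = g.P
  · subst h0
    obtain ⟨f, hf, h⟩ := core g F Fne hnd
    exact ⟨f, hf, fun x hx b hb B e e' he he' =>
      semi Fne he he' fun v hv c hc => h x hx v hv c hc b hb⟩
  obtain ⟨D⟩ := exists_FD g x0
  obtain ⟨C, I, hC, -, hI, hIs⟩ := bas n D.Λ fun k m hk hm => by
    rw [D.hΛ] at hm ⊢
    intro i hi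
    have h1 := hm i hi
    rw [pr_smul] at h1
    exact (mul_eq_zero.1 h1).resolve_left hk
  have hI0 : 0 < I.card := by
    rw [Finset.card_pos]
    by_contra hI0
    rw [Finset.not_nonempty_iff_eq_empty] at hI0
    apply h0
    apply eq_P
    intro m hm hm0
    apply D.chi_0 m hm
    intro hmΛ
    obtain ⟨a, ha, hma⟩ := hIs m hmΛ
    apply hm0
    rw [hma]
    refine Finset.sum_eq_zero fun i _ => ?_
    rw [ha i (by rw [hI0]; exact Finset.notMem_empty i), zero_smul]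
  obtain ⟨f, hf, h⟩ := core2 D hC hI hI0 F Fne hnd
  refine ⟨f, hf, fun x hx b hb B e e' he he' => ?_⟩
  exact semi2 he' (RInt D)
    (fun w => I.card + (lb b w - ∑ j, b.b j * (exc D (F j) w : ℝ)))
    (fun m hm0 hm w hw => upb crd mony cany ovr D hC hI hI0 hIs Fne b he hm w hw)
    (fun v hv c hc => h x hx v hv c hc b hb)

end Pool.Agent.Helper43K9.LN
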