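import Pool.Agent.Helper43K9.LN.Defs

/-!
# The function whose zero set is removed
-/

set_option autoImplicit false
set_option linter.unusedVariables false

namespace Pool.Agent.Helper43K9.LN

open Pool.Agent.H436R3.Fol Pool.Agent.H436R3.KT Pool.Agent.W497.Mld
open MvPolynomial hiding X
open Pool.Agent.TH165.ACC (pr ex Prim Cn Hs lead part pr_add pr_zero pr_neg pr_sub pr_smul
  pr_smul_right ex_add ex_inj mvI mem_mvI)
open Pool.Agent.Helper43K9.NH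

variable {n : ℕ} {L : Type} [Field L] [Algebra ℂ L]

theorem exists_h' {N : ℕ} {E : Fin N → Fin n → ℤ} {X : AffVar L} {P : Pt X} {y : Fin n → L}
    (yne : ∀ i, y i ≠ 0) (hR : X.R = AA y (Cn E))
    (hP : ∀ f : X.R, ∀ m ∈ Cn E, m ≠ 0 → (f : L) = ch y m → P f = 0)
    (F : MvPolynomial (Fin n) ℂ) {S : Finset (Fin (n) →₀ ℕ)} (hS : S ⊆ F.support)
    {s0 : Fin (n) →₀ ℕ} (h0 : s0 ∈ S) (hC : ∀ s ∈ S, ex s - ex s0 ∈ Cn E) :
    ∃ h : X.R, (h : L) * ch y (ex s0) =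
      aeval y (∑ s ∈ S, monomial s (F.coeff s)) ∧ P h ≠ 0 := by
  classical
  have hmem : ∀ s ∈ S, ch y (ex s - ex s0) ∈ X.R := by
    intro s hs
    rw [hR]
    exact ch_mem_AA (hC s hs)
  let f : (Fin (n) →₀ ℕ) → X.R := fun s =>
    if hs : s ∈ S then ⟨ch y (ex s - ex s0), hmem s hs⟩ else 0
  have hf : ∀ s ∈ S, (f s : L) = ch y (ex s - ex s0) := by
    intro s hs
    simp only [f]
    rw [dif_pos hs]
  refine ⟨∑ s ∈ S, algebraMap ℂ X.R (F.coeff s) * f s, ?_, ?_⟩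
  · push_cast
    rw [Finset.sum_mul, map_sum]
    refine Finset.sum_congr rfl fun s hs => ?_
    rw [hf s hs, aeval_mon, mul_assoc, ← ch_add yne, sub_add_cancel]
  · rw [map_sum, Finset.sum_eq_single s0]
    · rw [map_mul, AlgHom.commutes]
      have h3 : f s0 = 1 := by
        apply Subtype.ext
        rw [hf s0 h0, sub_self, ch_zero]
        rfl
      rw [h3, map_one, mul_one]
      exact mem_support_iff.1 (hS h0)
    · intro s hs hne
      rw [map_mul]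
      have h3 : P (f s) = 0 := by
        refine hP _ _ (hC s hs) ?_ (hf s hs)
        intro h4
        rw [sub_eq_zero] at h4
        exact hne (ex_inj h4)
      rw [h3, mul_zero]
    · intro h; exact absurd h0 h

/-- [FUN] -/
theorem exists_fun' {N : ℕ} {E : Fin N → Fin n → ℤ} {X : AffVar L} {P : Pt X} {y : Fin n → L}
    (yne : ∀ i, y i ≠ 0) (hR : X.R = AA y (Cn E))
    (hP : ∀ f : X.R, ∀ m ∈ Cn E, m ≠ 0 → (f : L) = ch y m → P f = 0)
    (F : MvPolynomial (Fin n) ℂ) : ∃ f : X.R, P f ≠ 0 ∧ ∀ x : Pt X, x f ≠ 0 →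
    ∀ S ⊆ F.support, ∀ s0 ∈ S, (∀ s ∈ S, ex s - ex s0 ∈ Cn E) →
      ∃ h : X.R, (h : L) * ch y (ex s0) =
        aeval y (∑ s ∈ S, monomial s (F.coeff s)) ∧ x h ≠ 0 := by
  classical
  have hex : ∀ p : Finset (Fin (n) →₀ ℕ) × (Fin (n) →₀ ℕ), ∃ h : X.R,
      P h ≠ 0 ∧ (p.1 ⊆ F.support → p.2 ∈ p.1 → (∀ s ∈ p.1, ex s - ex p.2 ∈ Cn E) →
        (h : L) * ch y (ex p.2) = aeval y (∑ s ∈ p.1, monomial s (F.coeff s))) := by
    rintro ⟨S, s0⟩
    by_cases h : S ⊆ F.support ∧ s0 ∈ S ∧ ∀ s ∈ S, ex s - ex s0 ∈ Cn E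
    · obtain ⟨h1, h2, h3⟩ := h
      obtain ⟨h, h4, h5⟩ := exists_h' yne hR hP F h1 h2 h3
      exact ⟨h, h5, fun _ _ _ => h4⟩
    · refine ⟨1, by rw [map_one]; exact one_ne_zero, fun h1 h2 h3 => absurd ⟨h1, h2, h3⟩ h⟩
  choose h h1 h2 using hex
  refine ⟨∏ p ∈ F.support.powerset ×ˢ F.support, h p, ?_, ?_⟩
  · rw [map_prod, Finset.prod_ne_zero_iff]
    exact fun p _ => h1 p
  · intro x hx S hS s0 hs0 hC
    refine ⟨h (S, s0), h2 (S, s0) hS hs0 hC, ?_⟩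
    rw [map_prod, Finset.prod_ne_zero_iff] at hx
    exact hx (S, s0) (Finset.mem_product.2 ⟨Finset.mem_powerset.2 hS, hS hs0⟩)

end Pool.Agent.Helper43K9.LN
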