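import Pool.Agent.Helper43K9.LN.Defs

/-!
# Twisted equations
-/

set_option autoImplicit false
set_option linter.unusedVariables false

namespace Pool.Agent.Helper43K9.LN

open Pool.Agent.H436R3.Fol Pool.Agent.H436R3.KT Pool.Agent.W497.Mld MvPolynomial
open Pool.Agent.TH165.ACC (pr ex Prim Cn Hs lead part pr_add pr_zero pr_neg pr_sub pr_smul
  pr_smul_right ex_add ex_inj mvI mem_mvI coeff_euler)
open Pool.Agent.Helper43K9.NH
open Pool.Agent.Helper43K9.LS (ge_add ge_const HK coeff_HK support_HK euler_HK)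

variable {n : ℕ} {L : Type} [Field L] [Algebra ℂ L]

/-- [HEX] -/
theorem exists_H' {y : Fin n → L} (yne : ∀ i, y i ≠ 0) {F : MvPolynomial (Fin n) ℂ} (Fne : F ≠ 0)
    {v : DVal L} (hF : aeval y F = 0 ∨ phi (expo F) (wt y v) + 1 ≤ v.ord (aeval y F))
    {S : Finset (Fin n →₀ ℕ)}
    (hS : S ⊆ F.support) (hSw : ∀ s ∈ S, pr (ex s) (wt y v) = phi (expo F) (wt y v))
    {s0 : Fin (n) →₀ ℕ} (h0 : s0 ∈ S)
    (hne : aeval y (∑ s ∈ S, monomial s (F.coeff s)) ≠ 0)
    (hord : v.ord (aeval y (∑ s ∈ S, monomial s (F.coeff s))) =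
      phi (expo F) (wt y v)) (Q : (Fin (n) → ℤ) → Prop)
    (hSQ : ∀ s ∈ S, ∀ ν, Q ν → pr (ex s - ex s0) ν = 0)
    (hbad : ∀ s ∈ F.support, pr (ex s) (wt y v) = phi (expo F) (wt y v) → s ∉ S →
      ∃ ν, Q ν ∧ pr (ex s - ex s0) ν ≠ 0) :
    ∃ (H : MvPolynomial (Fin (n)) ℂ) (ν : Fin (n) → ℤ), Q ν ∧
      H.support ⊆ F.support ∧
      (aeval y H = 0 ∨ phi (expo F) (wt y v) + 1 ≤ v.ord (aeval y H)) ∧
      (∑ l, (ν l : L) * aeval y (X l * pderiv l H)) ≠ 0 ∧
      v.ord (∑ l, (ν l : L) * aeval y (X l * pderiv l H)) = phi (expo F) (wt y v) := by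
  classical
  set w := wt y v with hw
  set φ := phi (expo F) w with hφ
  have hmin := (phi_expo Fne w).2
  let K0 : Finset (Fin (n) →₀ ℕ) := {s ∈ F.support | pr (ex s) w = φ ∧ s ∉ S}
  have hK0 : ∀ s, s ∈ K0 ↔ s ∈ F.support ∧ pr (ex s) w = φ ∧ s ∉ S := fun s => by
    simp only [K0, Finset.mem_filter]
  have hex : ∀ s, ∃ ν : Fin (n) → ℤ, s ∈ K0 → Q ν ∧ pr (ex s - ex s0) ν ≠ 0 := by
    intro s
    by_cases hs : s ∈ K0
    · obtain ⟨h1, h2, h3⟩ := (hK0 s).1 hs
      obtain ⟨ν, h4, h5⟩ := hbad s h1 h2 h3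
      exact ⟨ν, fun _ => ⟨h4, h5⟩⟩
    · exact ⟨0, fun h => absurd h hs⟩
  choose ν hν using hex
  have hge : ∀ K, aeval y (HK F ν K) = 0 ∨ φ ≤ v.ord (aeval y (HK F ν K)) := by
    intro K
    exact ge_of_weights yne fun s hs => hmin s (support_HK _ _ _ hs)
  by_contra hcon
  push Not at hcon
  -- all `H_K` have order bigger than `φ`
  have hall : ∀ K ⊆ K0, aeval y (HK F ν K) = 0 ∨
      φ + 1 ≤ v.ord (aeval y (HK F ν K)) := by
    intro K
    induction K using Finset.induction_on with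
    | empty =>
      intro _
      have h1 : HK F ν ∅ = F := by
        ext s
        rw [coeff_HK, Finset.prod_empty, one_mul]
      rw [h1]
      exact hF
    | insert κ K hκ ih =>
      intro hK
      have hκ0 : κ ∈ K0 := hK (Finset.mem_insert_self κ K)
      have h1 := ih fun x hx => hK (Finset.mem_insert_of_mem hx)
      have h2 := euler_HK y F ν hκ
      have h3 := hcon (HK F ν K) (ν κ) (hν κ hκ0).1 (support_HK _ _ _) h1
      rw [h2] at h3
      have h4 := ge_const ((pr (ex κ) (ν κ) : ℤ) : ℂ) h1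
      set a := aeval y (HK F ν (insert κ K)) with ha
      set b := algebraMap ℂ L ((pr (ex κ) (ν κ) : ℤ) : ℂ) * aeval y (HK F ν K) with hb
      have hb' : b = 0 ∨ φ ≤ v.ord b := by
        rcases h4 with h4 | h4
        · exact Or.inl h4
        · right; omega
      have h5 := ge_add (hge (insert κ K)) hb'
      rw [← ha] at h5
      have h6 : a + b = 0 ∨ φ + 1 ≤ v.ord (a + b) := by
        by_cases h7 : a + b = 0
        · exact Or.inl h7
        · right
          have h8 := h5.resolve_left h7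
          have h9 := h3 h7
          omega
      have h7 : a = (a + b) + algebraMap ℂ L (-1) * b := by
        rw [map_neg, map_one]; ring
      rw [h7]
      exact ge_add h6 (ge_const _ h4)
  have hlast := hall K0 (Finset.Subset.refl _)
  -- the coefficients of `H_{K0}`
  set c : ℂ := ∏ κ ∈ K0, ((pr (ex s0 - ex κ) (ν κ) : ℤ) : ℂ) with hc
  have hc0 : c ≠ 0 := by
    rw [hc, Finset.prod_ne_zero_iff]
    intro κ hκ h1
    have h2 : pr (ex s0 - ex κ) (ν κ) = 0 := by exact_mod_cast h1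
    apply (hν κ hκ).2
    rw [pr_sub] at h2 ⊢
    omega
  set FS : MvPolynomial (Fin (n)) ℂ := ∑ s ∈ S, monomial s (F.coeff s) with hFS
  have hcFS : ∀ s, FS.coeff s = if s ∈ S then F.coeff s else 0 := by
    intro s
    rw [hFS, coeff_sum]
    split_ifs with hs
    · rw [Finset.sum_eq_single s]
      · rw [coeff_monomial, if_pos rfl]
      · intro t _ ht
        rw [coeff_monomial, if_neg ht]
      · intro h; exact absurd hs h
    · refine Finset.sum_eq_zero fun t ht => ?_
      rw [coeff_monomial, if_neg]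
      rintro rfl
      exact hs ht
  have hq : ∀ s ∈ (HK F ν K0 - C c * FS).support, φ + 1 ≤ pr (ex s) w := by
    intro s hs
    rw [mem_support_iff, coeff_sub, coeff_C_mul, coeff_HK, hcFS] at hs
    by_cases hsS : s ∈ S
    · exfalso
      rw [if_pos hsS] at hs
      apply hs
      have h1 : (∏ κ ∈ K0, ((pr (ex s - ex κ) (ν κ) : ℤ) : ℂ)) = c := by
        rw [hc]
        refine Finset.prod_congr rfl fun κ hκ => ?_
        have h2 := hSQ s hsS (ν κ) (hν κ hκ).1
        rw [pr_sub] at h2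
        rw [pr_sub, pr_sub]
        congr 2
        omega
      rw [h1, sub_self]
    · rw [if_neg hsS, mul_zero, sub_zero] at hs
      have h1 : s ∈ F.support := mem_support_iff.2 (right_ne_zero_of_mul hs)
      have h2 := hmin s h1
      by_contra h3
      have h4 : s ∈ K0 := (hK0 s).2 ⟨h1, by omega, hsS⟩
      apply hs
      rw [Finset.prod_eq_zero h4 (by rw [sub_self, pr_zero, Int.cast_zero]), zero_mul]
  have h1 := ge_of_weights yne hq
  have h2 : algebraMap ℂ L c * aeval y FS =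
      aeval y (HK F ν K0) + algebraMap ℂ L (-1) * aeval y (HK F ν K0 - C c * FS) := by
    rw [map_sub, map_mul (aeval y) (C _) _, aeval_C, map_neg, map_one]
    ring
  have h3 := ge_add hlast (ge_const (-1) h1)
  rw [← h2] at h3
  have hc' : algebraMap ℂ L c ≠ 0 := by
    rwa [Ne, map_eq_zero_iff _ (algebraMap ℂ L).injective]
  rcases h3 with h3 | h3
  · exact mul_ne_zero hc' hne h3
  · rw [v.map_mul _ _ hc' hne, v.const c hc0, hord] at h3
    omega

end Pool.Agent.Helper43K9.LN
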