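import Pool.Agent.Helper43K9.LN.Defs

/-!
# The logarithmic derivatives of least order
-/

set_option autoImplicit false
set_option linter.unusedSectionVars false
set_option linter.unusedVariables false

namespace Pool.Agent.Helper43K9.LN

open Pool.Agent.H436R3.Fol Pool.Agent.H436R3.KT Pool.Agent.W497.Mld MvPolynomial
open Pool.Agent.TH165.ACC (pr ex Prim Cn Hs lead part pr_add pr_zero pr_neg pr_sub pr_smul
  pr_smul_right ex_add ex_inj mvI mem_mvI ord_eq_zero_of_notMem lead_eq euler_part support_euler)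
open Pool.Agent.Helper43K9.NH
open Pool.Agent.Helper43K9.LS (Kp Red Good red cK)

variable {n : ℕ} {L : Type} [Field L] [Algebra ℂ L]

/-- the logarithmic derivative of least order, for weights in the cone -/
theorem exists_index2 {y : Fin n → L} (hy : ∀ i, y i ≠ 0) {F : MvPolynomial (Fin n) ℂ}
    (Fne : F ≠ 0) {v : DVal L}
    (hF : aeval y F = 0 ∨ phi (expo F) (wt y v) + 1 ≤ v.ord (aeval y F))
    (hnd : ∀ ξ : Fin n → ℂ, (∀ i, ξ i ≠ 0) → eval ξ (lead (wt y v) F) = 0 →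
      ∃ i, eval ξ (pderiv i (lead (wt y v) F)) ≠ 0) :
    ∃ k : Fin n, aeval y (X k * pderiv k F) ≠ 0 ∧
      v.ord (aeval y (X k * pderiv k F)) = phi (expo F) (wt y v) := by
  classical
  set u := wt y v with hu
  set m : ℤ := phi (expo F) u with hm
  obtain ⟨hm1, hm2⟩ := phi_expo Fne u
  rw [← hm] at hm1 hm2
  obtain ⟨π, hπ, h1⟩ := v.surj
  let 𝔭 : Ideal (MvPolynomial (Fin n) ℂ) := (mvI v).comap (Phi' hy hπ h1)
  have hlead : lead u F = part u m F := lead_eq hm1 hm2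
  have hJ : lead u F ∈ 𝔭 := by
    rw [hlead]
    change v.Pos _
    obtain ⟨h2, h3⟩ := reg_mul_zpow' hy hπ h1 hm2
    have h4 : v.Pos (aeval y F * π ^ (-m)) := by
      by_cases h0 : aeval y F = 0
      · rw [h0, zero_mul]; exact Or.inl rfl
      · right
        have h := hF.resolve_left h0
        rw [v.map_mul _ _ h0 (zpow_ne_zero _ hπ), v.ord_zpow hπ, h1]
        omega
    have h5 : (Phi' hy hπ h1 (part u m F) : L) = aeval y F * π ^ (-m) +
        (-1) * (aeval y F * π ^ (-m) - (Phi' hy hπ h1 (part u m F) : L)) := by ring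
    rw [h5]
    exact v.pos_add h4 (v.pos_mul_left (v.reg_neg v.reg_one) h3)
  have h𝔭 : 𝔭.IsPrime := Ideal.IsPrime.comap _
  have hX : ∀ i, (X i : MvPolynomial (Fin n) ℂ) ∉ 𝔭 := by
    intro i hi
    have h2 : (Phi' hy hπ h1 (X i) : L) = y i * π ^ (-v.ord (y i)) := by
      rw [Phi', coe_eval₂Hom, eval₂_X]
    have h3 : v.Pos (y i * π ^ (-v.ord (y i))) := by
      rw [← h2]
      exact hi
    rcases h3 with h3 | h3
    · exact mul_ne_zero (hy i) (zpow_ne_zero _ hπ) h3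
    · rw [v.map_mul _ _ (hy i) (zpow_ne_zero _ hπ), v.ord_zpow hπ, h1] at h3
      omega
  obtain ⟨ξ, hξ𝔭, hξ⟩ : ∃ ξ ∈ zeroLocus ℂ 𝔭, ∀ i, ξ i ≠ 0 := by
    by_contra h2
    push Not at h2
    have h3 : (∏ i, (X i : MvPolynomial (Fin n) ℂ)) ∈ vanishingIdeal ℂ (zeroLocus ℂ 𝔭) := by
      rw [mem_vanishingIdeal_iff]
      intro ξ hξ
      obtain ⟨i, hi⟩ := h2 ξ hξ
      rw [map_prod]
      exact Finset.prod_eq_zero (Finset.mem_univ i) (by rw [aeval_X, hi])
    rw [vanishingIdeal_zeroLocus_eq_radical, h𝔭.radical, h𝔭.prod_mem_iff] at h3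
    obtain ⟨i, -, hi⟩ := h3
    exact hX i hi
  have hev : ∀ q ∈ 𝔭, eval ξ q = 0 := by
    intro q hq
    have := mem_zeroLocus_iff.1 hξ𝔭 q hq
    rwa [← coe_aeval_eq_eval]
  obtain ⟨i, hi⟩ := hnd ξ hξ (hev _ hJ)
  have hM : X i * pderiv i (lead u F) ∉ 𝔭 := by
    intro h2
    have h3 := hev _ h2
    rw [map_mul, eval_X] at h3
    exact mul_ne_zero (hξ i) hi h3
  have hsup : ∀ t ∈ (X i * pderiv i F).support, m ≤ pr (ex t) u := fun t ht =>
    hm2 t (support_euler _ _ ht)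
  obtain ⟨h4, h5⟩ := reg_mul_zpow' hy hπ h1 hsup
  rw [← hu, ← euler_part, ← hlead] at h5
  have h6 : (⟨_, h4⟩ : v.O) ∉ mvI v := by
    intro h7
    apply hM
    change v.Pos (Phi' hy hπ h1 (X i * pderiv i (lead u F)) : L)
    have h8 : (Phi' hy hπ h1 (X i * pderiv i (lead u F)) : L) =
        aeval y (X i * pderiv i F) * π ^ (-m) + (-1) *
          (aeval y (X i * pderiv i F) * π ^ (-m) -
            (Phi' hy hπ h1 (X i * pderiv i (lead u F)) : L)) := by ring
    rw [h8]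
    exact v.pos_add h7 (v.pos_mul_left (v.reg_neg v.reg_one) h5)
  obtain ⟨h7, h8⟩ := ord_eq_zero_of_notMem h6
  have h9 : aeval y (X i * pderiv i F) ≠ 0 := left_ne_zero_of_mul h7
  refine ⟨i, h9, ?_⟩
  change v.ord (aeval y (X i * pderiv i F) * π ^ (-m)) = 0 at h8
  rw [v.map_mul _ _ h9 (zpow_ne_zero _ hπ), v.ord_zpow hπ, h1] at h8
  omega

/-- the reduction of a monomial unit -/
theorem good_mon' {N : ℕ} {E : Fin N → Fin n → ℤ} {V : AffVar L} {y : Fin n → L}
    (yne : ∀ i, y i ≠ 0) (hR : V.R = AA y (Cn E)) {x : Pt V} {v : DVal L} (hv : IsOverGerm x v)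
    {m : Fin n → ℤ} (hm : m ∈ Cn E) (h0 : pr m (wt y v) = 0) :
    Good y v (cK v m) := by
  have hmem : ch y m ∈ V.R := by
    rw [hR]
    exact ch_mem_AA hm
  refine ⟨ch y m - algebraMap ℂ L (x ⟨_, hmem⟩), ch y m, fun l => (m l : L), ch_ne yne m,
    ?_, ?_, ⟨fun l => v.reg_intCast _, fun l => ?_⟩⟩
  · have h1 : x (⟨_, hmem⟩ - algebraMap ℂ V.R (x ⟨_, hmem⟩)) = 0 := by
      rw [map_sub, AlgHom.commutes]
      exact sub_self _
    have h2 := (hv.2 _).2 h1
    rw [ord_ch yne, h0]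
    rcases h2 with h2 | h2
    · exact Or.inl h2
    · right
      have h3 : (0 : ℤ) < v.ord (ch y m - algebraMap ℂ L (x ⟨_, hmem⟩)) := h2
      omega
  · intro D
    rw [map_sub, Derivation.map_algebraMap, sub_zero, der_ch yne]
  · change red v (⟨(m l : L), v.reg_intCast _⟩ : v.O) = (m l : Kp v)
    rw [← map_intCast (red v)]
    congr 1

/-- the reduction of the logarithmic derivatives of a function of large order -/
theorem good_der' {y : Fin n → L} (yne : ∀ i, y i ≠ 0) {τ : L} (hk : τ ≠ 0) {v : DVal L} {t : ℤ}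
    {H : MvPolynomial (Fin n) ℂ} (hH0 : aeval y H = 0 ∨ v.ord τ + t ≤ v.ord (aeval y H))
    (h : ∀ l, v.Reg (aeval y (X l * pderiv l H) / τ)) :
    GoodT y v t (fun l => red v ⟨_, h l⟩) := by
  refine ⟨aeval y H, τ, fun l => aeval y (X l * pderiv l H) / τ, hk, hH0, ?_,
    ⟨h, fun l => rfl⟩⟩
  intro D
  rw [der_aeval yne, Finset.mul_sum]
  refine Finset.sum_congr rfl fun l _ => ?_
  rw [← mul_assoc, mul_div_cancel₀ _ hk]

theorem reg_euler' {y : Fin n → L} (yne : ∀ i, y i ≠ 0) {F : MvPolynomial (Fin n) ℂ} (Fne : F ≠ 0)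
    {v : DVal L} {k0 : Fin n} (hk : aeval y (X k0 * pderiv k0 F) ≠ 0)
    (hk' : v.ord (aeval y (X k0 * pderiv k0 F)) = phi (expo F) (wt y v))
    {H : MvPolynomial (Fin n) ℂ} (hH : H.support ⊆ F.support) (l : Fin n) :
    v.Reg (aeval y (X l * pderiv l H) / aeval y (X k0 * pderiv k0 F)) :=
  reg_div_of (ge_of_weights yne fun s hs =>
    (phi_expo Fne (wt y v)).2 s (hH (support_euler _ _ hs))) hk hk'.le

end Pool.Agent.Helper43K9.LN
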