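import Pool.Agent.Helper43K9.LN.Defs

/-!
# The divisors which do not contain the closed point
-/

set_option autoImplicit false
set_option linter.unusedSectionVars false
set_option linter.unusedVariables false

namespace Pool.Agent.Helper43K9.LN

open Pool.Agent.H436R3.Fol Pool.Agent.H436R3.KT Pool.Agent.W497.Mld MvPolynomial
open Pool.Agent.TH165.ACC (pr ex Prim Cn ToricGerm tv pr_sub exists_mon)
open Pool.Agent.Helper43K9.NH

variable {n : ℕ} {K : Type} [Field K] [Algebra ℂ K]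
  [Algebra (MvPolynomial (Fin n) ℂ) K] [IsFractionRing (MvPolynomial (Fin n) ℂ) K]
  [IsScalarTower ℂ (MvPolynomial (Fin n) ℂ) K]

theorem reg_of_mon {g : ToricGerm n K} {v : DVal K}
    (h : ∀ m ∈ Cn g.E, 0 ≤ pr m (wt (cv K) v)) (f : g.X.R) : v.Reg (f : K) := by
  have yne : ∀ i, cv K i ≠ 0 := fun i => cv_ne (ι := Fin n) (K := K) i
  have hR : g.X.R = AA (cv K) (Cn g.E) := g.hR
  have hf : (f : K) ∈ Algebra.adjoin ℂ (ch (cv K) '' Cn g.E) := by
    exact (le_of_eq hR) f.2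
  generalize (f : K) = z at hf
  induction hf using Algebra.adjoin_induction with
  | mem z hz =>
    obtain ⟨m, hm, rfl⟩ := hz
    right
    rw [ord_ch yne]
    exact h m hm
  | algebraMap r => exact v.reg_const r
  | add a b _ _ ha hb => exact v.reg_add ha hb
  | mul a b _ _ ha hb => exact v.reg_mul ha hb

/-- near the closed point the divisors which do not contain it have the least orders -/
theorem exists_nthr (g : ToricGerm n K) (x0 : Pt g.X) {F : MvPolynomial (Fin n) ℂ} (Fne : F ≠ 0) :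
    ∃ f : g.X.R, x0 f ≠ 0 ∧ ∀ x : Pt g.X, x f ≠ 0 → ¬ Thr g F x0 → ∀ v, IsOverGerm x v →
      v.ord (jo (Fin n) K F) ≤ phi (expo F) (wt (cv K) v) := by
  classical
  by_cases hT : Thr g F x0
  · exact ⟨1, by rw [map_one]; exact one_ne_zero, fun x _ h => absurd hT h⟩
  have hT' := hT
  unfold Thr at hT'
  push Not at hT'
  obtain ⟨m, h, hh, hx0⟩ := hT'
  refine ⟨h, hx0, fun x hx _ v hv => ?_⟩
  have yne : ∀ i, cv K i ≠ 0 := fun i => cv_ne (ι := Fin n) (K := K) i
  have hJ : jo (Fin n) K F ≠ 0 := jo_ne Fne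
  have hh0 : (h : K) ≠ 0 := by
    intro h1
    rw [h1, mul_zero] at hh
    exact hJ hh
  have hsm : ∀ s ∈ F.support, ex s - m ∈ Cn g.E := by
    intro s hs i
    obtain ⟨vi, hvi, htv⟩ := exists_mon (K := K) (g.prim i)
    have hw : wt (n := n) (cv K) vi = g.E i := htv
    have h1 := (hvi F Fne).2 s hs
    rw [htv, hh, vi.map_mul _ _ (ch_ne yne _) hh0, ord_ch yne, hw] at h1
    have h2 : vi.Reg (h : K) := reg_of_mon (fun m' hm' => by rw [hw]; exact hm' i) h
    have h3 := vi.ord_nonneg hh0 h2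
    rw [pr_sub]
    omega
  have hreg : ∀ f : g.X.R, v.Reg (f : K) := by
    obtain ⟨⟨S, -, h1, h2⟩, -⟩ := hv
    exact fun f => h2.1 _ (h1 f.2)
  have hw : ∀ m ∈ Cn g.E, 0 ≤ pr m (wt (cv K) v) := by
    intro m hm
    have hmem : ch (cv K) m ∈ g.X.R := by
      have hR : g.X.R = AA (cv K) (Cn g.E) := g.hR
      rw [hR]
      exact ch_mem_AA hm
    rw [← ord_ch yne]
    exact v.ord_nonneg (ch_ne yne _) (hreg ⟨_, hmem⟩)
  have hho : v.ord (h : K) = 0 := by
    have h5 := v.ord_nonneg hh0 (hreg h)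
    by_contra h6
    exact hx ((hv.2 h).1 (Or.inr (by omega)))
  rw [hh, v.map_mul _ _ (ch_ne yne _) hh0, ord_ch yne, hho, add_zero]
  obtain ⟨⟨m1, hm1, h1⟩, -⟩ := phi_spec (expo_nonempty Fne) (wt (n := n) (cv K) v)
  obtain ⟨s, hs, rfl⟩ := mem_expo.1 hm1
  have h2 := hw _ (hsm s hs)
  rw [pr_sub] at h2
  omega

end Pool.Agent.Helper43K9.LN
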