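import Pool.Agent.Helper43K9.LN.Low
import Pool.Agent.Helper43K9.LN.Hex
import Pool.Agent.Helper43K9.LN.Fun
import Pool.Agent.Helper43K9.LN.Idx
import Pool.Agent.Helper43K9.LN.Nth

/-!
# The toric valuation which bounds the log discrepancy from below
-/

set_option autoImplicit false
set_option linter.unusedSectionVars false
set_option linter.unusedVariables false

namespace Pool.Agent.Helper43K9.LN

open Pool.Agent.H436R3.Fol Pool.Agent.H436R3.KT Pool.Agent.W497.Mld MvPolynomial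
open Pool.Agent.TH165.ACC (pr ex Prim Cn Hs lead part pr_add pr_zero pr_neg pr_sub pr_smul
  pr_smul_right ex_add ex_inj mvI mem_mvI ToricGerm tv can_ge_neg)
open Pool.Agent.Helper43K9.NH
open Pool.Agent.Helper43K9.LS (Kp Red Good red cK pK pK_cK indep_diag exists_J mem_Cn_of_nu
  phi_sum pr_sum_right dot_sum red_eq_zero)

variable {n : ℕ} {L : Type} [Field L] [Algebra ℂ L]

/-- a function of large order whose logarithmic derivatives are not in the span of the monomials -/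
theorem extra {N : ℕ} {E : Fin N → Fin n → ℤ} {V : AffVar L} {y : Fin n → L}
    (yne : ∀ i, y i ≠ 0) {x : Pt V} {v : DVal L} (hv : IsOverGerm x v)
    (hreg : ∀ f : V.R, v.Reg (f : L))
    {F : MvPolynomial (Fin n) ℂ} (Fne : F ≠ 0)
    (hfx : ∀ S ⊆ F.support, ∀ s0 ∈ S, (∀ s ∈ S, ex s - ex s0 ∈ Cn E) →
      ∃ h : V.R, (h : L) * ch y (ex s0) =
        aeval y (∑ s ∈ S, monomial s (F.coeff s)) ∧ x h ≠ 0)
    (hF : aeval y F = 0 ∨ phi (expo F) (wt y v) + 1 ≤ v.ord (aeval y F))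
    {k0 : Fin n} (hk : aeval y (X k0 * pderiv k0 F) ≠ 0)
    (hk' : v.ord (aeval y (X k0 * pderiv k0 F)) = phi (expo F) (wt y v))
    {J : Finset (Fin N)} {m : Fin N → Fin n → ℤ} (hmC : ∀ j ∈ J, m j ∈ Cn E)
    (hmp : ∀ j ∈ J, 0 < pr (m j) (E j)) (hmz : ∀ j ∈ J, ∀ i ∈ J, i ≠ j → pr (m j) (E i) = 0)
    (hex' : phi (expo F) (wt y v) + ∑ j ∈ J, phi (expo F) (E j) =
      phi (expo F) (wt y v + ∑ j ∈ J, E j)) :
    ∃ u, Good y v u ∧
      u ∉ Submodule.span (Kp v) ((fun j => cK v (m j)) '' (J : Set (Fin N))) := by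
  classical
  set w := wt y v with hwd
  set φ := phi (expo F) w with hφ
  have hS := expo_nonempty Fne
  obtain ⟨⟨m0, hm0S, h1⟩, -⟩ := phi_spec hS (w + ∑ j ∈ J, E j)
  obtain ⟨s0, hs0, rfl⟩ := mem_expo.1 hm0S
  rw [pr_add_right, pr_sum_right] at h1
  have h2 := (phi_spec hS w).2 _ hm0S
  have h3 : ∀ j ∈ J, phi (expo F) (E j) ≤ pr (ex s0) (E j) := fun j _ =>
    (phi_spec hS (E j)).2 _ hm0S
  have h4 := Finset.sum_le_sum h3
  have hs0w : pr (ex s0) w = φ := by omega
  have hs0E : ∀ j ∈ J, pr (ex s0) (E j) = phi (expo F) (E j) := by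
    have h5 : ∑ j ∈ J, phi (expo F) (E j) = ∑ j ∈ J, pr (ex s0) (E j) := by omega
    exact fun j hj => ((Finset.sum_eq_sum_iff_of_le h3).1 h5 j hj).symm
  let Q : (Fin n → ℤ) → Prop := fun ν => ∀ j ∈ J, pr (m j) ν = 0
  let S : Finset (Fin n →₀ ℕ) := F.support.filter fun s =>
    pr (ex s) w = φ ∧ ∀ ν, Q ν → pr (ex s - ex s0) ν = 0
  have hSF : S ⊆ F.support := Finset.filter_subset _ _
  have hs0S : s0 ∈ S := Finset.mem_filter.2 ⟨hs0, hs0w, fun ν _ => by rw [sub_self, pr_zero]⟩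
  have hSC : ∀ s ∈ S, ex s - ex s0 ∈ Cn E := by
    intro s hs
    obtain ⟨h5, h6, h7⟩ := Finset.mem_filter.1 hs
    refine mem_Cn_of_nu hmC hmp hmz (fun j hj => ?_) h7
    rw [pr_sub, hs0E j hj]
    have := (phi_spec hS (E j)).2 _ (mem_expo.2 ⟨s, h5, rfl⟩)
    omega
  obtain ⟨h, hh, hxh⟩ := hfx S hSF s0 hs0S hSC
  have hhp : ¬ v.Pos (h : L) := fun h5 => hxh ((hv.2 h).1 h5)
  have hh0 : (h : L) ≠ 0 := fun h5 => hhp (Or.inl h5)
  have hho : v.ord (h : L) = 0 := by
    have h5 := v.ord_nonneg hh0 (hreg h)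
    by_contra h6
    exact hhp (Or.inr (by omega))
  have hne : aeval y (∑ s ∈ S, monomial s (F.coeff s)) ≠ 0 := by
    rw [← hh]
    exact mul_ne_zero hh0 (ch_ne yne _)
  have hord : v.ord (aeval y (∑ s ∈ S, monomial s (F.coeff s))) = φ := by
    rw [← hh, v.map_mul _ _ hh0 (ch_ne yne _), hho, ord_ch yne, zero_add]
    exact hs0w
  obtain ⟨H, ν, hQ, hHs, hH0, hH1, hH2⟩ := exists_H' yne Fne hF hSF
    (fun s hs => (Finset.mem_filter.1 hs).2.1) hs0S hne hord Q
    (fun s hs => (Finset.mem_filter.1 hs).2.2) (fun s hs hs' hsS => by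
      by_contra h5
      push Not at h5
      exact hsS (Finset.mem_filter.2 ⟨hs, hs', h5⟩))
  have hHr := fun l => reg_euler' yne Fne hk hk' hHs l
  refine ⟨_, good_der' yne hk (t := 1) (by rw [hk']; exact hH0) hHr, ?_⟩
  -- not in the span
  intro hsp
  have h5 : Submodule.span (Kp v) ((fun j => cK v (m j)) '' (J : Set (Fin N))) ≤
      LinearMap.ker (pK ν) := by
    rw [Submodule.span_le]
    rintro _ ⟨j, hj, rfl⟩
    change pK ν (cK v (m j)) = 0
    rw [pK_cK, hQ j hj, Int.cast_zero]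
  have h6 : pK ν (fun l => red v ⟨_, hHr l⟩) = 0 := h5 hsp
  let q : Fin n → v.O := fun l => ⟨_, hHr l⟩
  have h7 : pK (v := v) ν (fun l => red v ⟨_, hHr l⟩) = red v (∑ l, q l * ((ν l : ℤ) : v.O)) := by
    rw [map_sum]
    change ∑ l, red v (q l) * (ν l : Kp v) = _
    refine Finset.sum_congr rfl fun l _ => ?_
    rw [map_mul, map_intCast]
  rw [h7, red_eq_zero] at h6
  have h8 : ((∑ l, q l * ((ν l : ℤ) : v.O) : v.O) : L) =
      (∑ l, (ν l : L) * aeval y (X l * pderiv l H)) / aeval y (X k0 * pderiv k0 F) := by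
    rw [Finset.sum_div]
    push_cast
    refine Finset.sum_congr rfl fun l _ => ?_
    simp only [q]
    ring
  rw [h8] at h6
  rcases h6 with h6 | h6
  · exact div_ne_zero hH1 hk h6
  · rw [v.ord_div hH1 hk, hH2, hk', sub_self] at h6
    exact lt_irrefl _ h6

variable {K : Type} [Field K] [Algebra ℂ K]
  [Algebra (MvPolynomial (Fin n) ℂ) K] [IsFractionRing (MvPolynomial (Fin n) ℂ) K]
  [IsScalarTower ℂ (MvPolynomial (Fin n) ℂ) K]

/-- the toric log discrepancy at `w + ∑ E_j` -/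
theorem lb_le {g : ToricGerm n K} {s : ℕ} {F : Fin s → MvPolynomial (Fin n) ℂ} (c : Bdry g F)
    (J : Finset (Fin g.N)) (w : Fin n → ℤ) :
    lb c (w + ∑ j ∈ J, g.E j) ≤ lb c w + J.card - ∑ j, c.b j *
      ((phi (expo (F j)) (w + ∑ j ∈ J, g.E j) - phi (expo (F j)) w -
        ∑ i ∈ J, phi (expo (F j)) (g.E i) : ℤ) : ℝ) := by
  have h1 : ∑ i ∈ J, dot c.ψ (g.E i) ≤
      ∑ i ∈ J, (1 + ∑ j, c.b j * (phi (expo (F j)) (g.E i) : ℝ)) := by
    refine Finset.sum_le_sum fun i _ => ?_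
    rw [c.eq]
    have := c.nonneg i
    linarith
  rw [Finset.sum_add_distrib, Finset.sum_const, nsmul_eq_mul, mul_one, Finset.sum_comm] at h1
  have h2 : ∑ j, c.b j * ((phi (expo (F j)) (w + ∑ j ∈ J, g.E j) - phi (expo (F j)) w -
        ∑ i ∈ J, phi (expo (F j)) (g.E i) : ℤ) : ℝ) =
      ∑ j, c.b j * (phi (expo (F j)) (w + ∑ j ∈ J, g.E j) : ℝ) -
        ∑ j, c.b j * (phi (expo (F j)) w : ℝ) -
        ∑ j, ∑ i ∈ J, c.b j * (phi (expo (F j)) (g.E i) : ℝ) := by
    rw [← Finset.sum_sub_distrib, ← Finset.sum_sub_distrib]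
    refine Finset.sum_congr rfl fun j _ => ?_
    push_cast
    rw [← Finset.mul_sum]
    ring
  rw [h2, lb, lb, dot_add, dot_sum]
  linarith

theorem core (g : ToricGerm n K) {s : ℕ} (F : Fin s → MvPolynomial (Fin n) ℂ)
    (Fne : ∀ j, F j ≠ 0) (hnd : ∀ j, Nondeg g (F j)) : ∃ f : g.X.R, g.P f ≠ 0 ∧
    ∀ x : Pt g.X, x f ≠ 0 → ∀ v, IsOverGerm x v → ∀ c, IsCanOrd g.X.T v c → ∀ b : Bdry g F,
      sumAt b g.P ≤ 1 → ∃ w', g.Inter w' ∧ lb b w' ≤ 1 + (c : ℝ) -
        (∑ j, b.b j * (v.ord (jo (Fin n) K (F j)) : ℝ) - dot b.ψ (tv v)) := by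
  classical
  have yne : ∀ i, cv K i ≠ 0 := fun i => cv_ne (ι := Fin n) (K := K) i
  have hR : g.X.R = AA (cv K) (Cn g.E) := g.hR
  have hP : ∀ f : g.X.R, ∀ m ∈ Cn g.E, m ≠ 0 → (f : K) = ch (cv K) m → g.P f = 0 := g.hP
  choose f hf hfx using fun j => exists_fun' (P := g.P) yne hR hP (F j)
  choose f' hf' hfx' using fun j => exists_nthr g g.P (Fne j)
  refine ⟨(∏ j, f' j) * ∏ j, f j, by
      rw [map_mul, map_prod, map_prod]
      exact mul_ne_zero (Finset.prod_ne_zero_iff.2 fun j _ => hf' j)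
        (Finset.prod_ne_zero_iff.2 fun j _ => hf j),
    fun x hx v hv c hc b hb => ?_⟩
  rw [map_mul, map_prod, map_prod] at hx
  have hx' := Finset.prod_ne_zero_iff.1 (left_ne_zero_of_mul hx)
  replace hx := Finset.prod_ne_zero_iff.1 (right_ne_zero_of_mul hx)
  have hreg : ∀ f : g.X.R, v.Reg (f : K) := by
    obtain ⟨⟨S, -, h1, h2⟩, -⟩ := hv
    exact fun f => h2.1 _ (h1 f.2)
  have hw : ∀ m ∈ Cn g.E, 0 ≤ pr m (wt (cv K) v) := by
    intro m hm
    have hmem : ch (cv K) m ∈ g.X.R := by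
      rw [hR]
      exact ch_mem_AA hm
    rw [← ord_ch yne]
    exact v.ord_nonneg (ch_ne yne _) (hreg ⟨_, hmem⟩)
  obtain ⟨J, hJ, hJm⟩ := exists_J g.full hw
  choose! m hmC hm0 hmp hmz using hJm
  obtain ⟨A, hA0, hA, rfl⟩ := hc.1
  set w : Fin n → ℤ := wt (n := n) (cv K) v with hwd
  obtain ⟨hind, hinj⟩ := indep_diag (v := v) hmp hmz
  let B0 : Finset (Fin n → Kp v) := J.image fun j => cK v (m j)
  have hB0c : B0.card = J.card := Finset.card_image_of_injOn hinj
  have hB0i : LinearIndepOn (Kp v) id (B0 : Set (Fin n → Kp v)) := by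
    rw [Finset.coe_image]
    exact hind.id_image
  have hB0g : ∀ u ∈ B0, Good (cv K) v u := by
    intro u hu
    obtain ⟨j, hj, rfl⟩ := Finset.mem_image.1 hu
    exact good_mon' yne hR hv (hmC j hj) (hm0 j hj)
  have hjo : ∀ j, jo (Fin n) K (F j) = aeval (cv K) (F j) := fun j => by rw [aeval_cv]
  have hFy : ∀ j, aeval (cv K) (F j) ≠ 0 := fun j => by rw [← hjo]; exact jo_ne (Fne j)
  have hge : ∀ j, phi (expo (F j)) w ≤ v.ord (aeval (cv K) (F j)) := fun j =>
    (ge_of_weights yne fun t ht => (phi_expo (Fne j) w).2 t ht).resolve_left (hFy j)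
  have hδ : ∀ j, 0 ≤ phi (expo (F j)) (w + ∑ j ∈ J, g.E j) - phi (expo (F j)) w -
      ∑ i ∈ J, phi (expo (F j)) (g.E i) := fun j => by
    have := phi_sum (expo_nonempty (Fne j)) J (E := g.E) w
    omega
  have hnt : ∀ j, ¬ Thr g (F j) g.P → v.ord (aeval (cv K) (F j)) ≤ phi (expo (F j)) w :=
    fun j hj => by
      rw [← hjo]
      exact hfx' j x (hx' j (Finset.mem_univ j)) hj v hv
  refine ⟨w + ∑ j ∈ J, g.E j, hJ, ?_⟩
  have hlb := lb_le b J w
  have htv : (tv v : Fin n → ℤ) = w := rfl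
  -- the final estimate
  have hfin : ∀ T : ℤ, 0 ≤ T → (∀ j, v.ord (aeval (cv K) (F j)) - phi (expo (F j)) w -
      (phi (expo (F j)) (w + ∑ j ∈ J, g.E j) - phi (expo (F j)) w -
      ∑ i ∈ J, phi (expo (F j)) (g.E i)) ≤ T) → (J.card : ℤ) + T ≤ 1 + v.ord A.det →
      lb b (w + ∑ j ∈ J, g.E j) ≤ 1 + (v.ord A.det : ℝ) -
        (∑ j, b.b j * (v.ord (jo (Fin n) K (F j)) : ℝ) - dot b.ψ (tv v)) := by
    intro T hT0 hT hJT
    have h1 : ∑ j, b.b j * ((v.ord (aeval (cv K) (F j)) - phi (expo (F j)) w -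
      (phi (expo (F j)) (w + ∑ j ∈ J, g.E j) - phi (expo (F j)) w -
      ∑ i ∈ J, phi (expo (F j)) (g.E i)) : ℤ) : ℝ) ≤
      ∑ j, (if Thr g (F j) g.P then b.b j else 0) * (T : ℝ) := by
      refine Finset.sum_le_sum fun j _ => ?_
      by_cases hj : Thr g (F j) g.P
      · rw [if_pos hj]
        exact mul_le_mul_of_nonneg_left (by exact_mod_cast hT j) (b.bnn j)
      · rw [if_neg hj, zero_mul]
        have h5 : (v.ord (aeval (cv K) (F j)) - phi (expo (F j)) w -
          (phi (expo (F j)) (w + ∑ j ∈ J, g.E j) - phi (expo (F j)) w -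
          ∑ i ∈ J, phi (expo (F j)) (g.E i))) ≤ 0 := by
          have := hnt j hj
          have := hδ j
          omega
        exact mul_nonpos_of_nonneg_of_nonpos (b.bnn j) (by exact_mod_cast h5)
    have h2 : ∑ j, (if Thr g (F j) g.P then b.b j else 0) * (T : ℝ) ≤ T := by
      rw [← Finset.sum_mul]
      have h3 : (0 : ℝ) ≤ T := by exact_mod_cast hT0
      have h4 : (∑ j, if Thr g (F j) g.P then b.b j else 0) ≤ 1 := by
        unfold sumAt at hb
        convert hb
      nlinarith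
    have h3 : ∑ j, b.b j * ((v.ord (aeval (cv K) (F j)) - phi (expo (F j)) w -
      (phi (expo (F j)) (w + ∑ j ∈ J, g.E j) - phi (expo (F j)) w -
      ∑ i ∈ J, phi (expo (F j)) (g.E i)) : ℤ) : ℝ) =
        ∑ j, b.b j * (v.ord (jo (Fin n) K (F j)) : ℝ) -
        ∑ j, b.b j * (phi (expo (F j)) w : ℝ) -
        ∑ j, b.b j * ((phi (expo (F j)) (w + ∑ j ∈ J, g.E j) - phi (expo (F j)) w -
        ∑ i ∈ J, phi (expo (F j)) (g.E i) : ℤ) : ℝ) := by
      rw [← Finset.sum_sub_distrib, ← Finset.sum_sub_distrib]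
      refine Finset.sum_congr rfl fun j _ => ?_
      rw [hjo]
      push_cast
      ring
    have h4 : (J.card : ℝ) + T ≤ 1 + (v.ord A.det : ℝ) := by exact_mod_cast hJT
    have h5 : lb b w = dot b.ψ (tv v) - ∑ j, b.b j * (phi (expo (F j)) w : ℝ) := rfl
    linarith
  by_cases hI : ∃ j, phi (expo (F j)) w + 1 ≤ v.ord (aeval (cv K) (F j))
  swap
  · -- all the equations have the least order
    push Not at hI
    refine hfin 0 le_rfl (fun j => by have := hI j; have := hδ j; omega) ?_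
    by_cases hJ0 : J = ∅
    · have := can_ge_neg g.e g.hT v A hA0 hA
      rw [hJ0, Finset.card_empty]
      push_cast
      omega
    · obtain ⟨j, hj⟩ := Finset.nonempty_iff_ne_empty.2 hJ0
      have hjB : cK v (m j) ∈ B0 := Finset.mem_image_of_mem _ hj
      have hpos : 0 < J.card := Finset.card_pos.2 ⟨j, hj⟩
      have h1 := low g (θ := cK v (m j)) (t := 1) (fun h0 => by
          exact (hB0i.ne_zero hjB) h0) (hB0g _ hjB) hB0g hB0i (r := J.card - 1)
        (by omega) A hA0 hA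
      omega
  · -- the equation of the largest excess
    obtain ⟨j0, -, hmax⟩ := Finset.exists_max_image (Finset.univ : Finset (Fin s))
      (fun j => v.ord (aeval (cv K) (F j)) - phi (expo (F j)) w)
      ⟨hI.choose, Finset.mem_univ _⟩
    have hmax' : ∀ j, v.ord (aeval (cv K) (F j)) - phi (expo (F j)) w ≤
        v.ord (aeval (cv K) (F j0)) - phi (expo (F j0)) w := fun j => hmax j (Finset.mem_univ j)
    have hj0 : phi (expo (F j0)) w + 1 ≤ v.ord (aeval (cv K) (F j0)) := by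
      obtain ⟨j, hj⟩ := hI
      have := hmax' j
      omega
    set T := v.ord (aeval (cv K) (F j0)) - phi (expo (F j0)) w with hT
    have hidx : ∀ j, phi (expo (F j)) w + 1 ≤ v.ord (aeval (cv K) (F j)) →
        ∃ k : Fin n, aeval (cv K) (X k * pderiv k (F j)) ≠ 0 ∧
          v.ord (aeval (cv K) (X k * pderiv k (F j))) = phi (expo (F j)) w := fun j hj =>
      exists_index2 yne (Fne j) (Or.inr hj) (hnd j w hw)
    obtain ⟨k0, hk, hk'⟩ := hidx j0 hj0
    have hθr := fun l => reg_euler' yne (Fne j0) hk hk' (Finset.Subset.refl (F j0).support) l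
    have hθ : GoodT (cv K) v T (fun l => red v ⟨_, hθr l⟩) :=
      good_der' yne hk (Or.inr (by rw [hk']; omega)) hθr
    have hθ0 : (fun l => red v ⟨_, hθr l⟩) ≠ (0 : Fin n → Kp v) := by
      intro h1
      have h2 := congrFun h1 k0
      change red v _ = (0 : Kp v) at h2
      rw [red_eq_zero] at h2
      change v.Pos (aeval (cv K) (X k0 * pderiv k0 (F j0)) /
        aeval (cv K) (X k0 * pderiv k0 (F j0))) at h2
      rw [div_self hk] at h2
      rcases h2 with h2 | h2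
      · exact one_ne_zero h2
      · rw [v.ord_one] at h2
        exact lt_irrefl _ h2
    by_cases hex : ∃ j, phi (expo (F j)) w + 1 ≤ v.ord (aeval (cv K) (F j)) ∧
        phi (expo (F j)) w + ∑ i ∈ J, phi (expo (F j)) (g.E i) =
          phi (expo (F j)) (w + ∑ i ∈ J, g.E i)
    · obtain ⟨j, hj1, hj2⟩ := hex
      obtain ⟨k1, hk1, hk1'⟩ := hidx j hj1
      obtain ⟨u, hu, hus⟩ := extra (E := g.E) yne hv hreg (Fne j)
        (hfx j x (hx j (Finset.mem_univ j))) (Or.inr hj1) hk1 hk1' hmC hmp hmz hj2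
      rw [← Finset.coe_image] at hus
      change u ∉ Submodule.span (Kp v) (B0 : Set (Fin n → Kp v)) at hus
      have h1 := low g hθ0 hθ (B := insert u B0) (r := J.card) (by
          intro u' hu'
          rcases Finset.mem_insert.1 hu' with rfl | h
          · exact hu
          · exact hB0g _ h) (by
          rw [Finset.coe_insert]
          exact hB0i.id_insert hus) (by
          rw [Finset.card_insert_of_notMem fun h => hus (Submodule.subset_span h), hB0c])
        A hA0 hA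
      refine hfin T (by omega) (fun j => ?_) (by omega)
      have := hmax' j
      have := hδ j
      omega
    · push Not at hex
      have hδ1 : ∀ j, phi (expo (F j)) w + 1 ≤ v.ord (aeval (cv K) (F j)) →
          1 ≤ phi (expo (F j)) (w + ∑ j ∈ J, g.E j) - phi (expo (F j)) w -
            ∑ i ∈ J, phi (expo (F j)) (g.E i) := by
        intro j hj
        have h1 := hex j hj
        have h2 := hδ j
        omega
      have hpos : 0 < J.card := by
        rw [Finset.card_pos, Finset.nonempty_iff_ne_empty]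
        rintro rfl
        have h1 := hδ1 j0 hj0
        simp at h1
      have h1 := low g hθ0 hθ hB0g hB0i (r := J.card - 1) (by omega) A hA0 hA
      refine hfin (T - 1) (by omega) (fun j => ?_) (by omega)
      have h2 := hmax' j
      have h3 := hδ j
      by_cases hj : phi (expo (F j)) w + 1 ≤ v.ord (aeval (cv K) (F j))
      · have := hδ1 j hj
        omega
      · omega

end Pool.Agent.Helper43K9.LN
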