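import Pool.Agent.Helper43K9.LN.Gam

/-!
# The lower bound near an arbitrary closed point
-/

set_option autoImplicit false
set_option linter.unusedSectionVars false
set_option linter.unusedVariables false

namespace Pool.Agent.Helper43K9.LN

open Pool.Agent.H436R3.Fol Pool.Agent.H436R3.KT Pool.Agent.W497.Mld
open MvPolynomial hiding X
open Pool.Agent.TH165.ACC (pr ex Prim Cn Hs lead part pr_add pr_zero pr_neg pr_sub pr_smul
  pr_smul_right ex_add ex_inj mvI mem_mvI ToricGerm tv can_ge_neg)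
open Pool.Agent.Helper43K9.NH
open Pool.Agent.Helper43K9.LS (Kp Red Good red cK pK pK_cK intCast_ne phi_sum red_eq_zero)
open Pool.Agent.Helper58K9.LQ (chi chi_eq chi_zero chi_add)

variable {n : ℕ} {K : Type} [Field K] [Algebra ℂ K]
  [Algebra (MvPolynomial (Fin n) ℂ) K] [IsFractionRing (MvPolynomial (Fin n) ℂ) K]
  [IsScalarTower ℂ (MvPolynomial (Fin n) ℂ) K]

open Classical in
/-- the sums of the classes -/
noncomputable def cls {g : ToricGerm n K} {x0 : Pt g.X} (D : FD g x0)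
    (F : MvPolynomial (Fin n) ℂ) (S : Finset (Fin n →₀ ℕ)) (s0 : Fin n →₀ ℕ) : ℂ :=
  ∑ s ∈ S, if ex s - ex s0 ∈ D.Λ then F.coeff s * D.τ (ex s - ex s0) else 0

theorem tau_Na {g : ToricGerm n K} {x0 : Pt g.X} (D : FD g x0) (m q : Fin n → ℤ) :
    D.τ (m + q) = D.τ m * D.τ q := D.τa m q

theorem exists_h2 {g : ToricGerm n K} {x0 : Pt g.X} (D : FD g x0) (F : MvPolynomial (Fin n) ℂ)
    (S : Finset (Fin n →₀ ℕ)) (s0 : Fin n →₀ ℕ)
    (hC : ∀ s ∈ S, ∀ i ∈ D.I0, 0 ≤ pr (ex s - ex s0) (g.E i)) :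
    ∃ (h : g.X.R) (q : Fin n → ℤ), q ∈ D.Λ ∧ (h : K) * ch (cv K) (ex s0) =
      ch (cv K) q * aeval (cv K) (∑ s ∈ S, monomial s (F.coeff s)) ∧
      x0 h = D.τ q * cls D F S s0 := by
  classical
  have yne : ∀ i, cv K i ≠ 0 := fun i => cv_ne (ι := Fin n) (K := K) i
  obtain ⟨N, hN⟩ := exists_N D (S.image fun s : Fin n →₀ ℕ => ex s - ex s0) fun m hm i hi => by
    obtain ⟨s, hs, rfl⟩ := Finset.mem_image.1 hm
    exact hC s hs i hi
  set q := (N : ℤ) • D.a with hq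
  have hN' : ∀ s ∈ S, ex s - ex s0 + q ∈ Cn g.E := fun s hs =>
    hN _ (Finset.mem_image_of_mem _ hs)
  let f : (Fin (n) →₀ ℕ) → g.X.R := fun s =>
    if hs : s ∈ S then ⟨ch (cv K) (ex s - ex s0 + q), ch_mem (hN' s hs)⟩ else 0
  have hf : ∀ s ∈ S, (f s : K) = ch (cv K) (ex s - ex s0 + q) := by
    intro s hs
    simp only [f]
    rw [dif_pos hs]
  have hqΛ : q ∈ D.Λ := D.Λ.smul_mem _ D.ha
  refine ⟨∑ s ∈ S, algebraMap ℂ g.X.R (F.coeff s) * f s, q, hqΛ, ?_, ?_⟩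
  · push_cast
    rw [Finset.sum_mul, map_sum, Finset.mul_sum]
    refine Finset.sum_congr rfl fun s hs => ?_
    rw [hf s hs, aeval_mon, mul_assoc, ← ch_add yne]
    have h1 : ex s - ex s0 + q + ex s0 = q + ex s := by
      funext l
      simp only [Pi.add_apply, Pi.sub_apply]
      ring
    rw [h1, ch_add yne]
    change algebraMap ℂ K (F.coeff s) * _ = _
    ring
  · rw [map_sum, cls, Finset.mul_sum]
    refine Finset.sum_congr rfl fun s hs => ?_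
    rw [map_mul, AlgHom.commutes]
    have h1 : x0 (f s) = chi x0 (ex s - ex s0 + q) := chi_eq _ (hf s hs)
    rw [h1]
    by_cases h2 : ex s - ex s0 ∈ D.Λ
    · rw [if_pos h2, D.chi_F _ (hN' s hs) (D.Λ.add_mem h2 hqΛ), D.τa]
      change F.coeff s * _ = _
      ring
    · rw [if_neg h2, D.chi_0 _ (hN' s hs) (fun h3 => h2 (by
        have := D.Λ.sub_mem h3 hqΛ
        rwa [add_sub_cancel_right] at this)), mul_zero, mul_zero]

/-- [FUN] -/
theorem exists_fun2 {g : ToricGerm n K} {x0 : Pt g.X} (D : FD g x0)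
    (F : MvPolynomial (Fin n) ℂ) : ∃ f : g.X.R, x0 f ≠ 0 ∧ ∀ x : Pt g.X, x f ≠ 0 →
    chi x D.a ≠ 0 ∧ ∀ S ⊆ F.support, ∀ s0 ∈ S,
      (∀ s ∈ S, ∀ i ∈ D.I0, 0 ≤ pr (ex s - ex s0) (g.E i)) → cls D F S s0 ≠ 0 →
      ∃ (h : g.X.R) (q : Fin n → ℤ), q ∈ D.Λ ∧ (h : K) * ch (cv K) (ex s0) =
        ch (cv K) q * aeval (cv K) (∑ s ∈ S, monomial s (F.coeff s)) ∧ x h ≠ 0 := by
  classical
  have hex : ∀ p : Finset (Fin (n) →₀ ℕ) × (Fin (n) →₀ ℕ), ∃ (h : g.X.R) (q : Fin n → ℤ),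
      x0 h ≠ 0 ∧ ((∀ s ∈ p.1, ∀ i ∈ D.I0, 0 ≤ pr (ex s - ex p.2) (g.E i)) →
        cls D F p.1 p.2 ≠ 0 → q ∈ D.Λ ∧ (h : K) * ch (cv K) (ex p.2) =
        ch (cv K) q * aeval (cv K) (∑ s ∈ p.1, monomial s (F.coeff s))) := by
    rintro ⟨S, s0⟩
    by_cases h : (∀ s ∈ S, ∀ i ∈ D.I0, 0 ≤ pr (ex s - ex s0) (g.E i)) ∧ cls D F S s0 ≠ 0
    · obtain ⟨h3, h4⟩ := h
      obtain ⟨h, q, h5, h6, h7⟩ := exists_h2 D F S s0 h3
      exact ⟨h, q, by rw [h7]; exact mul_ne_zero (D.τ0 _) h4, fun _ _ => ⟨h5, h6⟩⟩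
    · refine ⟨1, 0, by rw [map_one]; exact one_ne_zero, fun h1 h2 => absurd ⟨h1, h2⟩ h⟩
  choose h q h1 h2 using hex
  refine ⟨⟨ch (cv K) D.a, ch_mem (a_mem D)⟩ * ∏ p ∈ F.support.powerset ×ˢ F.support, h p, ?_, ?_⟩
  · rw [map_mul, map_prod]
    refine mul_ne_zero ?_ (Finset.prod_ne_zero_iff.2 fun p _ => h1 p)
    rw [ch_chi (a_mem D)]
    exact chi_x0_a D
  · intro x hx
    rw [map_mul, map_prod] at hx
    have hx1 := left_ne_zero_of_mul hx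
    have hx2 := Finset.prod_ne_zero_iff.1 (right_ne_zero_of_mul hx)
    rw [ch_chi (a_mem D)] at hx1
    refine ⟨hx1, fun S hS s0 hs0 hC hcl => ?_⟩
    obtain ⟨h3, h4⟩ := h2 (S, s0) hC hcl
    exact ⟨h (S, s0), q (S, s0), h3, h4,
      hx2 (S, s0) (Finset.mem_product.2 ⟨Finset.mem_powerset.2 hS, hS hs0⟩)⟩

/-- nonnegative pairings -/
theorem nonneg_of_nu {g : ToricGerm n K} {x0 : Pt g.X} (D : FD g x0) {J : Finset (Fin g.N)}
    (hJ : J ⊆ D.I0) {m : Fin g.N → Fin n → ℤ} (hmC : ∀ j ∈ J, m j ∈ Cn g.E)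
    (hmp : ∀ j ∈ J, 0 < pr (m j) (g.E j))
    (hmz : ∀ j ∈ J, ∀ i ∈ J, i ≠ j → pr (m j) (g.E i) = 0) {δ : Fin n → ℤ}
    (h0 : ∀ j ∈ J, 0 ≤ pr δ (g.E j))
    (h : ∀ ν, (∀ j ∈ J, pr (m j) ν = 0) → (∀ m' ∈ D.Λ, pr m' ν = 0) → pr δ ν = 0)
    {i : Fin g.N} (hi : i ∈ D.I0) : 0 ≤ pr δ (g.E i) := by
  classical
  set Dd : ℤ := ∏ j ∈ J, pr (m j) (g.E j) with hD
  have hDpos : 0 < Dd := Finset.prod_pos hmp
  set P : Fin g.N → ℤ := fun j => ∏ i ∈ J.erase j, pr (m i) (g.E i) with hP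
  have hPD : ∀ j ∈ J, P j * pr (m j) (g.E j) = Dd := fun j hj => by
    rw [hP, hD]
    exact Finset.prod_erase_mul J _ hj
  have hPpos : ∀ j ∈ J, 0 ≤ P j := fun j hj =>
    Finset.prod_nonneg fun i hi => (hmp i (Finset.mem_of_mem_erase hi)).le
  have hsum : ∀ (u : Fin n → ℤ) (c : Fin g.N → ℤ),
      pr u (∑ j ∈ J, c j • g.E j) = ∑ j ∈ J, c j * pr u (g.E j) := by
    intro u c
    rw [pr_sumE (fun j => c j • g.E j) J u]
    exact Finset.sum_congr rfl fun j _ => by rw [pr_smul_right]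
  set ν : Fin n → ℤ := Dd • g.E i + ∑ j ∈ J, (-(P j * pr (m j) (g.E i))) • g.E j with hν
  have h1 : ∀ u : Fin n → ℤ, pr u ν = Dd * pr u (g.E i) +
      ∑ j ∈ J, (-(P j * pr (m j) (g.E i))) * pr u (g.E j) := by
    intro u
    rw [hν, pr_add_right, pr_smul_right, hsum]
  have h3 := h ν (fun j hj => by
    rw [h1, Finset.sum_eq_single_of_mem j hj]
    · have := hPD j hj
      linear_combination (-pr (m j) (g.E i)) * this
    · intro k hk hkj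
      rw [hmz j hj k hk hkj, mul_zero]) (fun m' hm' => by
    rw [h1, (D.hΛ _).1 hm' i hi, Finset.sum_eq_zero, mul_zero, zero_add]
    intro j hj
    rw [(D.hΛ _).1 hm' j (hJ hj), mul_zero])
  rw [h1] at h3
  have h4 : ∑ j ∈ J, (-(P j * pr (m j) (g.E i))) * pr δ (g.E j) ≤ 0 := by
    refine Finset.sum_nonpos fun j hj => ?_
    have := mul_nonneg (mul_nonneg (hPpos j hj) (hmC j hj i)) (h0 j hj)
    linarith
  have h5 : 0 ≤ Dd * pr δ (g.E i) := by linarith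
  exact nonneg_of_mul_nonneg_right h5 hDpos

/-- a function of large order whose logarithmic derivatives are not in the span of the monomials -/
theorem extra2 {g : ToricGerm n K} {x0 : Pt g.X} (D : FD g x0) {x : Pt g.X} {v : DVal K}
    (hv : IsOverGerm x v) (hxa : chi x D.a ≠ 0)
    {F : MvPolynomial (Fin n) ℂ} (Fne : F ≠ 0)
    (hfx : ∀ S ⊆ F.support, ∀ s0 ∈ S,
      (∀ s ∈ S, ∀ i ∈ D.I0, 0 ≤ pr (ex s - ex s0) (g.E i)) → cls D F S s0 ≠ 0 →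
      ∃ (h : g.X.R) (q : Fin n → ℤ), q ∈ D.Λ ∧ (h : K) * ch (cv K) (ex s0) =
        ch (cv K) q * aeval (cv K) (∑ s ∈ S, monomial s (F.coeff s)) ∧ x h ≠ 0)
    (hF : aeval (cv K) F = 0 ∨
      phi (expo F) (wt (n := n) (cv K) v) + 1 ≤ v.ord (aeval (cv K) F))
    {k0 : Fin n} (hk : aeval (cv K) (MvPolynomial.X k0 * pderiv k0 F) ≠ 0)
    (hk' : v.ord (aeval (cv K) (MvPolynomial.X k0 * pderiv k0 F)) = phi (expo F) (wt (cv K) v))
    {J : Finset (Fin g.N)} (hJ : J ⊆ D.I0) {m : Fin g.N → Fin n → ℤ}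
    (hmC : ∀ j ∈ J, m j ∈ Cn g.E)
    (hmp : ∀ j ∈ J, 0 < pr (m j) (g.E j))
    (hmz : ∀ j ∈ J, ∀ i ∈ J, i ≠ j → pr (m j) (g.E i) = 0)
    (hex' : phi (expo F) (wt (cv K) v) + ∑ j ∈ J, phi (expo F) (g.E j) =
      phi (expo F) (wt (cv K) v + ∑ j ∈ J, g.E j))
    (hcl : ∃ s0 ∈ F.support, pr (ex s0) (wt (cv K) v + ∑ j ∈ J, g.E j) =
      phi (expo F) (wt (cv K) v + ∑ j ∈ J, g.E j) ∧ cls D F F.support s0 ≠ 0) :
    ∃ u, Good (cv K) v u ∧ ∀ B : Set (Fin n → Kp v),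
      (∀ b ∈ B, (∃ j ∈ J, b = cK v (m j)) ∨ ∃ m' ∈ D.Λ, b = cK v m') →
      u ∉ Submodule.span (Kp v) B := by
  classical
  have yne : ∀ i, cv K i ≠ 0 := fun i => cv_ne (ι := Fin n) (K := K) i
  have hreg : ∀ f : g.X.R, v.Reg (f : K) := by
    obtain ⟨⟨S, -, h1, h2⟩, -⟩ := hv
    exact fun f => h2.1 _ (h1 f.2)
  have hwΛ : ∀ m' ∈ D.Λ, pr m' (wt (cv K) v) = 0 := fun m' hm' => pr_lam D hxa hv hm'
  set w : Fin n → ℤ := wt (n := n) (cv K) v with hwd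
  set φ := phi (expo F) w with hφ
  have hS := expo_nonempty Fne
  obtain ⟨s0, hs0, h1, hcl0⟩ := hcl
  have hm0S : ex s0 ∈ expo F := mem_expo.2 ⟨s0, hs0, rfl⟩
  rw [pr_add_right, pr_sumE] at h1
  have h2 := (phi_spec hS w).2 _ hm0S
  have h3 : ∀ j ∈ J, phi (expo F) (g.E j) ≤ pr (ex s0) (g.E j) := fun j _ =>
    (phi_spec hS (g.E j)).2 _ hm0S
  have h4 := Finset.sum_le_sum h3
  have hs0w : pr (ex s0) w = φ := by omega
  have hs0E : ∀ j ∈ J, pr (ex s0) (g.E j) = phi (expo F) (g.E j) := by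
    have h5 : ∑ j ∈ J, phi (expo F) (g.E j) = ∑ j ∈ J, pr (ex s0) (g.E j) := by omega
    exact fun j hj => ((Finset.sum_eq_sum_iff_of_le h3).1 h5 j hj).symm
  let Q : (Fin n → ℤ) → Prop := fun ν => (∀ j ∈ J, pr (m j) ν = 0) ∧ ∀ m' ∈ D.Λ, pr m' ν = 0
  let S : Finset (Fin n →₀ ℕ) := F.support.filter fun s =>
    pr (ex s) w = φ ∧ ∀ ν, Q ν → pr (ex s - ex s0) ν = 0
  have hSF : S ⊆ F.support := Finset.filter_subset _ _
  have hs0S : s0 ∈ S := Finset.mem_filter.2 ⟨hs0, hs0w, fun ν _ => by rw [sub_self, pr_zero]⟩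
  have hSC : ∀ s ∈ S, ∀ i ∈ D.I0, 0 ≤ pr (ex s - ex s0) (g.E i) := by
    intro s hs i hi
    obtain ⟨h5, h6, h7⟩ := Finset.mem_filter.1 hs
    refine nonneg_of_nu D hJ hmC hmp hmz (fun j hj => ?_) (fun ν h8 h9 => h7 ν ⟨h8, h9⟩) hi
    rw [pr_sub, hs0E j hj]
    have := (phi_spec hS (g.E j)).2 _ (mem_expo.2 ⟨s, h5, rfl⟩)
    omega
  have hclS : cls D F S s0 = cls D F F.support s0 := by
    unfold cls
    refine Finset.sum_subset hSF fun s hs hsS => ?_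
    rw [if_neg]
    intro h5
    apply hsS
    refine Finset.mem_filter.2 ⟨hs, ?_, fun ν hν => hν.2 _ h5⟩
    have h6 := hwΛ _ h5
    rw [pr_sub] at h6
    omega
  obtain ⟨h, q, hqΛ, hh, hxh⟩ := hfx S hSF s0 hs0S hSC (by rw [hclS]; exact hcl0)
  have hhp : ¬ v.Pos (h : K) := fun h5 => hxh ((hv.2 h).1 h5)
  have hh0 : (h : K) ≠ 0 := fun h5 => hhp (Or.inl h5)
  have hho : v.ord (h : K) = 0 := by
    have h5 := v.ord_nonneg hh0 (hreg h)
    by_contra h6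
    exact hhp (Or.inr (by omega))
  have hne : aeval (cv K) (∑ s ∈ S, monomial s (F.coeff s)) ≠ 0 := by
    intro h5
    rw [h5, mul_zero] at hh
    exact mul_ne_zero hh0 (ch_ne yne _) hh
  have hord : v.ord (aeval (cv K) (∑ s ∈ S, monomial s (F.coeff s))) = φ := by
    have h5 := congrArg v.ord hh
    rw [v.map_mul _ _ hh0 (ch_ne yne _), v.map_mul _ _ (ch_ne yne _) hne, hho, ord_ch yne,
      ord_ch yne, zero_add, ← hwd, hwΛ q hqΛ, hs0w, zero_add] at h5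
    exact h5.symm
  obtain ⟨H, ν, hQ, hHs, hH0, hH1, hH2⟩ := exists_H' yne Fne hF hSF
    (fun s hs => (Finset.mem_filter.1 hs).2.1) hs0S hne hord Q
    (fun s hs => (Finset.mem_filter.1 hs).2.2) (fun s hs hs' hsS => by
      by_contra h5
      push Not at h5
      exact hsS (Finset.mem_filter.2 ⟨hs, hs', h5⟩))
  have hHr := fun l => reg_euler' yne Fne hk hk' hHs l
  refine ⟨_, good_der' yne hk (t := 1) (by rw [hk']; exact hH0) hHr, fun B hB hsp => ?_⟩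
  -- not in the span
  have h5 : Submodule.span (Kp v) B ≤ LinearMap.ker (pK ν) := by
    rw [Submodule.span_le]
    intro b hb
    change pK ν b = 0
    rcases hB b hb with ⟨j, hj, rfl⟩ | ⟨m', hm', rfl⟩
    · rw [pK_cK, hQ.1 j hj, Int.cast_zero]
    · rw [pK_cK, hQ.2 m' hm', Int.cast_zero]
  have h6 : pK ν (fun l => red v ⟨_, hHr l⟩) = 0 := h5 hsp
  let q' : Fin n → v.O := fun l => ⟨_, hHr l⟩
  have h7 : pK (v := v) ν (fun l => red v ⟨_, hHr l⟩) = red v (∑ l, q' l * ((ν l : ℤ) : v.O)) := by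
    rw [map_sum]
    change ∑ l, red v (q' l) * (ν l : Kp v) = _
    refine Finset.sum_congr rfl fun l _ => ?_
    rw [map_mul, map_intCast]
  rw [h7, red_eq_zero] at h6
  have h8 : ((∑ l, q' l * ((ν l : ℤ) : v.O) : v.O) : K) =
      (∑ l, (ν l : K) * aeval (cv K) (MvPolynomial.X l * pderiv l H)) /
        aeval (cv K) (MvPolynomial.X k0 * pderiv k0 F) := by
    rw [Finset.sum_div]
    push_cast
    refine Finset.sum_congr rfl fun l _ => ?_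
    simp only [q']
    ring
  rw [h8] at h6
  rcases h6 with h6 | h6
  · exact div_ne_zero hH1 hk h6
  · rw [v.ord_div hH1 hk, hH2, hk', sub_self] at h6
    exact lt_irrefl _ h6

end Pool.Agent.Helper43K9.LN
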