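import Pool.Agent.Helper43K9.LN.Core2

/-!
# The quasimonomial valuation which bounds the log discrepancy from below
-/

set_option autoImplicit false
set_option linter.unusedSectionVars false
set_option linter.unusedVariables false

namespace Pool.Agent.Helper43K9.LN

open Pool.Agent.H436R3.Fol Pool.Agent.H436R3.KT Pool.Agent.W497.Mld
open MvPolynomial hiding X
open Pool.Agent.TH165.ACC (pr ex Prim Cn Hs lead part pr_add pr_zero pr_neg pr_sub pr_smul
  pr_smul_right ex_add ex_inj mvI mem_mvI ToricGerm tv can_ge_neg)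
open Pool.Agent.Helper43K9.NH
open Pool.Agent.Helper43K9.LS (Kp Red Good red cK pK pK_cK intCast_ne phi_sum red_eq_zero)
open Pool.Agent.Helper58K9.LQ (chi chi_eq chi_zero chi_add)

variable {n : ℕ} {K : Type} [Field K] [Algebra ℂ K]
  [Algebra (MvPolynomial (Fin n) ℂ) K] [IsFractionRing (MvPolynomial (Fin n) ℂ) K]
  [IsScalarTower ℂ (MvPolynomial (Fin n) ℂ) K]

/-- all the sums of the classes of least weight are zero -/
def IsCl {g : ToricGerm n K} {x0 : Pt g.X} (D : FD g x0) (F : MvPolynomial (Fin n) ℂ)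
    (w : Fin n → ℤ) : Prop :=
  ∀ s0 ∈ F.support, pr (ex s0) w = phi (expo F) w → cls D F F.support s0 = 0

open Classical in
/-- the excess at the closed point -/
noncomputable def exc {g : ToricGerm n K} {x0 : Pt g.X} (D : FD g x0)
    (F : MvPolynomial (Fin n) ℂ) (w : Fin n → ℤ) : ℤ := if IsCl D F w then 1 else 0

theorem core2 {g : ToricGerm n K} {x0 : Pt g.X} (D : FD g x0)
    {C : Matrix (Fin n) (Fin n) ℤ} (hC : IsUnit C.det) {I : Finset (Fin n)}
    (hI : ∀ i ∈ I, C i ∈ D.Λ) (hI0 : 0 < I.card) {s : ℕ} (F : Fin s → MvPolynomial (Fin n) ℂ)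
    (Fne : ∀ j, F j ≠ 0) (hnd : ∀ j, Nondeg g (F j)) : ∃ f : g.X.R, x0 f ≠ 0 ∧
    ∀ x : Pt g.X, x f ≠ 0 → ∀ v, IsOverGerm x v → ∀ c, IsCanOrd g.X.T v c → ∀ b : Bdry g F,
      sumAt b x0 ≤ 1 → ∃ w', RInt D w' ∧ I.card + (lb b w' - ∑ j, b.b j * (exc D (F j) w' : ℝ)) ≤ 1 + (c : ℝ) -
        (∑ j, b.b j * (v.ord (jo (Fin n) K (F j)) : ℝ) - dot b.ψ (tv v)) := by
  classical
  have yne : ∀ i, cv K i ≠ 0 := fun i => cv_ne (ι := Fin n) (K := K) i
  have hR : g.X.R = AA (cv K) (Cn g.E) := g.hR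
  choose f hf hfx using fun j => exists_fun2 D (F j)
  choose f' hf' hfx' using fun j => exists_nthr g x0 (Fne j)
  refine ⟨⟨ch (cv K) D.a, ch_mem (a_mem D)⟩ * ((∏ j, f' j) * ∏ j, f j), by
      rw [map_mul, map_mul, map_prod, map_prod, ch_chi (a_mem D)]
      exact mul_ne_zero (chi_x0_a D) (mul_ne_zero
        (Finset.prod_ne_zero_iff.2 fun j _ => hf' j)
        (Finset.prod_ne_zero_iff.2 fun j _ => hf j)),
    fun x hx v hv c hc b hb => ?_⟩
  rw [map_mul, map_mul, map_prod, map_prod, ch_chi (a_mem D)] at hx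
  have hxa := left_ne_zero_of_mul hx
  have hx' := Finset.prod_ne_zero_iff.1 (left_ne_zero_of_mul (right_ne_zero_of_mul hx))
  replace hx := Finset.prod_ne_zero_iff.1 (right_ne_zero_of_mul (right_ne_zero_of_mul hx))
  have hw : ∀ m ∈ Cn g.E, 0 ≤ pr m (wt (cv K) v) := fun m hm => ord_mon hv hm
  have hwΛ : ∀ m' ∈ D.Λ, pr m' (wt (cv K) v) = 0 := fun m' hm' => pr_lam D hxa hv hm'
  obtain ⟨J, hJI, hJ, hJm⟩ := exists_J2 D hw hwΛ
  choose! m hmC hm0 hmp hmz using hJm
  obtain ⟨A, hA0, hA, rfl⟩ := hc.1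
  set w : Fin n → ℤ := wt (n := n) (cv K) v with hwd
  obtain ⟨B0, hB0c, hB0i, hB0e⟩ := indep_joint D (v := v) hC hI hJI hmp hmz
  have hB0f : ∀ u ∈ B0, (∃ j ∈ J, u = cK v (m j)) ∨ ∃ m' ∈ D.Λ, u = cK v m' := by
    intro u hu
    have h1 : u ∈ (B0 : Set (Fin n → Kp v)) := hu
    rw [hB0e] at h1
    rcases h1 with ⟨j, hj, rfl⟩ | ⟨i, hi, rfl⟩
    · exact Or.inl ⟨j, hj, rfl⟩
    · exact Or.inr ⟨C i, hI i hi, rfl⟩
  have hB0g : ∀ u ∈ B0, Good (cv K) v u := by
    intro u hu
    rcases hB0f u hu with ⟨j, hj, rfl⟩ | ⟨m', hm', rfl⟩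
    · exact good_mon' yne hR hv (hmC j hj) (hm0 j hj)
    · exact good_lam D hxa hv hm'
  have hjo : ∀ j, jo (Fin n) K (F j) = aeval (cv K) (F j) := fun j => by rw [aeval_cv]
  have hFy : ∀ j, aeval (cv K) (F j) ≠ 0 := fun j => by rw [← hjo]; exact jo_ne (Fne j)
  have hge : ∀ j, phi (expo (F j)) w ≤ v.ord (aeval (cv K) (F j)) := fun j =>
    (ge_of_weights yne fun t ht => (phi_expo (Fne j) w).2 t ht).resolve_left (hFy j)
  have hδ : ∀ j, 0 ≤ phi (expo (F j)) (w + ∑ j ∈ J, g.E j) - phi (expo (F j)) w -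
      ∑ i ∈ J, phi (expo (F j)) (g.E i) := fun j => by
    have := phi_sum (expo_nonempty (Fne j)) J (E := g.E) w
    omega
  have he : ∀ j, 0 ≤ exc D (F j) (w + ∑ j ∈ J, g.E j) := fun j => by
    unfold exc
    split_ifs <;> omega
  have hnt : ∀ j, ¬ Thr g (F j) x0 → v.ord (aeval (cv K) (F j)) ≤ phi (expo (F j)) w :=
    fun j hj => by
      rw [← hjo]
      exact hfx' j x (hx' j (Finset.mem_univ j)) hj v hv
  refine ⟨w + ∑ j ∈ J, g.E j, hJ, ?_⟩
  have hlb := lb_le b J w
  have htv : (tv v : Fin n → ℤ) = w := rfl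
  -- the final estimate
  have hfin : ∀ T : ℤ, 0 ≤ T → (∀ j, v.ord (aeval (cv K) (F j)) - phi (expo (F j)) w -
      (phi (expo (F j)) (w + ∑ j ∈ J, g.E j) - phi (expo (F j)) w -
      ∑ i ∈ J, phi (expo (F j)) (g.E i)) - exc D (F j) (w + ∑ j ∈ J, g.E j) ≤ T) →
      (J.card : ℤ) + I.card + T ≤ 1 + v.ord A.det →
      I.card + (lb b (w + ∑ j ∈ J, g.E j) -
        ∑ j, b.b j * (exc D (F j) (w + ∑ j ∈ J, g.E j) : ℝ)) ≤ 1 + (v.ord A.det : ℝ) -
        (∑ j, b.b j * (v.ord (jo (Fin n) K (F j)) : ℝ) - dot b.ψ (tv v)) := by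
    intro T hT0 hT hJT
    have h1 : ∑ j, b.b j * ((v.ord (aeval (cv K) (F j)) - phi (expo (F j)) w -
      (phi (expo (F j)) (w + ∑ j ∈ J, g.E j) - phi (expo (F j)) w -
      ∑ i ∈ J, phi (expo (F j)) (g.E i)) - exc D (F j) (w + ∑ j ∈ J, g.E j) : ℤ) : ℝ) ≤
      ∑ j, (if Thr g (F j) x0 then b.b j else 0) * (T : ℝ) := by
      refine Finset.sum_le_sum fun j _ => ?_
      by_cases hj : Thr g (F j) x0
      · rw [if_pos hj]
        exact mul_le_mul_of_nonneg_left (by exact_mod_cast hT j) (b.bnn j)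
      · rw [if_neg hj, zero_mul]
        have h5 : (v.ord (aeval (cv K) (F j)) - phi (expo (F j)) w -
          (phi (expo (F j)) (w + ∑ j ∈ J, g.E j) - phi (expo (F j)) w -
          ∑ i ∈ J, phi (expo (F j)) (g.E i)) - exc D (F j) (w + ∑ j ∈ J, g.E j)) ≤ 0 := by
          have := hnt j hj
          have := hδ j
          have := he j
          omega
        exact mul_nonpos_of_nonneg_of_nonpos (b.bnn j) (by exact_mod_cast h5)
    have h2 : ∑ j, (if Thr g (F j) x0 then b.b j else 0) * (T : ℝ) ≤ T := by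
      rw [← Finset.sum_mul]
      have h3 : (0 : ℝ) ≤ T := by exact_mod_cast hT0
      have h4 : (∑ j, if Thr g (F j) x0 then b.b j else 0) ≤ 1 := by
        unfold sumAt at hb
        convert hb
      nlinarith
    have h3 : ∑ j, b.b j * ((v.ord (aeval (cv K) (F j)) - phi (expo (F j)) w -
      (phi (expo (F j)) (w + ∑ j ∈ J, g.E j) - phi (expo (F j)) w -
      ∑ i ∈ J, phi (expo (F j)) (g.E i)) - exc D (F j) (w + ∑ j ∈ J, g.E j) : ℤ) : ℝ) =
        ∑ j, b.b j * (v.ord (jo (Fin n) K (F j)) : ℝ) -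
        ∑ j, b.b j * (phi (expo (F j)) w : ℝ) -
        ∑ j, b.b j * ((phi (expo (F j)) (w + ∑ j ∈ J, g.E j) - phi (expo (F j)) w -
        ∑ i ∈ J, phi (expo (F j)) (g.E i) : ℤ) : ℝ) -
        ∑ j, b.b j * (exc D (F j) (w + ∑ j ∈ J, g.E j) : ℝ) := by
      rw [← Finset.sum_sub_distrib, ← Finset.sum_sub_distrib, ← Finset.sum_sub_distrib]
      refine Finset.sum_congr rfl fun j _ => ?_
      rw [hjo]
      push_cast
      ring
    have h4 : (J.card : ℝ) + I.card + T ≤ 1 + (v.ord A.det : ℝ) := by exact_mod_cast hJT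
    have h5 : lb b w = dot b.ψ (tv v) - ∑ j, b.b j * (phi (expo (F j)) w : ℝ) := rfl
    linarith
  have hpos : 0 < B0.card := by rw [hB0c]; omega
  by_cases hex0 : ∃ j, phi (expo (F j)) w + 1 ≤ v.ord (aeval (cv K) (F j))
  swap
  · -- all the equations have the least order
    push Not at hex0
    refine hfin 0 le_rfl (fun j => by have := hex0 j; have := hδ j; have := he j; omega) ?_
    obtain ⟨u, hu⟩ := Finset.card_pos.1 hpos
    have h1 := low g (θ := u) (t := 1) (fun h0 => by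
        exact (hB0i.ne_zero hu) h0) (hB0g _ hu) hB0g hB0i (r := B0.card - 1)
      (by omega) A hA0 hA
    omega
  · -- the equation of the largest excess
    obtain ⟨j0, -, hmax⟩ := Finset.exists_max_image (Finset.univ : Finset (Fin s))
      (fun j => v.ord (aeval (cv K) (F j)) - phi (expo (F j)) w)
      ⟨hex0.choose, Finset.mem_univ _⟩
    have hmax' : ∀ j, v.ord (aeval (cv K) (F j)) - phi (expo (F j)) w ≤
        v.ord (aeval (cv K) (F j0)) - phi (expo (F j0)) w := fun j => hmax j (Finset.mem_univ j)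
    have hj0 : phi (expo (F j0)) w + 1 ≤ v.ord (aeval (cv K) (F j0)) := by
      obtain ⟨j, hj⟩ := hex0
      have := hmax' j
      omega
    set T := v.ord (aeval (cv K) (F j0)) - phi (expo (F j0)) w with hT
    have hidx : ∀ j, phi (expo (F j)) w + 1 ≤ v.ord (aeval (cv K) (F j)) →
        ∃ k : Fin n, aeval (cv K) (MvPolynomial.X k * pderiv k (F j)) ≠ 0 ∧
          v.ord (aeval (cv K) (MvPolynomial.X k * pderiv k (F j))) =
            phi (expo (F j)) w := fun j hj =>
      exists_index2 yne (Fne j) (Or.inr hj) (hnd j w hw)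
    obtain ⟨k0, hk, hk'⟩ := hidx j0 hj0
    have hθr := fun l => reg_euler' yne (Fne j0) hk hk' (Finset.Subset.refl (F j0).support) l
    have hθ : GoodT (cv K) v T (fun l => red v ⟨_, hθr l⟩) :=
      good_der' yne hk (Or.inr (by rw [hk']; omega)) hθr
    have hθ0 : (fun l => red v ⟨_, hθr l⟩) ≠ (0 : Fin n → Kp v) := by
      intro h1
      have h2 := congrFun h1 k0
      change red v _ = (0 : Kp v) at h2
      rw [red_eq_zero] at h2
      change v.Pos (aeval (cv K) (MvPolynomial.X k0 * pderiv k0 (F j0)) /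
        aeval (cv K) (MvPolynomial.X k0 * pderiv k0 (F j0))) at h2
      rw [div_self hk] at h2
      rcases h2 with h2 | h2
      · exact one_ne_zero h2
      · rw [v.ord_one] at h2
        exact lt_irrefl _ h2
    by_cases hex : ∃ j, phi (expo (F j)) w + 1 ≤ v.ord (aeval (cv K) (F j)) ∧
        phi (expo (F j)) w + ∑ i ∈ J, phi (expo (F j)) (g.E i) =
          phi (expo (F j)) (w + ∑ i ∈ J, g.E i) ∧ ¬ IsCl D (F j) (w + ∑ i ∈ J, g.E i)
    · obtain ⟨j, hj1, hj2, hj3⟩ := hex
      obtain ⟨k1, hk1, hk1'⟩ := hidx j hj1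
      have hcl : ∃ s0 ∈ (F j).support, pr (ex s0) (w + ∑ i ∈ J, g.E i) =
          phi (expo (F j)) (w + ∑ i ∈ J, g.E i) ∧ cls D (F j) (F j).support s0 ≠ 0 := by
        unfold IsCl at hj3
        push Not at hj3
        exact hj3
      obtain ⟨u, hu, hus⟩ := extra2 D hv hxa (Fne j)
        ((hfx j x (hx j (Finset.mem_univ j))).2) (Or.inr hj1) hk1 hk1' hJI hmC hmp hmz hj2 hcl
      have hus' := hus (B0 : Set (Fin n → Kp v)) hB0f
      have h1 := low g hθ0 hθ (B := insert u B0) (r := B0.card) (by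
          intro u' hu'
          rcases Finset.mem_insert.1 hu' with rfl | h
          · exact hu
          · exact hB0g _ h) (by
          rw [Finset.coe_insert]
          exact hB0i.id_insert hus') (by
          rw [Finset.card_insert_of_notMem fun h => hus' (Submodule.subset_span h)])
        A hA0 hA
      refine hfin T (by omega) (fun j => ?_) (by omega)
      have := hmax' j
      have := hδ j
      have := he j
      omega
    · push Not at hex
      have hδ1 : ∀ j, phi (expo (F j)) w + 1 ≤ v.ord (aeval (cv K) (F j)) →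
          1 ≤ phi (expo (F j)) (w + ∑ j ∈ J, g.E j) - phi (expo (F j)) w -
            ∑ i ∈ J, phi (expo (F j)) (g.E i) + exc D (F j) (w + ∑ j ∈ J, g.E j) := by
        intro j hj
        have h1 := hex j hj
        have h2 := hδ j
        have h3 := he j
        by_cases h4 : phi (expo (F j)) w + ∑ i ∈ J, phi (expo (F j)) (g.E i) =
          phi (expo (F j)) (w + ∑ i ∈ J, g.E i)
        · have h5 : exc D (F j) (w + ∑ j ∈ J, g.E j) = 1 := by
            unfold exc
            rw [if_pos (h1 h4)]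
          omega
        · omega
      have h1 := low g hθ0 hθ hB0g hB0i (r := B0.card - 1) (by omega) A hA0 hA
      refine hfin (T - 1) (by omega) (fun j => ?_) (by omega)
      have h2 := hmax' j
      have h3 := hδ j
      have h4 := he j
      by_cases hj : phi (expo (F j)) w + 1 ≤ v.ord (aeval (cv K) (F j))
      · have := hδ1 j hj
        omega
      · omega

end Pool.Agent.Helper43K9.LN
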