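import Pool.Agent.Helper43K9.LS.Semi
import Pool.Agent.TH165.ACC.NFin

/-!
# Lower semicontinuity for boundaries on toric germs which are not toric: definitions
-/

set_option autoImplicit false
set_option linter.unusedSectionVars false

namespace Pool.Agent.Helper43K9.LN

open Pool.Agent.H436R3.Fol Pool.Agent.H436R3.KT Pool.Agent.W497.Mld MvPolynomial
open Pool.Agent.TH165.ACC (pr ex Cn lead ToricGerm tv)
open Pool.Agent.Helper43K9.NH (expo phi dot ch)
open Pool.Agent.Helper43K9.LS (Kp Red)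

variable {n : ℕ} {K : Type} [Field K] [Algebra ℂ K]
  [Algebra (MvPolynomial (Fin n) ℂ) K] [IsFractionRing (MvPolynomial (Fin n) ℂ) K]
  [IsScalarTower ℂ (MvPolynomial (Fin n) ℂ) K]

/-- The closure `X_F` in the toric variety of the divisor `F = 0` in the torus is nondegenerate: for
all weights in the cone, also for those on its boundary, the zero set in the torus of the initial form
of `F` is smooth. -/
def Nondeg (g : ToricGerm n K) (F : MvPolynomial (Fin n) ℂ) : Prop :=
  ∀ w, g.InCone w → ∀ ξ : Fin n → ℂ, (∀ i, ξ i ≠ 0) → eval ξ (lead w F) = 0 →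
    ∃ i, eval ξ (pderiv i (lead w F)) ≠ 0

/-- The closure `X_F` in the toric variety of the divisor `F = 0` in the torus contains the closed
point `x0`: the function `h` vanishes at `x0` whenever `F` is the product of a monomial with the regular
function `h`. (If `x0` is not on `X_F` then near `x0` the divisor of `F` is supported on the toric
divisors, and so `F` is the product of a monomial with a function which does not vanish at `x0`.) -/
def Thr (g : ToricGerm n K) (F : MvPolynomial (Fin n) ℂ) (x0 : Pt g.X) : Prop :=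
  ∀ (m : Fin n → ℤ) (h : g.X.R), jo (Fin n) K F = ch (cv K) m * (h : K) → x0 h = 0

/-- The boundary `∑ b_j X_(F_j) + ∑ β_i D_i`, `b_j ≥ 0`, `β_i ≥ 0`, where the `D_i` are
the toric prime divisors, such that `K_Y + ∑ b_j X_(F_j) + ∑ β_i D_i` is `ℝ`-Cartier at `P` with the
local equation `y^(-ψ) ∏ F_j^(b_j)`. (With the form `dy_1 / y_1 ∧ ... ∧ dy_n / y_n` the divisor
`K_Y + ∑ b_j X_(F_j) + ∑ β_i D_i` minus the divisor of `∏ F_j^(b_j)` is
`∑_i (β_i - 1 - ∑_j b_j φ_j (E_i)) D_i`, where `φ_j (E_i)` is the order of `F_j` along `D_i`.) -/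
structure Bdry (g : ToricGerm n K) {s : ℕ} (F : Fin s → MvPolynomial (Fin n) ℂ) where
  b : Fin s → ℝ
  bnn : ∀ j, 0 ≤ b j
  β : Fin g.N → ℝ
  nonneg : ∀ i, 0 ≤ β i
  ψ : Fin n → ℝ
  eq : ∀ i, dot ψ (g.E i) = 1 - β i + ∑ j, b j * (phi (expo (F j)) (g.E i) : ℝ)

open Classical in
/-- the sum of the coefficients of the `X_(F_j)` through the closed point `x0` -/
noncomputable def sumAt {g : ToricGerm n K} {s : ℕ} {F : Fin s → MvPolynomial (Fin n) ℂ}
    (c : Bdry g F) (x0 : Pt g.X) : ℝ := ∑ j, if Thr g (F j) x0 then c.b j else 0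

/-- Near the closed point `x` the local equation of `K_Y + B` is `y^(-ψ) ∏ F_j^(b_j)`, that is,
`B = ∑ b_j X_(F_j) + ∑ β_i D_i`. -/
def IsEqAt {g : ToricGerm n K} {s : ℕ} {F : Fin s → MvPolynomial (Fin n) ℂ} (c : Bdry g F)
    {B : EffDiv g.X} {x : Pt g.X} (e : LocEq B x) : Prop :=
  ∀ v : DVal K, ∑ k, e.ρ k * (v.ord (e.g k) : ℝ) =
    ∑ j, c.b j * (v.ord (jo (Fin n) K (F j)) : ℝ) - dot c.ψ (tv v)

/-- the toric log discrepancy `ψ · w - ∑ b_j φ_j (w)` -/
noncomputable def lb {g : ToricGerm n K} {s : ℕ} {F : Fin s → MvPolynomial (Fin n) ℂ} (c : Bdry g F)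
    (w : Fin n → ℤ) : ℝ :=
  dot c.ψ w - ∑ j, c.b j * (phi (expo (F j)) w : ℝ)

/-- The vector `u` over the residue field is the reduction of the vector of the normalised
logarithmic derivatives `s⁻¹ θ_l (h)` of a function `h` whose order is at least the one of `s`
plus `t`. -/
def GoodT {L : Type} [Field L] [Algebra ℂ L] (y : Fin n → L) (v : DVal L) (t : ℤ)
    (u : Fin n → Kp v) : Prop :=
  ∃ (h s : L) (M : Fin n → L), s ≠ 0 ∧ (h = 0 ∨ v.ord s + t ≤ v.ord h) ∧
    (∀ D : Derivation ℂ L L, D h = s * ∑ l, M l * (D (y l) / y l)) ∧ Red v M u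

end Pool.Agent.Helper43K9.LN
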