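import Pool.Agent.Helper43K9.LN.Core
import Pool.Agent.Helper58K9.LQ.Pts
import Pool.Agent.Helper58K9.LQ.Face
import Pool.Agent.Helper58K9.LQ.Tau2

/-!
# The face of a closed point of a toric variety
-/

set_option autoImplicit false
set_option linter.unusedSectionVars false
set_option linter.unusedVariables false

namespace Pool.Agent.Helper43K9.LN

open Pool.Agent.H436R3.Fol Pool.Agent.H436R3.KT Pool.Agent.W497.Mld MvPolynomial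
open Pool.Agent.TH165.ACC (pr ex Cn ToricGerm tv ym pr_add pr_zero pr_neg pr_sub pr_smul
  pr_smul_right)
open Pool.Agent.Helper43K9.NH
open Pool.Agent.Helper43K9.LS (Kp Red Good red cK pK pK_cK)
open Pool.Agent.Helper58K9.LQ (chi chi_eq chi_zero chi_add face tau2)

variable {n : ℕ} {K : Type} [Field K] [Algebra ℂ K]
  [Algebra (MvPolynomial (Fin n) ℂ) K] [IsFractionRing (MvPolynomial (Fin n) ℂ) K]
  [IsScalarTower ℂ (MvPolynomial (Fin n) ℂ) K]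

/-- the data of the face of a closed point -/
structure FD (g : ToricGerm n K) (x0 : Pt g.X) where
  Λ : Submodule ℤ (Fin n → ℤ)
  I0 : Finset (Fin g.N)
  a : Fin n → ℤ
  τ : (Fin n → ℤ) → ℂ
  hΛ : ∀ m, m ∈ Λ ↔ ∀ i ∈ I0, pr m (g.E i) = 0
  ha : a ∈ Λ
  hpos : ∀ i, i ∉ I0 → 0 < pr a (g.E i)
  chi_F : ∀ m ∈ Cn g.E, m ∈ Λ → chi x0 m = τ m
  chi_0 : ∀ m ∈ Cn g.E, m ∉ Λ → chi x0 m = 0
  τ0 : ∀ m, τ m ≠ 0
  τa : ∀ m m', τ (m + m') = τ m * τ m'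

/-- the face of a closed point -/
theorem exists_FD (g : ToricGerm n K) (x0 : Pt g.X) : Nonempty (FD g x0) := by
  classical
  let F : Set (Fin n → ℤ) := {m | m ∈ Cn g.E ∧ chi x0 m ≠ 0}
  have hFC : F ⊆ Cn g.E := fun m hm => hm.1
  have h0 : (0 : Fin n → ℤ) ∈ F := ⟨fun i => by rw [pr_zero], by
    rw [chi_zero]; exact one_ne_zero⟩
  have hCadd : ∀ m ∈ Cn g.E, ∀ m' ∈ Cn g.E, m + m' ∈ Cn g.E := fun m hm m' hm' i => by
    rw [pr_add]; exact add_nonneg (hm i) (hm' i)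
  have hadd : ∀ m ∈ F, ∀ m' ∈ F, m + m' ∈ F := fun m hm m' hm' =>
    ⟨hCadd m hm.1 m' hm'.1, by rw [chi_add hm.1 hm'.1]; exact mul_ne_zero hm.2 hm'.2⟩
  have hface : ∀ m ∈ Cn g.E, ∀ m' ∈ Cn g.E, m + m' ∈ F → m ∈ F := fun m hm m' hm' h =>
    ⟨hm, fun h1 => h.2 (by rw [chi_add hm hm', h1, zero_mul])⟩
  have hf := face n g.N g.E F hFC h0 hadd hface
  let I0 : Finset (Fin g.N) := Finset.univ.filter fun i => ∀ a ∈ F, pr a (g.E i) = 0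
  have hI0 : ∀ i, i ∈ I0 ↔ ∀ a ∈ F, pr a (g.E i) = 0 := fun i => by
    simp only [I0, Finset.mem_filter, Finset.mem_univ, true_and]
  let Λ : Submodule ℤ (Fin n → ℤ) :=
    { carrier := {m | ∀ i ∈ I0, pr m (g.E i) = 0}
      zero_mem' := fun i _ => pr_zero _
      add_mem' := fun {m m'} hm hm' i hi => by rw [pr_add, hm i hi, hm' i hi, add_zero]
      smul_mem' := fun c m hm i hi => by rw [pr_smul, hm i hi, mul_zero] }
  have hΛ : ∀ m, m ∈ Λ ↔ ∀ i ∈ I0, pr m (g.E i) = 0 := fun m => Iff.rfl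
  have hFΛ : ∀ m ∈ F, m ∈ Λ := fun m hm i hi => (hI0 i).1 hi m hm
  have hch : ∀ i, ∃ a ∈ F, i ∉ I0 → 0 < pr a (g.E i) := by
    intro i
    by_cases h : i ∈ I0
    · exact ⟨0, h0, fun h' => absurd h h'⟩
    · obtain ⟨b, hb, hb'⟩ : ∃ b ∈ F, pr b (g.E i) ≠ 0 := by
        by_contra hc
        push Not at hc
        exact h ((hI0 i).2 hc)
      exact ⟨b, hb, fun _ => lt_of_le_of_ne (hFC hb i) (Ne.symm hb')⟩
  choose a haF hapos using hch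
  obtain ⟨τ, hτ0, hτa, -, hτ⟩ := tau2 n 1 (fun _ => 1) (fun _ => one_ne_zero)
    (fun _ _ => (one_mul 1).symm) 1 one_ne_zero 0 F h0 hadd (fun m => chi x0 m)
    (fun m hm => hm.2) (fun m hm m' hm' => chi_add hm.1 hm'.1) (fun m b hb b' hb' h => by
      rw [Matrix.one_mulVec, sub_self] at h
      have h1 : b = b' := (sub_eq_zero.1 h.symm)
      subst h1
      simp)
  have hsum := Pool.Agent.Helper58K9.LQ.FaceL.sum_mem h0 hadd a haF Finset.univ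
  refine ⟨⟨Λ, I0, ∑ i, a i, τ, hΛ, hFΛ _ hsum, ?_, ?_, ?_, hτ0, hτa⟩⟩
  · intro i hi
    rw [Pool.Agent.Helper58K9.LQ.FaceL.pr_sum]
    exact Finset.sum_pos' (fun j _ => hFC (haF j) i) ⟨i, Finset.mem_univ i, hapos i hi⟩
  · intro m hm hmΛ
    exact (hτ m (hf m hm fun i hi => hmΛ i ((hI0 i).2 hi))).symm
  · intro m hm hmΛ
    by_contra h
    exact hmΛ (hFΛ m ⟨hm, h⟩)

/-- the weight is in the relative interior of the face -/
def RInt {g : ToricGerm n K} {x0 : Pt g.X} (D : FD g x0) (w : Fin n → ℤ) : Prop :=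
  (∀ m ∈ D.Λ, pr m w = 0) ∧ ∀ m ∈ Cn g.E, m ∉ D.Λ → 0 < pr m w

theorem pr_sumE {N : ℕ} (E : Fin N → Fin n → ℤ) (J : Finset (Fin N)) (m : Fin n → ℤ) :
    pr m (∑ j ∈ J, E j) = ∑ j ∈ J, pr m (E j) :=
  Pool.Agent.Helper43K9.LS.pr_sum_right m J

/-- [J] -/
theorem exists_J2 {g : ToricGerm n K} {x0 : Pt g.X} (D : FD g x0) {w : Fin n → ℤ}
    (hw : ∀ m ∈ Cn g.E, 0 ≤ pr m w) (hw0 : ∀ m ∈ D.Λ, pr m w = 0) :
    ∃ J : Finset (Fin g.N), J ⊆ D.I0 ∧ RInt D (w + ∑ j ∈ J, g.E j) ∧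
      ∀ j ∈ J, ∃ m ∈ Cn g.E, pr m w = 0 ∧ 0 < pr m (g.E j) ∧
        ∀ i ∈ J, i ≠ j → pr m (g.E i) = 0 := by
  classical
  let Pp : Finset (Fin g.N) → Prop := fun J => J ⊆ D.I0 ∧
    ∀ m ∈ Cn g.E, m ∉ D.Λ → 0 < pr m (w + ∑ j ∈ J, g.E j)
  have huniv : Pp D.I0 := by
    refine ⟨Finset.Subset.refl _, fun m hm hmΛ => ?_⟩
    rw [pr_add_right, pr_sumE]
    have h1 : 0 ≤ pr m w := hw m hm
    have h2 : 0 < ∑ j ∈ D.I0, pr m (g.E j) := by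
      obtain ⟨i, hi, hi'⟩ : ∃ i ∈ D.I0, pr m (g.E i) ≠ 0 := by
        by_contra h
        push Not at h
        exact hmΛ ((D.hΛ m).2 h)
      exact Finset.sum_pos' (fun j _ => hm j) ⟨i, hi, lt_of_le_of_ne (hm i) hi'.symm⟩
    omega
  obtain ⟨J, hJ, hmin⟩ : ∃ J, Pp J ∧ ∀ J' : Finset (Fin g.N), J' ⊂ J → ¬ Pp J' := by
    obtain ⟨J, hJ⟩ := (Set.toFinite {J | Pp J}).exists_minimal ⟨D.I0, huniv⟩
    exact ⟨J, hJ.1, fun J' h1 h2 => h1.2 (hJ.2 h2 h1.1)⟩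
  refine ⟨J, hJ.1, ⟨fun m hm => ?_, hJ.2⟩, fun j hj => ?_⟩
  · rw [pr_add_right, pr_sumE, hw0 m hm, zero_add]
    exact Finset.sum_eq_zero fun i hi => (D.hΛ m).1 hm i (hJ.1 hi)
  have h1 := hmin (J.erase j) (Finset.erase_ssubset hj)
  have h1' : ¬ ∀ m ∈ Cn g.E, m ∉ D.Λ → 0 < pr m (w + ∑ j ∈ J.erase j, g.E j) := fun h =>
    h1 ⟨(Finset.erase_subset _ _).trans hJ.1, h⟩
  push Not at h1'
  obtain ⟨m, hm, hm0, hm1⟩ := h1'
  rw [pr_add_right, pr_sumE] at hm1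
  have h2 : 0 ≤ pr m w := hw m hm
  have h3 : 0 ≤ ∑ i ∈ J.erase j, pr m (g.E i) := Finset.sum_nonneg fun i _ => hm i
  have h4 : pr m w = 0 := by omega
  have h5 : ∑ i ∈ J.erase j, pr m (g.E i) = 0 := by omega
  have h6 : ∀ i ∈ J, i ≠ j → pr m (g.E i) = 0 := fun i hi hij =>
    (Finset.sum_eq_zero_iff_of_nonneg (fun i _ => hm i)).1 h5 i (Finset.mem_erase.2 ⟨hij, hi⟩)
  refine ⟨m, hm, h4, ?_, h6⟩
  have h7 := hJ.2 m hm hm0
  rw [pr_add_right, pr_sumE, h4, ← Finset.add_sum_erase J _ hj, h5] at h7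
  omega

/-- multiples of `a` move finitely many vectors into the cone -/
theorem exists_N {g : ToricGerm n K} {x0 : Pt g.X} (D : FD g x0) (T : Finset (Fin n → ℤ))
    (hT : ∀ m ∈ T, ∀ i ∈ D.I0, 0 ≤ pr m (g.E i)) : ∃ N : ℕ, ∀ m ∈ T, m + (N : ℤ) • D.a ∈ Cn g.E := by
  classical
  refine ⟨∑ m ∈ T, ∑ i, (-pr m (g.E i)).toNat, fun m hm i => ?_⟩
  rw [pr_add, pr_smul]
  by_cases hi : i ∈ D.I0
  · rw [(D.hΛ _).1 D.ha i hi, mul_zero, add_zero]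
    exact hT m hm i hi
  · have h1 := D.hpos i hi
    have h2 : (-pr m (g.E i)).toNat ≤ ∑ m ∈ T, ∑ i, (-pr m (g.E i)).toNat := by
      refine le_trans ?_ (Finset.single_le_sum (f := fun m => ∑ i, (-pr m (g.E i)).toNat)
        (fun _ _ => Nat.zero_le _) hm)
      exact Finset.single_le_sum (f := fun i => (-pr m (g.E i)).toNat)
        (fun _ _ => Nat.zero_le _) (Finset.mem_univ i)
    have h3 := Int.self_le_toNat (-pr m (g.E i))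
    have h4 : ((-pr m (g.E i)).toNat : ℤ) ≤ ((∑ m ∈ T, ∑ i, (-pr m (g.E i)).toNat : ℕ) : ℤ) := by
      exact_mod_cast h2
    have h5 : (0 : ℤ) ≤ ((∑ m ∈ T, ∑ i, (-pr m (g.E i)).toNat : ℕ) : ℤ) := Int.natCast_nonneg _
    nlinarith

end Pool.Agent.Helper43K9.LN
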