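import Pool.Agent.Helper43K9.LN.Fac

/-!
# Reductions of the monomial units at a closed point
-/

set_option autoImplicit false
set_option linter.unusedSectionVars false
set_option linter.unusedVariables false

namespace Pool.Agent.Helper43K9.LN

open Pool.Agent.H436R3.Fol Pool.Agent.H436R3.KT Pool.Agent.W497.Mld MvPolynomial
open Pool.Agent.TH165.ACC (pr ex Cn ToricGerm tv ym pr_add pr_zero pr_neg pr_sub pr_smul
  pr_smul_right)
open Pool.Agent.Helper43K9.NH
open Pool.Agent.Helper43K9.LS (Kp Red Good red cK pK pK_cK intCast_ne)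
open Pool.Agent.Helper58K9.LQ (chi chi_eq chi_zero chi_add)

variable {n : ℕ} {K : Type} [Field K] [Algebra ℂ K]
  [Algebra (MvPolynomial (Fin n) ℂ) K] [IsFractionRing (MvPolynomial (Fin n) ℂ) K]
  [IsScalarTower ℂ (MvPolynomial (Fin n) ℂ) K]

theorem ch_mem {g : ToricGerm n K} {m : Fin n → ℤ} (hm : m ∈ Cn g.E) : ch (cv K) m ∈ g.X.R := by
  have hR : g.X.R = AA (cv K) (Cn g.E) := g.hR
  rw [hR]
  exact ch_mem_AA hm

theorem ch_chi {g : ToricGerm n K} {x : Pt g.X} {m : Fin n → ℤ} (hm : m ∈ Cn g.E) :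
    x ⟨ch (cv K) m, ch_mem hm⟩ = chi x m := chi_eq _ rfl

/-- the order of the monomials -/
theorem ord_mon {g : ToricGerm n K} {x : Pt g.X} {v : DVal K} (hv : IsOverGerm x v)
    {m : Fin n → ℤ} (hm : m ∈ Cn g.E) : 0 ≤ pr m (wt (cv K) v) := by
  have yne : ∀ i, cv K i ≠ 0 := fun i => cv_ne (ι := Fin n) (K := K) i
  have hreg : ∀ f : g.X.R, v.Reg (f : K) := by
    obtain ⟨⟨S, -, h1, h2⟩, -⟩ := hv
    exact fun f => h2.1 _ (h1 f.2)
  rw [← ord_ch yne]
  exact v.ord_nonneg (ch_ne yne _) (hreg ⟨_, ch_mem hm⟩)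

theorem ord_mon_zero {g : ToricGerm n K} {x : Pt g.X} {v : DVal K} (hv : IsOverGerm x v)
    {m : Fin n → ℤ} (hm : m ∈ Cn g.E) (h : chi x m ≠ 0) : pr m (wt (cv K) v) = 0 := by
  have yne : ∀ i, cv K i ≠ 0 := fun i => cv_ne (ι := Fin n) (K := K) i
  have h1 := ord_mon hv hm
  by_contra h2
  have h3 : v.Pos (ch (cv K) m) := Or.inr (by rw [ord_ch yne]; omega)
  have h4 := (hv.2 ⟨_, ch_mem hm⟩).1 h3
  rw [ch_chi hm] at h4
  exact h h4

theorem a_mem {g : ToricGerm n K} {x0 : Pt g.X} (D : FD g x0) : D.a ∈ Cn g.E := fun i => by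
  by_cases hi : i ∈ D.I0
  · rw [(D.hΛ _).1 D.ha i hi]
  · exact (D.hpos i hi).le

theorem Na_mem {g : ToricGerm n K} {x0 : Pt g.X} (D : FD g x0) (N : ℕ) :
    (N : ℤ) • D.a ∈ Cn g.E := fun i => by
  rw [pr_smul]
  exact mul_nonneg (Int.natCast_nonneg N) (a_mem D i)

theorem chi_Na {g : ToricGerm n K} {x0 x : Pt g.X} (D : FD g x0) (hx : chi x D.a ≠ 0) (N : ℕ) :
    chi x ((N : ℤ) • D.a) ≠ 0 := by
  induction N with
  | zero => rw [Nat.cast_zero, zero_smul, chi_zero]; exact one_ne_zero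
  | succ N ih =>
    have : ((N + 1 : ℕ) : ℤ) • D.a = (N : ℤ) • D.a + D.a := by
      push_cast
      rw [add_smul, one_smul]
    rw [this, chi_add (Na_mem D N) (a_mem D)]
    exact mul_ne_zero ih hx

theorem chi_x0_a {g : ToricGerm n K} {x0 : Pt g.X} (D : FD g x0) : chi x0 D.a ≠ 0 := by
  rw [D.chi_F _ (a_mem D) D.ha]
  exact D.τ0 _

theorem exists_N1 {g : ToricGerm n K} {x0 : Pt g.X} (D : FD g x0) {m : Fin n → ℤ}
    (hm : m ∈ D.Λ) : ∃ N : ℕ, m + (N : ℤ) • D.a ∈ Cn g.E := by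
  obtain ⟨N, hN⟩ := exists_N D {m} fun m' hm' i hi => by
    rw [Finset.mem_singleton] at hm'
    rw [hm', (D.hΛ _).1 hm i hi]
  exact ⟨N, hN m (Finset.mem_singleton_self m)⟩

theorem pr_lam_le {g : ToricGerm n K} {x0 x : Pt g.X} (D : FD g x0) (hx : chi x D.a ≠ 0)
    {v : DVal K} (hv : IsOverGerm x v) {m : Fin n → ℤ} (hm : m ∈ D.Λ) :
    0 ≤ pr m (wt (cv K) v) := by
  obtain ⟨N, hN⟩ := exists_N1 D hm
  have h1 := ord_mon hv hN
  rw [pr_add, pr_smul, ord_mon_zero hv (a_mem D) hx, mul_zero, add_zero] at h1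
  exact h1

/-- the weights are zero on the group of the face -/
theorem pr_lam {g : ToricGerm n K} {x0 x : Pt g.X} (D : FD g x0) (hx : chi x D.a ≠ 0)
    {v : DVal K} (hv : IsOverGerm x v) {m : Fin n → ℤ} (hm : m ∈ D.Λ) :
    pr m (wt (cv K) v) = 0 := by
  have h1 := pr_lam_le D hx hv hm
  have h2 := pr_lam_le D hx hv (D.Λ.neg_mem hm)
  rw [pr_neg] at h2
  omega

/-- the reductions of the units -/
theorem good_lam {g : ToricGerm n K} {x0 x : Pt g.X} (D : FD g x0) (hx : chi x D.a ≠ 0)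
    {v : DVal K} (hv : IsOverGerm x v) {m : Fin n → ℤ} (hm : m ∈ D.Λ) :
    Good (cv K) v (cK v m) := by
  have yne : ∀ i, cv K i ≠ 0 := fun i => cv_ne (ι := Fin n) (K := K) i
  obtain ⟨N, hN⟩ := exists_N1 D hm
  have hq := Na_mem D N
  have hc := chi_Na D hx N
  set q := (N : ℤ) • D.a with hqd
  set c : ℂ := chi x (m + q) / chi x q with hcd
  have hpos : ∀ (m' : Fin n → ℤ) (hm' : m' ∈ Cn g.E),
      v.Pos (ch (cv K) m' - algebraMap ℂ K (chi x m')) := by
    intro m' hm'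
    have h1 : x (⟨ch (cv K) m', ch_mem hm'⟩ - algebraMap ℂ g.X.R (chi x m')) = 0 := by
      rw [map_sub, AlgHom.commutes, ch_chi hm']
      exact sub_self _
    exact (hv.2 _).2 h1
  have h1 := v.pos_add (hpos _ hN) (v.pos_mul_left (v.reg_const (-c)) (hpos _ hq))
  have h2 : ch (cv K) (m + q) - algebraMap ℂ K (chi x (m + q)) +
      algebraMap ℂ K (-c) * (ch (cv K) q - algebraMap ℂ K (chi x q)) =
      ch (cv K) q * (ch (cv K) m - algebraMap ℂ K c) := by
    have h3 : chi x (m + q) = c * chi x q := by rw [hcd, div_mul_cancel₀ _ hc]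
    rw [h3, ch_add yne, map_mul, map_neg]
    ring
  rw [h2] at h1
  have h4 : v.ord (ch (cv K) q) = 0 := by
    rw [ord_ch yne]
    exact ord_mon_zero hv hq hc
  refine ⟨ch (cv K) m - algebraMap ℂ K c, ch (cv K) m, fun l => (m l : K), ch_ne yne m,
    ?_, ?_, ⟨fun l => v.reg_intCast _, fun l => ?_⟩⟩
  · by_cases h5 : ch (cv K) m - algebraMap ℂ K c = 0
    · exact Or.inl h5
    · right
      rcases h1 with h1 | h1
      · exact absurd h1 (mul_ne_zero (ch_ne yne _) h5)
      · rw [v.map_mul _ _ (ch_ne yne _) h5, h4, zero_add] at h1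
        rw [ord_ch yne, pr_lam D hx hv hm]
        omega
  · intro D'
    rw [map_sub, Derivation.map_algebraMap, sub_zero, der_ch yne]
  · change red v (⟨(m l : K), v.reg_intCast _⟩ : v.O) = (m l : Kp v)
    rw [← map_intCast (red v)]
    congr 1

/-- the independence of the rows of a unimodular matrix over the residue field -/
theorem indep_C {v : DVal K} {C : Matrix (Fin n) (Fin n) ℤ} (hC : IsUnit C.det) :
    LinearIndependent (Kp v) (fun i => cK v (C i)) := by
  have h1 : IsUnit (C.map (Int.castRingHom (Kp v))) := by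
    rw [Matrix.isUnit_iff_isUnit_det]
    have := hC.map (Int.castRingHom (Kp v))
    rwa [RingHom.map_det] at this
  have h2 := (Matrix.linearIndependent_rows_iff_isUnit (A := C.map (Int.castRingHom (Kp v)))).2 h1
  exact h2

/-- the joint independence -/
theorem indep_joint {g : ToricGerm n K} {x0 : Pt g.X} (D : FD g x0) {v : DVal K}
    {C : Matrix (Fin n) (Fin n) ℤ} (hC : IsUnit C.det) {I : Finset (Fin n)}
    (hI : ∀ i ∈ I, C i ∈ D.Λ) {J : Finset (Fin g.N)} (hJ : J ⊆ D.I0)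
    {m : Fin g.N → Fin n → ℤ} (hm : ∀ j ∈ J, 0 < pr (m j) (g.E j))
    (hm' : ∀ j ∈ J, ∀ i ∈ J, i ≠ j → pr (m j) (g.E i) = 0) :
    ∃ B : Finset (Fin n → Kp v), B.card = J.card + I.card ∧
      LinearIndepOn (Kp v) id (B : Set (Fin n → Kp v)) ∧
      (B : Set (Fin n → Kp v)) = (fun j => cK v (m j)) '' (J : Set (Fin g.N)) ∪
        (fun i => cK v (C i)) '' (I : Set (Fin n)) := by
  classical
  let f : Fin g.N ⊕ Fin n → (Fin n → Kp v) := Sum.elim (fun j => cK v (m j)) (fun i => cK v (C i))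
  let S : Finset (Fin g.N ⊕ Fin n) := J.disjSum I
  have hind : LinearIndepOn (Kp v) f (S : Set (Fin g.N ⊕ Fin n)) := by
    rw [linearIndepOn_finset_iff]
    intro c hc
    rw [Finset.sum_disjSum] at hc
    have h1 : ∀ j ∈ J, c (Sum.inl j) = 0 := by
      intro i hi
      have h1 := congrArg (pK (v := v) (g.E i)) hc
      rw [map_add, map_sum, map_sum, map_zero, Finset.sum_eq_single i] at h1
      · rw [Finset.sum_eq_zero (s := I), add_zero] at h1
        · change pK (v := v) (g.E i) (c (Sum.inl i) • cK v (m i)) = 0 at h1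
          rw [map_smul, pK_cK, smul_eq_mul] at h1
          exact (mul_eq_zero.1 h1).resolve_right (intCast_ne (hm i hi).ne')
        · intro k hk
          change pK (v := v) (g.E i) (c (Sum.inr k) • cK v (C k)) = 0
          rw [map_smul, pK_cK, (D.hΛ _).1 (hI k hk) i (hJ hi), Int.cast_zero, smul_zero]
      · intro j hj hji
        change pK (v := v) (g.E i) (c (Sum.inl j) • cK v (m j)) = 0
        rw [map_smul, pK_cK, hm' j hj i hi hji.symm, Int.cast_zero, smul_zero]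
      · intro h; exact absurd hi h
    rw [Finset.sum_eq_zero (s := J), zero_add] at hc
    · have h2 : LinearIndepOn (Kp v) (fun i => cK v (C i)) (I : Set (Fin n)) :=
        (indep_C hC).linearIndepOn _
      rw [linearIndepOn_finset_iff] at h2
      have h3 := h2 (fun i => c (Sum.inr i)) hc
      rintro (j | i) hji
      · exact h1 j (Finset.inl_mem_disjSum.1 hji)
      · exact h3 i (Finset.inr_mem_disjSum.1 hji)
    · intro j hj
      rw [h1 j hj, zero_smul]
  refine ⟨S.image f, ?_, ?_, ?_⟩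
  · rw [Finset.card_image_of_injOn hind.injOn, Finset.card_disjSum]
  · rw [Finset.coe_image]
    exact hind.id_image
  · rw [Finset.coe_image]
    ext u
    constructor
    · rintro ⟨(j | i), hji, rfl⟩
      · exact Or.inl ⟨j, Finset.inl_mem_disjSum.1 hji, rfl⟩
      · exact Or.inr ⟨i, Finset.inr_mem_disjSum.1 hji, rfl⟩
    · rintro (⟨j, hj, rfl⟩ | ⟨i, hi, rfl⟩)
      · exact ⟨Sum.inl j, Finset.inl_mem_disjSum.2 hj, rfl⟩
      · exact ⟨Sum.inr i, Finset.inr_mem_disjSum.2 hi, rfl⟩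

end Pool.Agent.Helper43K9.LN
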