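import Pool.Agent.Helper43K9.LN.Defs

/-!
# Lower bounds for the canonical order
-/

set_option autoImplicit false
set_option linter.unusedSectionVars false
set_option linter.unusedVariables false

namespace Pool.Agent.Helper43K9.LN

open Pool.Agent.H436R3.Fol Pool.Agent.H436R3.KT Pool.Agent.W497.Mld MvPolynomial
open Pool.Agent.TH165.ACC (pr ex Cn lead ToricGerm tv tor tor_cv can_ge_neg)
open Pool.Agent.Helper43K9.NH (expo phi dot)
open Pool.Agent.Helper43K9.LS (Kp Red Good red det_ord_zero red_of_one red_of_zero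
  exists_basis_finset)

variable {n : ℕ} {K : Type} [Field K] [Algebra ℂ K]
  [Algebra (MvPolynomial (Fin n) ℂ) K] [IsFractionRing (MvPolynomial (Fin n) ℂ) K]
  [IsScalarTower ℂ (MvPolynomial (Fin n) ℂ) K]

/-- the lower bound from a basis of reductions -/
theorem low_det (g : ToricGerm n K) {v : DVal K} (u : Fin n → Fin n → Kp v) (t : Fin n → ℤ)
    (hu : ∀ i, GoodT (cv K) v (t i) (u i)) (hdet : (Matrix.of fun l i => u i l).det ≠ 0)
    (A : Matrix (Fin g.X.d) (Fin g.X.d) K) (hA0 : A.det ≠ 0)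
    (hA : ∀ i, Preserves v (∑ j, A i j • g.X.T.D j)) :
    ∑ i, t i - 1 ≤ v.ord A.det := by
  classical
  choose h s M hs hh hD hM using hu
  let Mm : Matrix (Fin n) (Fin n) K := Matrix.of fun l i => M i l
  obtain ⟨n1, n2⟩ := det_ord_zero (v := v) Mm (Matrix.of fun l i => u i l) (by
      intro l i
      obtain ⟨h1, h2⟩ := hM i
      exact ⟨h1 l, h2 l⟩) hdet
  -- the Jacobian matrix
  have hJ : (Matrix.of fun (j i : Fin g.X.d) => g.X.T.D j (h (g.e i))).det =
      (∏ i, s i) * Mm.det := by
    rw [← Matrix.det_mul_row, ← Matrix.det_submatrix_equiv_self g.e]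
    congr 1
    ext j i
    simp only [Matrix.of_apply, Matrix.submatrix_apply]
    rw [hD, g.hT]
    congr 1
    rw [Finset.sum_eq_single (g.e j)]
    · rw [tor_cv, if_pos rfl, div_self (cv_ne _), mul_one]
      rfl
    · intro l _ hl
      rw [tor_cv, if_neg (Ne.symm hl), zero_div, mul_zero]
    · intro h; exact absurd (Finset.mem_univ _) h
  have hp : (∏ i, s i) ≠ 0 := Finset.prod_ne_zero_iff.2 fun i _ => hs i
  have hJ0 : (Matrix.of fun (j i : Fin g.X.d) => g.X.T.D j (h (g.e i))).det ≠ 0 := by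
    rw [hJ]
    exact mul_ne_zero hp n1
  have hne : ∀ i, h i ≠ 0 := by
    intro i h0
    apply hJ0
    refine Matrix.det_eq_zero_of_column_eq_zero (g.e.symm i) fun j => ?_
    simp only [Matrix.of_apply, Equiv.apply_symm_apply]
    rw [h0, map_zero]
  have h1 := gji v g.X.T.D A hA0 hA (fun i => h (g.e i)) (fun i => hne _) hJ0
  rw [hJ, v.map_mul _ _ hp n1, n2, v.ord_prod _ _ fun i _ => hs i,
    g.e.sum_comp fun i => v.ord (h i)] at h1
  have h2 : ∑ i, (v.ord (s i) + t i) ≤ ∑ i, v.ord (h i) :=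
    Finset.sum_le_sum fun i _ => (hh i).resolve_left (hne i)
  rw [Finset.sum_add_distrib] at h2
  linarith

/-- the coordinates -/
theorem goodT_single {v : DVal K} (l : Fin n) :
    GoodT (cv K) v 0 (Pi.single l (1 : Kp v) : Fin n → Kp v) := by
  refine ⟨cv K l, cv K l, Pi.single l 1, cv_ne l, Or.inr (by simp), ?_, ?_⟩
  · intro D
    rw [Finset.sum_eq_single l]
    · rw [Pi.single_eq_same, one_mul, mul_div_cancel₀ _ (cv_ne l)]
    · intro j _ hj
      rw [Pi.single_eq_of_ne hj, zero_mul]
    · intro h; exact absurd (Finset.mem_univ _) h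
  · have hreg : ∀ j, v.Reg ((Pi.single l (1 : K) : Fin n → K) j) := by
      intro j
      by_cases hj : j = l
      · subst hj
        rw [Pi.single_eq_same]
        exact v.reg_one
      · rw [Pi.single_eq_of_ne hj]
        exact v.reg_zero
    refine ⟨hreg, fun j => ?_⟩
    by_cases hj : j = l
    · subst hj
      have e1 : (Pi.single j (1 : Kp v) : Fin n → Kp v) j = 1 := by simp
      exact (red_of_one _ (Pi.single_eq_same _ _)).trans e1.symm
    · have e1 : (Pi.single l (1 : Kp v) : Fin n → Kp v) j = 0 := by simp [hj]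
      exact (red_of_zero _ (Pi.single_eq_of_ne hj _)).trans e1.symm

/-- the lower bound for the canonical order -/
theorem low (g : ToricGerm n K) {v : DVal K} {θ : Fin n → Kp v} (hθ0 : θ ≠ 0) {t : ℤ}
    (hθ : GoodT (cv K) v t θ) {B : Finset (Fin n → Kp v)} (hB : ∀ u ∈ B, Good (cv K) v u)
    (hind : LinearIndepOn (Kp v) id (B : Set (Fin n → Kp v))) {r : ℕ} (hr : r + 1 ≤ B.card)
    (A : Matrix (Fin g.X.d) (Fin g.X.d) K) (hA0 : A.det ≠ 0)
    (hA : ∀ i, Preserves v (∑ j, A i j • g.X.T.D j)) :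
    (r : ℤ) + t - 1 ≤ v.ord A.det := by
  classical
  obtain ⟨b, b1, h1, h2, h3, h4, h5, h6, h7⟩ := exists_basis_finset hθ0 hind hr
  let σ : Fin n ≃ b := (Finset.equivFinOfCardEq h4).symm
  let T : (Fin n → Kp v) → ℤ := fun x => if x = θ then t else if x ∈ b1 then 1 else 0
  have hT : ∀ x ∈ b, GoodT (cv K) v (T x) x := by
    intro x hx
    by_cases h8 : x = θ
    · simp only [T, if_pos h8]
      rw [h8]
      exact hθ
    · by_cases h9 : x ∈ b1
      · simp only [T, if_neg h8, if_pos h9]
        exact hB x ((h6 x h9).resolve_left h8)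
      · simp only [T, if_neg h8, if_neg h9]
        obtain ⟨l, rfl⟩ := (h7 x hx).resolve_left h9
        exact goodT_single l
  have hlin : LinearIndependent (Kp v) (fun i => (σ i : Fin n → Kp v)) :=
    LinearIndependent.comp h5 σ σ.injective
  have hunit : IsUnit (Matrix.of fun i => (σ i : Fin n → Kp v)) := by
    rw [← Matrix.linearIndependent_rows_iff_isUnit]
    exact hlin
  have h8 : (Matrix.of fun i => (σ i : Fin n → Kp v)).det ≠ 0 :=
    ((Matrix.isUnit_iff_isUnit_det _).1 hunit).ne_zero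
  rw [← Matrix.det_transpose] at h8
  have h9 := low_det g (fun i => (σ i : Fin n → Kp v)) (fun i => T (σ i))
    (fun i => hT _ (σ i).2) h8 A hA0 hA
  have h10 : ∑ i, T (σ i) = ∑ x ∈ b, T x := by
    rw [σ.sum_comp fun x : b => T x, Finset.sum_coe_sort b T]
  have h11 : ∑ x ∈ b, T x = t + ((b.erase θ).filter (· ∈ b1)).card := by
    rw [← Finset.add_sum_erase b T (h1 h2)]
    congr 1
    · simp [T]
    · rw [Finset.card_filter]
      push_cast
      refine Finset.sum_congr rfl fun x hx => ?_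
      simp only [T, if_neg (Finset.ne_of_mem_erase hx)]
  have h12 : b1.erase θ ⊆ (b.erase θ).filter (· ∈ b1) := by
    intro x hx
    rw [Finset.mem_erase] at hx
    exact Finset.mem_filter.2 ⟨Finset.mem_erase.2 ⟨hx.1, h1 hx.2⟩, hx.2⟩
  have h13 := Finset.card_le_card h12
  rw [Finset.card_erase_of_mem h2] at h13
  rw [h10, h11] at h9
  omega

end Pool.Agent.Helper43K9.LN
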