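import Pool.Agent.Helper43K9.LN.Core

/-!
# Lower semicontinuity at the fixed point
-/

set_option autoImplicit false
set_option linter.unusedSectionVars false
set_option linter.unusedVariables false

namespace Pool.Agent.Helper43K9.LN

open Pool.Agent.H436R3.Fol Pool.Agent.H436R3.KT Pool.Agent.W497.Mld MvPolynomial
open Pool.Agent.TH165.ACC (pr ex Prim Cn ToricGerm tv exists_prim exists_mon logDisc_mon
  pr_smul_right)
open Pool.Agent.Helper43K9.NH
open Pool.Agent.Helper43K9.LS (mld)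

variable {n : ℕ} {K : Type} [Field K] [Algebra ℂ K]
  [Algebra (MvPolynomial (Fin n) ℂ) K] [IsFractionRing (MvPolynomial (Fin n) ℂ) K]
  [IsScalarTower ℂ (MvPolynomial (Fin n) ℂ) K]

theorem pos_n (v : DVal K) : 0 < n := by
  rcases isEmpty_or_nonempty (Fin n) with hn | ⟨⟨i⟩⟩
  · obtain ⟨f, hf, h1⟩ := v.surj
    obtain ⟨a, b, hb, rfl⟩ := exists_frac (MvPolynomial (Fin n) ℂ) f
    have ha : a ≠ 0 := by rintro rfl; simp at hf
    have hu : ∀ q : MvPolynomial (Fin n) ℂ, q ≠ 0 → v.ord (jo (Fin n) K q) = 0 := by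
      intro q hq
      rw [eq_C_of_isEmpty q, jo_C]
      apply v.const
      intro h2
      apply hq
      rw [eq_C_of_isEmpty q, h2, C_0]
    rw [← jo_apply, ← jo_apply, v.ord_div (jo_ne ha) (jo_ne hb), hu a ha, hu b hb] at h1
    omega
  · exact i.pos

theorem lb_smul {g : ToricGerm n K} {s : ℕ} {F : Fin s → MvPolynomial (Fin n) ℂ}
    (Fne : ∀ j, F j ≠ 0) (b : Bdry g F) {k : ℤ} (hk : 0 ≤ k) (w : Fin n → ℤ) :
    lb b (k • w) = k * lb b w := by
  rw [lb, lb, dot_smul, mul_sub, Finset.mul_sum]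
  congr 1
  refine Finset.sum_congr rfl fun j _ => ?_
  rw [phi_smul (expo_nonempty (Fne j)) hk]
  push_cast
  ring

theorem hmin {g : ToricGerm n K} {s : ℕ} {F : Fin s → MvPolynomial (Fin n) ℂ}
    (Fne : ∀ j, F j ≠ 0) (hn : 0 < n) (b : Bdry g F) {B : EffDiv g.X} {e : LocEq B g.P}
    (hr : IsEqAt b e) {m : ℝ} (hm0 : 0 ≤ m)
    (hm : ∀ v, IsOverGerm g.P v → ∀ a, IsLogDisc e v a → m ≤ a) :
    ∀ w, g.Inter w → m ≤ lb b w := by
  intro w hi
  obtain ⟨k, u', hk, hu', rfl⟩ := exists_prim (ToricGerm.Inter.ne_zero hn hi)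
  obtain ⟨v', hv', htv'⟩ := exists_mon (K := K) hu'
  have hint' : g.Inter (tv v') := by
    intro r hr hr0
    have h1 := hi r hr hr0
    rw [pr_smul_right] at h1
    rw [htv']
    exact (pos_iff_pos_of_mul_pos h1).1 hk
  have hov' := ToricGerm.overGerm hv' hint'
  have h1 : m ≤ lb b u' := by
    refine hm v' hov' _ ((logDisc_mon hv').2 ?_)
    rw [hr v', lb, htv']
    have h2 : ∀ j, v'.ord (jo (Fin n) K (F j)) = phi (expo (F j)) u' := by
      intro j
      obtain ⟨⟨t, ht, h3⟩, h4⟩ := hv' (F j) (Fne j)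
      rw [htv'] at h3 h4
      symm
      apply phi_eq
      · exact ⟨ex t, mem_expo.2 ⟨t, ht, rfl⟩, h3.symm⟩
      · intro m hm
        obtain ⟨t, ht, rfl⟩ := mem_expo.1 hm
        exact h4 t ht
    simp only [h2]
    ring
  rw [lb_smul Fne b hk.le]
  have h2 : (1 : ℝ) ≤ k := by exact_mod_cast hk
  nlinarith

theorem semi {g : ToricGerm n K} {s : ℕ} {F : Fin s → MvPolynomial (Fin n) ℂ}
    (Fne : ∀ j, F j ≠ 0) {b : Bdry g F} {B : EffDiv g.X} {e : LocEq B g.P}
    (hr : IsEqAt b e) {x : Pt g.X} {e' : LocEq B x} (hr' : IsEqAt b e')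
    (hx : ∀ v, IsOverGerm x v → ∀ c, IsCanOrd g.X.T v c →
      ∃ w', g.Inter w' ∧ lb b w' ≤ 1 + (c : ℝ) -
        (∑ j, b.b j * (v.ord (jo (Fin n) K (F j)) : ℝ) - dot b.ψ (tv v))) :
    mld e ≤ mld e' := by
  by_cases hneg : ∃ v a, IsOverGerm g.P v ∧ IsLogDisc e v a ∧ a < 0
  · rw [mld, if_pos hneg]
    exact bot_le
  have hI : mld e = sInf {a : EReal | ∃ v r, IsOverGerm g.P v ∧ IsLogDisc e v r ∧
    a = (r : EReal)} := by rw [mld, if_neg hneg]
  push Not at hneg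
  have h0 : 0 ≤ mld e := by
    rw [hI]
    apply le_sInf
    rintro _ ⟨v, r, hv, hlr, rfl⟩
    exact_mod_cast hneg v r hv hlr
  have key : ∀ v, IsOverGerm x v → ∀ a, IsLogDisc e' v a → mld e ≤ (a : EReal) := by
    rintro v hv a ⟨c, hc, rfl⟩
    obtain ⟨w', hw', hle⟩ := hx v hv c hc
    rw [hr' v]
    by_contra hlt
    push Not at hlt
    obtain ⟨q, hq1, hq2⟩ := EReal.lt_iff_exists_real_btwn.1 hlt
    have h1 : max q 0 ≤ lb b w' := by
      refine hmin Fne (pos_n v) b hr (le_max_right _ _)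
        (fun v' hv' a' ha' => max_le ?_ (hneg v' a' hv' ha')) w' hw'
      have h2 : mld e ≤ (a' : EReal) := by
        rw [hI]
        exact sInf_le ⟨v', a', hv', ha', rfl⟩
      exact_mod_cast (hq2.trans_le h2).le
    have h2 := (le_max_left q 0).trans h1
    have h3 : 1 + (c : ℝ) - (∑ j, b.b j * (v.ord (jo (Fin n) K (F j)) : ℝ) -
      dot b.ψ (tv v)) < q := by exact_mod_cast hq1
    linarith
  by_cases hneg' : ∃ v a, IsOverGerm x v ∧ IsLogDisc e' v a ∧ a < 0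
  · obtain ⟨v, a, hv, ha, hlt⟩ := hneg'
    have h1 := h0.trans (key v hv a ha)
    have h2 : (0 : ℝ) ≤ a := by exact_mod_cast h1
    exact absurd hlt (not_lt.2 h2)
  · have hI' : mld e' = sInf {a : EReal | ∃ v r, IsOverGerm x v ∧ IsLogDisc e' v r ∧
      a = (r : EReal)} := by rw [mld, if_neg hneg']
    rw [hI']
    apply le_sInf
    rintro _ ⟨v, r, hv, hlr, rfl⟩
    exact key v hv r hlr

end Pool.Agent.Helper43K9.LN
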